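import Mathlib.Algebra.Group.End
import Mathlib.Data.Fintype.Prod
import Mathlib.Tactic.Group
import Mathlib.GroupTheory.FreeGroup.Reduce
import Mathlib.Data.List.Triplewise

/-!
Whitehead moves on the free group of rank three: definitions and length formulas.
-/

set_option autoImplicit false

namespace Pool.Agent.MP_6bf536_al

open FreeGroup hiding map_mul map_inv map_one

abbrev Lt := Fin 3 × Bool
abbrev F := FreeGroup (Fin 3)
abbrev Vx := Option Lt
abbrev AF := MulAut F

def linv (x : Lt) : Lt := (x.1, !x.2)

@[simp] lemma linv_fst (x : Lt) : (linv x).1 = x.1 := rfl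
@[simp] lemma linv_linv (x : Lt) : linv (linv x) = x := by simp [linv]
lemma linv_ne (x : Lt) : linv x ≠ x := by revert x; decide
lemma eq_or_eq_linv {x y : Lt} (h : x.1 = y.1) : x = y ∨ x = linv y := by
  revert x y; decide

def lt (x : Lt) : F := FreeGroup.mk [x]

lemma lt_true (i : Fin 3) : lt (i, true) = of i := rfl
lemma lt_linv (x : Lt) : lt (linv x) = (lt x)⁻¹ := by
  simp [lt, inv_mk, invRev, linv]
lemma lt_false (i : Fin 3) : lt (i, false) = (of i)⁻¹ := lt_linv (i, true)
lemma mk_cons (x : Lt) (l : List Lt) : FreeGroup.mk (x :: l) = lt x * FreeGroup.mk l := by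
  simp [lt, mul_mk]
lemma mk_nil : (FreeGroup.mk [] : F) = 1 := rfl
lemma norm_lt (x : Lt) : (lt x).norm = 1 := by
  simp [lt, FreeGroup.norm, toWord_mk]

def pw (b : Bool) (a : Lt) : F := if b then lt a else 1

@[simp] lemma pw_true (a : Lt) : pw true a = lt a := rfl
@[simp] lemma pw_false (a : Lt) : pw false a = 1 := rfl
lemma pw_linv (b : Bool) (a : Lt) : pw b (linv a) = (pw b a)⁻¹ := by
  cases b <;> simp [lt_linv]

/-- The Whitehead endomorphism attached to a vertex set `A` and a multiplier `a`. -/
def whm (A : Vx → Bool) (a : Lt) : F →* F :=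
  FreeGroup.lift fun i => if i = a.1 then of i else
    pw (A none) a * (pw (A (some (i, false))) a)⁻¹ * of i * pw (A (some (i, true))) a *
      (pw (A none) a)⁻¹

lemma whm_lt_eq (A : Vx → Bool) (a x : Lt) (h : x.1 = a.1) : whm A a (lt x) = lt x := by
  obtain ⟨i, s⟩ := x
  cases s <;> simp_all [lt_true, lt_false, whm]

lemma whm_lt_ne (A : Vx → Bool) (a x : Lt) (h : x.1 ≠ a.1) :
    whm A a (lt x) = pw (A none) a * (pw (A (some (linv x))) a)⁻¹ * lt x * pw (A (some x)) a *
      (pw (A none) a)⁻¹ := by
  obtain ⟨i, s⟩ := x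
  cases s
  · simp only [lt_false, whm, map_inv, lift_apply_of, if_neg h, linv, Bool.not_false]
    group
  · simp only [lt_true, whm, lift_apply_of, if_neg h, linv, Bool.not_true]

lemma whm_pw (A : Vx → Bool) (a x : Lt) (h : x.1 = a.1) (b : Bool) :
    whm A a (pw b x) = pw b x := by
  cases b <;> simp [whm_lt_eq A a x h]

lemma hom_ext_lt {G : Type*} [Monoid G] {f g : F →* G} (h : ∀ x, f (lt x) = g (lt x)) : f = g :=
  FreeGroup.ext_hom f g fun i => h (i, true)

lemma whm_inv (A : Vx → Bool) (a : Lt) : (whm A (linv a)).comp (whm A a) = MonoidHom.id F := by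
  refine hom_ext_lt fun x => ?_
  by_cases h : x.1 = a.1
  · simp [whm_lt_eq A a x h, whm_lt_eq A (linv a) x h]
  · simp only [MonoidHom.comp_apply, whm_lt_ne A a x h, map_mul, map_inv,
      whm_pw A (linv a) a rfl, whm_lt_ne A (linv a) x h, pw_linv, MonoidHom.id_apply]
    cases A none <;> cases A (some x) <;> cases A (some (linv x)) <;> simp [mul_assoc]

/-- The Whitehead automorphism. -/
def aut (A : Vx → Bool) (a : Lt) : AF :=
  MonoidHom.toMulEquiv (whm A a) (whm A (linv a)) (whm_inv A a)
    (by simpa using whm_inv A (linv a))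

@[simp] lemma aut_apply (A : Vx → Bool) (a : Lt) (g : F) : aut A a g = whm A a g := rfl

lemma aut_ext {f g : AF} (h : ∀ x, f (lt x) = g (lt x)) : f = g := by
  have : (f : F →* F) = (g : F →* F) := hom_ext_lt h
  ext x
  exact DFunLike.congr_fun this x

lemma aut_ext' {f g : AF} (h : ∀ i, f (lt (i, true)) = g (lt (i, true))) : f = g := by
  have : (f : F →* F) = (g : F →* F) := FreeGroup.ext_hom _ _ h
  ext x
  exact DFunLike.congr_fun this x

lemma aut_linv_mul (A : Vx → Bool) (a : Lt) : aut A (linv a) * aut A a = 1 :=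
  aut_ext fun x => DFunLike.congr_fun (whm_inv A a) (lt x)

lemma aut_congr {A B : Vx → Bool} {a : Lt} (h0 : A none = B none)
    (h : ∀ x : Lt, x.1 ≠ a.1 → A (some x) = B (some x)) : aut A a = aut B a := by
  refine aut_ext fun x => ?_
  by_cases hx : x.1 = a.1
  · simp [whm_lt_eq _ _ _ hx]
  · simp [whm_lt_ne _ _ _ hx, h0, h x hx, h (linv x) hx]

lemma aut_compl (A : Vx → Bool) (a : Lt) : aut (fun v => !A v) (linv a) = aut A a := by
  refine aut_ext fun x => ?_
  by_cases hx : x.1 = a.1
  · simp [whm_lt_eq A a x hx, whm_lt_eq _ (linv a) x hx]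
  · simp only [aut_apply, whm_lt_ne A a x hx, whm_lt_ne _ (linv a) x hx, pw_linv]
    cases A none <;> cases A (some x) <;> cases A (some (linv x)) <;> simp

/-! Gap sums -/

def gs (h : Vx → Vx → ℕ) : Vx → List Lt → ℕ
  | y, [] => h y none
  | y, z :: l => h y (some (linv z)) + gs h (some z) l

lemma gs_le {h h1 h2 : Vx → Vx → ℕ} (H : ∀ y z, h y z ≤ h1 y z + h2 y z) (y : Vx) (l : List Lt) :
    gs h y l ≤ gs h1 y l + gs h2 y l := by
  induction l generalizing y with
  | nil => exact H _ _
  | cons z l ih => have := ih (some z); have := H y (some (linv z)); simp only [gs]; omega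

lemma gs_le2 {h h' h1 h2 : Vx → Vx → ℕ} (H : ∀ y z, h y z + h' y z ≤ h1 y z + h2 y z) (y : Vx)
    (l : List Lt) : gs h y l + gs h' y l ≤ gs h1 y l + gs h2 y l := by
  induction l generalizing y with
  | nil => exact H _ _
  | cons z l ih => have := ih (some z); have := H y (some (linv z)); simp only [gs]; omega

lemma norm_gap_le (ψ : F →* F) (p : Vx → F) (κ : Lt → F)
    (H : ∀ x, ψ (lt x) = p none * (p (some (linv x)))⁻¹ * κ x * p (some x) * (p none)⁻¹)
    (y : Vx) (l : List Lt) :
    (p y * (p none)⁻¹ * ψ (FreeGroup.mk l)).norm ≤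
      (l.map fun x => (κ x).norm).sum + gs (fun y z => (p y * (p z)⁻¹).norm) y l := by
  induction l generalizing y with
  | nil => simp [gs, mk_nil]
  | cons z l ih =>
    have e : p y * (p none)⁻¹ * ψ (FreeGroup.mk (z :: l)) =
        (p y * (p (some (linv z)))⁻¹) * (κ z * (p (some z) * (p none)⁻¹ * ψ (FreeGroup.mk l))) := by
      rw [mk_cons, map_mul, H]; group
    have h1 := norm_mul_le (p y * (p (some (linv z)))⁻¹)
      (κ z * (p (some z) * (p none)⁻¹ * ψ (FreeGroup.mk l)))
    have h2 := norm_mul_le (κ z) (p (some z) * (p none)⁻¹ * ψ (FreeGroup.mk l))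
    have h3 := ih (some z)
    rw [e]
    simp only [gs, List.map_cons, List.sum_cons]
    omega

def sep (A : Vx → Bool) (y z : Vx) : ℕ := if A y = A z then 0 else 1

def cnt (j : Fin 3) (l : List Lt) : ℕ := l.countP fun x => x.1 = j

def ins (s t : Bool) (a : Lt) : List Lt := if s = t then [] else if s then [a] else [linv a]

def wl (A : Vx → Bool) (a : Lt) : Vx → List Lt → List Lt
  | y, [] => ins (A y) (A none) a
  | y, z :: l => ins (A y) (A (some (linv z))) a ++ ((if z.1 = a.1 then [] else [z]) ++
      wl A a (some z) l)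

lemma mk_ins (s t : Bool) (a : Lt) : FreeGroup.mk (ins s t a) = pw s a * (pw t a)⁻¹ := by
  cases s <;> cases t
  · simp [ins, mk_nil]
  · simp [ins, ← lt_linv]; rfl
  · simp [ins]; rfl
  · simp [ins, mk_nil]

lemma length_ins (A : Vx → Bool) (y z : Vx) (a : Lt) : (ins (A y) (A z) a).length = sep A y z := by
  unfold sep ins
  cases A y <;> cases A z <;> simp

/-- A proper move: the multiplier is in the set and its inverse is not. -/
def Proper (A : Vx → Bool) (a : Lt) : Prop := A (some a) = true ∧ A (some (linv a)) = false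

lemma whm_gap {A : Vx → Bool} {a : Lt} (h : Proper A a) (x : Lt) :
    whm A a (lt x) = pw (A none) a * (pw (A (some (linv x))) a)⁻¹ *
      (if x.1 = a.1 then 1 else lt x) * pw (A (some x)) a * (pw (A none) a)⁻¹ := by
  by_cases hx : x.1 = a.1
  · rw [whm_lt_eq _ _ _ hx, if_pos hx]
    rcases eq_or_eq_linv hx with rfl | rfl
    · rw [h.1, h.2]; cases A none <;> simp
    · rw [linv_linv, h.1, h.2, lt_linv]; cases A none <;> simp
  · rw [whm_lt_ne _ _ _ hx, if_neg hx]

lemma mk_wl {A : Vx → Bool} {a : Lt} (h : Proper A a) (y : Vx) (l : List Lt) :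
    FreeGroup.mk (wl A a y l) = pw (A y) a * (pw (A none) a)⁻¹ * whm A a (FreeGroup.mk l) := by
  induction l generalizing y with
  | nil => simp [wl, mk_ins, mk_nil]
  | cons z l ih =>
    rw [wl, ← mul_mk, ← mul_mk, ih, mk_ins, mk_cons, map_mul, whm_gap h]
    have : FreeGroup.mk (if z.1 = a.1 then [] else [z]) = if z.1 = a.1 then 1 else lt z := by
      split_ifs <;> rfl
    rw [this]; group

lemma length_wl (A : Vx → Bool) (a : Lt) (y : Vx) (l : List Lt) :
    (wl A a y l).length + cnt a.1 l = l.length + gs (sep A) y l := by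
  induction l generalizing y with
  | nil => simp [wl, length_ins, gs, cnt]
  | cons z l ih =>
    have := ih (some z)
    simp only [wl, List.length_append, length_ins, gs, cnt, List.countP_cons, List.length_cons] at *
    by_cases hz : z.1 = a.1 <;> simp [hz] <;> omega

/-- The possible first letters of the image word after the vertex `y`. -/
def okHead (A : Vx → Bool) (a : Lt) (y : Vx) (h : Lt) : Prop :=
  if y = some a then h = a ∨ (h.1 ≠ a.1 ∧ A (some (linv h)) = true)
  else if y = some (linv a) then h = linv a ∨ (h.1 ≠ a.1 ∧ A (some (linv h)) = false)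
  else y ≠ some (linv h)

lemma red_cons {x : Lt} {l : List Lt} (hl : IsReduced l) (h : ∀ z ∈ l.head?, z ≠ linv x) :
    IsReduced (x :: l) := by
  cases l with
  | nil => exact IsReduced.singleton
  | cons z l =>
    refine isReduced_cons_cons.2 ⟨fun h1 => ?_, hl⟩
    have := h z rfl
    clear hl h
    revert x z; decide

lemma ne_of_red {z w : Lt} (h : z.1 = w.1 → z.2 = w.2) : some z ≠ some (linv w) := by
  revert z w; decide

lemma wl_reduced {A : Vx → Bool} {a : Lt} (h : Proper A a) (l : List Lt) (y : Vx)
    (hl : IsReduced l) (hy : ∀ z ∈ l.head?, y ≠ some (linv z)) :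
    IsReduced (wl A a y l) ∧ ∀ z ∈ (wl A a y l).head?, okHead A a y z := by
  obtain ⟨h1, h2⟩ := h
  have hne := linv_ne a
  induction l generalizing y with
  | nil =>
    simp only [wl, ins, okHead]
    cases hy : A y <;> cases A none <;> simp
    · split_ifs <;> simp_all
    · rintro - rfl; simp_all
  | cons z l ih =>
    have hl' : IsReduced l := List.IsChain.of_cons hl
    have hz : ∀ w ∈ l.head?, some z ≠ some (linv w) := by
      intro w hw
      cases l with
      | nil => simp at hw
      | cons w' l =>
        obtain rfl : w' = w := by simpa using hw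
        exact ne_of_red (isReduced_cons_cons.1 hl).1
    obtain ⟨i1, i2⟩ := ih (some z) hl' hz
    have hyz := hy z rfl
    have key : IsReduced ((if z.1 = a.1 then [] else [z]) ++ wl A a (some z) l) ∧
        ∀ w ∈ ((if z.1 = a.1 then [] else [z]) ++ wl A a (some z) l).head?,
          (z.1 ≠ a.1 ∧ w = z) ∨ (z.1 = a.1 ∧ okHead A a (some z) w) := by
      by_cases hza : z.1 = a.1
      · simpa [hza, i1] using i2
      · simp only [if_neg hza, List.singleton_append, List.head?_cons, Option.mem_def,
          Option.some.injEq]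
        refine ⟨red_cons i1 fun w hw => ?_, fun w hw => Or.inl ⟨hza, hw.symm⟩⟩
        have := i2 w hw
        have e1 : z ≠ a := fun e => hza (by rw [e])
        have e2 : z ≠ linv a := fun e => hza (by rw [e]; rfl)
        simp only [okHead, Option.some.injEq, if_neg e1, if_neg e2] at this
        rintro rfl
        simp at this
    obtain ⟨k1, k2⟩ := key
    clear ih i1 i2 hz hy
    rw [wl]
    generalize (if z.1 = a.1 then [] else [z]) ++ wl A a (some z) l = m at k1 k2
    have hb : ∀ w : Lt, w.1 = a.1 → w = a ∨ w = linv a := fun w => eq_or_eq_linv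
    cases hAy : A y <;> cases hAz : A (some (linv z))
    · refine ⟨by simpa [ins] using k1, fun w hw => ?_⟩
      have hw' : w ∈ m.head? := by simpa [ins] using hw
      rcases k2 w hw' with ⟨e1, rfl⟩ | ⟨e1, e2⟩
      · unfold okHead; split_ifs <;> simp_all
      · rcases hb z e1 with rfl | rfl
        · simp only [okHead, if_true] at e2
          have c1 : y ≠ some z := by rintro rfl; simp_all
          unfold okHead; rw [if_neg c1, if_neg hyz]
          rcases e2 with rfl | ⟨_, e2⟩
          · exact hyz
          · rintro rfl; rw [hAy] at e2; exact absurd e2 (by simp)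
        · simp_all
    · refine ⟨?_, fun w hw => ?_⟩
      · simp only [ins, Bool.false_eq_true, if_false, List.singleton_append]
        refine red_cons k1 fun w hw => ?_
        rcases k2 w hw with ⟨e1, rfl⟩ | ⟨e1, e2⟩
        · rintro rfl; simp at e1
        · rcases hb z e1 with rfl | rfl
          · simp_all
          · simp only [okHead, Option.some.injEq, if_neg hne, if_true] at e2
            rintro rfl
            rcases e2 with e2 | e2
            · exact hne (by simpa using e2.symm)
            · simp at e2
      · obtain rfl : linv a = w := by simpa [ins] using hw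
        unfold okHead; split_ifs <;> simp_all
    · refine ⟨?_, fun w hw => ?_⟩
      · simp only [ins, Bool.true_eq_false, if_false, if_true, List.singleton_append]
        refine red_cons k1 fun w hw => ?_
        rcases k2 w hw with ⟨e1, rfl⟩ | ⟨e1, e2⟩
        · rintro rfl; simp at e1
        · rcases hb z e1 with rfl | rfl
          · simp only [okHead, if_true] at e2
            rintro rfl
            rcases e2 with e2 | e2
            · exact hne e2
            · simp at e2
          · simp_all
      · obtain rfl : a = w := by simpa [ins] using hw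
        unfold okHead; split_ifs <;> simp_all
    · refine ⟨by simpa [ins] using k1, fun w hw => ?_⟩
      have hw' : w ∈ m.head? := by simpa [ins] using hw
      rcases k2 w hw' with ⟨e1, rfl⟩ | ⟨e1, e2⟩
      · unfold okHead; split_ifs <;> simp_all
      · rcases hb z e1 with rfl | rfl
        · simp_all
        · simp only [okHead, Option.some.injEq, if_neg hne, if_true] at e2
          unfold okHead; split_ifs with c1 c2
          · simp_all
          · simp_all
          · rcases e2 with rfl | ⟨_, e2⟩
            · simpa using c1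
            · rintro rfl; simp_all

lemma norm_whm {A : Vx → Bool} {a : Lt} (h : Proper A a) (g : F) :
    (whm A a g).norm + cnt a.1 g.toWord = g.norm + gs (sep A) none g.toWord := by
  have h1 := mk_wl h none g.toWord
  have h2 := (wl_reduced h g.toWord none isReduced_toWord (by simp)).1
  rw [mul_inv_cancel, one_mul, mk_toWord] at h1
  rw [← h1, FreeGroup.norm, toWord_mk, h2.reduce_eq, length_wl]
  rfl

end Pool.Agent.MP_6bf536_al
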