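import Mathlib.Algebra.BigOperators.Group.List.Defs
import Mathlib.Tactic.Group

/-!
Braid words on seven strands: a sound reduction procedure, and divisibility by the half twist.
-/

set_option autoImplicit false

namespace Pool.Agent.MP_6bf536_al

abbrev BL := ℕ × Bool

variable {G : Type*} [Group G]

structure IsBraid (s : ℕ → G) : Prop where
  comm : ∀ i j, i + 2 ≤ j → s i * s j = s j * s i
  braid : ∀ i, i + 1 < 6 → s i * s (i + 1) * s i = s (i + 1) * s i * s (i + 1)
  big : ∀ k, 6 ≤ k → s k = 1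

def sl (s : ℕ → G) (x : BL) : G := if x.2 then s x.1 else (s x.1)⁻¹
def ev (s : ℕ → G) (w : List BL) : G := (w.map (sl s)).prod
def evR (s : ℕ → G) : List BL → G
  | [] => 1
  | x :: st => evR s st * sl s x
def binv (w : List BL) : List BL := (w.map fun x => (x.1, !x.2)).reverse

@[simp] lemma ev_nil (s : ℕ → G) : ev s [] = 1 := rfl
lemma ev_cons (s : ℕ → G) (x : BL) (w : List BL) : ev s (x :: w) = sl s x * ev s w := by simp [ev]
lemma ev_append (s : ℕ → G) (v w : List BL) : ev s (v ++ w) = ev s v * ev s w := by simp [ev]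
lemma sl_not (s : ℕ → G) (i : ℕ) (e : Bool) : sl s (i, !e) = (sl s (i, e))⁻¹ := by
  cases e <;> simp [sl]
lemma ev_binv (s : ℕ → G) (w : List BL) : ev s (binv w) = (ev s w)⁻¹ := by
  induction w with
  | nil => simp [binv]
  | cons x w ih =>
    have : binv (x :: w) = binv w ++ [(x.1, !x.2)] := by simp [binv]
    rw [this, ev_append, ih, ev_cons, ev_cons, sl_not]; simp

def look (i : ℕ) (e ne : Bool) : List BL → List BL → Option (List BL × List BL)
  | [], _ => none
  | (j, d) :: st, acc =>
    bif Nat.beq j i then (bif d == e then none else some (st, acc))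
    else bif Nat.beq (j + 1) i then none
    else bif Nat.beq j (i + 1) then
      (bif Nat.ble j 5 then look i e ne st ((j, e) :: (i, d) :: (j, ne) :: acc) else none)
    else look i e ne st ((j, d) :: acc)

def hr : ℕ → List BL → List BL → Bool
  | 0, _, _ => false
  | _ + 1, st, [] => st.isEmpty
  | n + 1, st, (i, e) :: inp =>
    match (bif e then look i true false st inp else look i false true st inp) with
    | some p => hr n p.1 p.2
    | none => hr n ((i, e) :: st) inp

variable {s : ℕ → G}

lemma braid_aux {a b : G} (h : a * b * a = b * a * b) :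
    b * a = a * (b * (a * b⁻¹)) ∧ b⁻¹ * a = a * (b * (a⁻¹ * b⁻¹)) ∧
    b * a⁻¹ = a⁻¹ * (b⁻¹ * (a * b)) ∧ b⁻¹ * a⁻¹ = a⁻¹ * (b⁻¹ * (a⁻¹ * b)) := by
  refine ⟨?_, ?_, ?_, ?_⟩
  · calc b * a = (b * a * b) * b⁻¹ := by group
      _ = _ := by rw [← h]; group
  · calc b⁻¹ * a = b⁻¹ * (a * b * a) * a⁻¹ * b⁻¹ := by group
      _ = _ := by rw [h]; group
  · calc b * a⁻¹ = a⁻¹ * b⁻¹ * (b * a * b) * a⁻¹ := by group
      _ = _ := by rw [← h]; group
  · calc b⁻¹ * a⁻¹ = (b * a * b)⁻¹ * b := by group
      _ = _ := by rw [← h]; group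

lemma look_sound (h : IsBraid s) (i : ℕ) (e : Bool) (st acc : List BL) (p : List BL × List BL)
    (hp : look i e (!e) st acc = some p) :
    evR s st * (sl s (i, e) * ev s acc) = evR s p.1 * ev s p.2 := by
  induction st generalizing acc with
  | nil => simp [look] at hp
  | cons x st ih =>
    obtain ⟨j, d⟩ := x
    simp only [look, Bool.cond_eq_ite, Nat.beq_eq, Nat.ble_eq, beq_iff_eq] at hp
    split_ifs at hp with c1 c2 c3 c4 c5
    · obtain rfl := Option.some.inj hp
      obtain rfl : d = !e := by revert c2; cases d <;> cases e <;> simp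
      rw [c1, evR, sl_not]; group
    · rw [← ih _ hp, evR, mul_assoc, ev_cons, ev_cons, ev_cons, sl_not]
      congr 1
      subst c4
      obtain ⟨a1, a2, a3, a4⟩ := braid_aux (h.braid i (by omega))
      rw [← mul_assoc]
      cases d <;> cases e <;> simp [sl, a1, a2, a3, a4, mul_assoc]
    · rw [← ih _ hp, evR, mul_assoc, ev_cons]
      congr 1
      have hc : Commute (s j) (s i) := by
        rcases lt_or_gt_of_ne c1 with c | c
        · exact h.comm j i (by omega)
        · exact (h.comm i j (by omega)).symm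
      have : Commute (sl s (j, d)) (sl s (i, e)) := by
        cases d <;> cases e <;> simp [sl, hc]
      rw [← mul_assoc, this.eq, mul_assoc]

lemma hr_sound (h : IsBraid s) (n : ℕ) (st inp : List BL) (H : hr n st inp = true) :
    evR s st * ev s inp = 1 := by
  induction n generalizing st inp with
  | zero => simp [hr] at H
  | succ n ih =>
    cases inp with
    | nil =>
      obtain rfl : st = [] := by simpa [hr] using H
      simp [evR]
    | cons x inp =>
      obtain ⟨i, e⟩ := x
      have e1 : (bif e then look i true false st inp else look i false true st inp) =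
          look i e (!e) st inp := by cases e <;> rfl
      rw [hr, e1] at H
      split at H
      · rename_i p hp
        rw [ev_cons, look_sound h i e st inp p hp]
        exact ih _ _ H
      · have := ih _ _ H
        rwa [evR, mul_assoc, ← ev_cons] at this

abbrev OL := Option (List BL × List BL)

/-- A version of `look` written with recursors, faster to evaluate. -/
noncomputable def lookR (i : ℕ) (e ne : Bool) (st : List BL) : List BL → OL :=
  List.rec (motive := fun _ => List BL → OL) (fun _ => none)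
    (fun x st ih acc => Prod.casesOn (motive := fun _ => OL) x fun j d =>
      Bool.rec (motive := fun _ => OL)
        (Bool.rec (motive := fun _ => OL)
          (Bool.rec (motive := fun _ => OL) (ih (x :: acc))
            (Bool.rec (motive := fun _ => OL) none (ih ((j, e) :: (i, d) :: (j, ne) :: acc))
              (Nat.ble j 5))
            (Nat.beq j (Nat.succ i)))
          none (Nat.beq (Nat.succ j) i))
        (Bool.rec (motive := fun _ => OL)
          (Bool.rec (motive := fun _ => OL) none (some (st, acc)) e)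
          (Bool.rec (motive := fun _ => OL) (some (st, acc)) none e) d)
        (Nat.beq j i)) st

/-- A version of `hr` written with recursors, faster to evaluate. -/
noncomputable def hrR (n : ℕ) : List BL → List BL → Bool :=
  Nat.rec (motive := fun _ => List BL → List BL → Bool) (fun _ _ => false)
    (fun _ ih st inp => List.rec (motive := fun _ => Bool) st.isEmpty
      (fun x inp _ => Prod.casesOn (motive := fun _ => Bool) x fun i e =>
        Option.rec (motive := fun _ => Bool) (ih (x :: st) inp)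
          (fun p => Prod.rec (motive := fun _ => Bool) (fun a b => ih a b) p)
          (Bool.rec (motive := fun _ => OL) (lookR i false true st inp)
            (lookR i true false st inp) e)) inp) n

lemma lookR_eq (i : ℕ) (e ne : Bool) (st acc : List BL) :
    lookR i e ne st acc = look i e ne st acc := by
  induction st generalizing acc with
  | nil => rfl
  | cons x st ih =>
    obtain ⟨j, d⟩ := x
    rw [look, ← ih, ← ih]
    show Bool.rec (motive := fun _ => OL)
        (Bool.rec (motive := fun _ => OL)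
          (Bool.rec (motive := fun _ => OL) (lookR i e ne st ((j, d) :: acc))
            (Bool.rec (motive := fun _ => OL) none
              (lookR i e ne st ((j, e) :: (i, d) :: (j, ne) :: acc)) (Nat.ble j 5))
            (Nat.beq j (i + 1)))
          none (Nat.beq (j + 1) i))
        (Bool.rec (motive := fun _ => OL)
          (Bool.rec (motive := fun _ => OL) none (some (st, acc)) e)
          (Bool.rec (motive := fun _ => OL) (some (st, acc)) none e) d)
        (Nat.beq j i) = _
    cases Nat.beq j i <;> cases Nat.beq (j + 1) i <;> cases Nat.beq j (i + 1) <;>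
      cases Nat.ble j 5 <;> cases d <;> cases e <;> rfl

lemma hrR_eq (n : ℕ) (st inp : List BL) : hrR n st inp = hr n st inp := by
  induction n generalizing st inp with
  | zero => rfl
  | succ n ih =>
    cases inp with
    | nil => rfl
    | cons x inp =>
      obtain ⟨i, e⟩ := x
      rw [hr, ← lookR_eq, ← lookR_eq]
      show Option.rec (motive := fun _ => Bool) (hrR n ((i, e) :: st) inp)
          (fun p => Prod.rec (motive := fun _ => Bool) (fun a b => hrR n a b) p)
          (Bool.rec (motive := fun _ => OL) (lookR i false true st inp)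
            (lookR i true false st inp) e) = _
      cases e
      · cases lookR i false true st inp <;> exact ih _ _
      · cases lookR i true false st inp <;> exact ih _ _

noncomputable def triv (w : List BL) : Bool := hrR 1000000 [] w

lemma triv_sound (h : IsBraid s) {w : List BL} (H : triv w = true) : ev s w = 1 := by
  rw [triv, hrR_eq] at H
  simpa [evR] using hr_sound h _ _ _ H

def posw (l : List ℕ) : List BL := l.map fun k => (k, true)

def evp (s : ℕ → G) (l : List ℕ) : G := (l.map s).prod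

lemma ev_posw (l : List ℕ) : ev s (posw l) = evp s l := by
  simp [ev, evp, posw, sl, Function.comp_def]

def dw : List ℕ := [0, 1, 0, 2, 1, 0, 3, 2, 1, 0, 4, 3, 2, 1, 0, 5, 4, 3, 2, 1, 0]

/-- The full twist as a word. -/
def d2 : List BL := posw dw ++ posw dw

def rept (w : List BL) : ℕ → List BL
  | 0 => []
  | n + 1 => w ++ rept w n

lemma ev_rept (w : List BL) (n : ℕ) : ev s (rept w n) = ev s w ^ n := by
  induction n with
  | zero => simp [rept]
  | succ n ih => rw [rept, ev_append, ih, pow_succ']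

def cntb (b : Bool) : List BL → ℕ
  | [] => 0
  | x :: w => bif x.2 == b then cntb b w + 1 else cntb b w

/-- Sound test for a word to represent a power of the full twist. -/
noncomputable def chk (w : List BL) : Bool :=
  triv (w ++ (rept d2 ((cntb false w - cntb true w) / 42) ++
    rept (binv d2) ((cntb true w - cntb false w) / 42)))

lemma chk_sound (h : IsBraid s) {w : List BL} (H : chk w = true) :
    ∃ k : ℤ, ev s w = ev s d2 ^ k := by
  have := triv_sound h H
  rw [ev_append, ev_append, ev_rept, ev_rept, ev_binv, mul_eq_one_iff_eq_inv] at this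
  refine ⟨((cntb true w - cntb false w) / 42 : ℕ) - ((cntb false w - cntb true w) / 42 : ℕ), ?_⟩
  rw [this]; group

/-! Positive words and left divisibility by permutation braids -/

def Pos (s : ℕ → G) (m : ℕ) (β : G) : Prop :=
  ∃ l : List ℕ, (∀ k ∈ l, k < 6) ∧ l.length = m ∧ evp s l = β

lemma evp_cons (k : ℕ) (l : List ℕ) : evp s (k :: l) = s k * evp s l := by simp [evp]
lemma evp_append (l m : List ℕ) : evp s (l ++ m) = evp s l * evp s m := by simp [evp]

lemma Pos.cons {m k : ℕ} {β : G} (hk : k < 6) (h : Pos s m β) : Pos s (m + 1) (s k * β) := by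
  obtain ⟨l, h1, h2, h3⟩ := h
  exact ⟨k :: l, by simpa [hk] using h1, by simp [h2], by rw [evp_cons, h3]⟩

def sw (k i : ℕ) : ℕ := if i = k then k + 1 else if i = k + 1 then k else i

@[simp] lemma sw_a (k : ℕ) : sw k k = k + 1 := by simp [sw]
@[simp] lemma sw_b (k : ℕ) : sw k (k + 1) = k := by simp [sw]
@[simp] lemma sw_c (k : ℕ) : sw k (k + 1 + 1) = k + 1 + 1 := by unfold sw; split_ifs <;> omega
@[simp] lemma sw_d (k : ℕ) : sw (k + 1) k = k := by unfold sw; split_ifs <;> omega

lemma sw_ne {k x : ℕ} (a : x ≠ k) (b : x ≠ k + 1) : sw k x = x := by simp [sw, a, b]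

lemma sw_braid (k i : ℕ) : sw k (sw (k + 1) (sw k i)) = sw (k + 1) (sw k (sw (k + 1) i)) := by
  by_cases a : i = k
  · simp [a]
  by_cases b : i = k + 1
  · simp [b]
  by_cases c : i = k + 1 + 1
  · simp [c]
  simp [sw_ne a b, sw_ne b c]

lemma sw_comm {k l : ℕ} (h : k + 2 ≤ l) (i : ℕ) : sw k (sw l i) = sw l (sw k i) := by
  by_cases a : i = k
  · rw [a, sw_ne (k := l) (x := k) (by omega) (by omega), sw_a, sw_ne (by omega) (by omega)]
  by_cases b : i = k + 1
  · rw [b, sw_ne (k := l) (x := k + 1) (by omega) (by omega), sw_b, sw_ne (by omega) (by omega)]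
  rw [sw_ne a b]
  by_cases c : i = l
  · rw [c, sw_a, sw_ne (by omega) (by omega)]
  by_cases d : i = l + 1
  · rw [d, sw_b, sw_ne (by omega) (by omega)]
  rw [sw_ne c d, sw_ne a b]

inductive Dv (s : ℕ → G) : ℕ → (ℕ → ℤ) → ℕ → G → Prop
  | base {u : ℕ → ℤ} {m : ℕ} {β : G} : (∀ k, k < 6 → ¬ u (k + 1) < u k) → Pos s m β → Dv s 0 u m β
  | step {n : ℕ} {u : ℕ → ℤ} {m k : ℕ} {β : G} : k < 6 → u (k + 1) < u k →
      Dv s n (u ∘ sw k) m β → Dv s (n + 1) u (m + 1) (s k * β)

lemma Dv.pos {n m : ℕ} {u : ℕ → ℤ} {β : G} (h : Dv s n u m β) : Pos s m β := by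
  induction h with
  | base _ h => exact h
  | step hk _ _ ih => exact ih.cons hk

lemma Dv.exch (hs : IsBraid s) (n : ℕ) : ∀ {m k : ℕ} {u : ℕ → ℤ} {β : G}, Dv s n u m β → k < 6 →
    u (k + 1) < u k →
    ∃ n' m' β', n = n' + 1 ∧ m = m' + 1 ∧ β = s k * β' ∧ Dv s n' (u ∘ sw k) m' β' := by
  induction n using Nat.strong_induction_on with
  | _ n ih =>
  intro m k u β h hk hd
  cases h with
  | base h _ => exact absurd hd (h k hk)
  | @step n _ m l β hl hd' h =>
    by_cases c : l = k
    · subst c; exact ⟨_, _, _, rfl, rfl, rfl, h⟩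
    by_cases c1 : l = k + 1
    · subst c1
      obtain ⟨n1, m1, β1, rfl, rfl, rfl, h1⟩ := ih n (by omega) h hk (by simp; omega)
      obtain ⟨n2, m2, β2, rfl, rfl, rfl, h2⟩ := ih n1 (by omega) h1 hl (by simp; omega)
      refine ⟨_, _, s (k + 1) * (s k * β2), rfl, rfl, ?_, ?_⟩
      · simp only [← mul_assoc, hs.braid k hl]
      · refine .step hl (by simp; omega) (.step hk (by simp; omega) ?_)
        have : ((u ∘ sw k) ∘ sw (k + 1)) ∘ sw k = ((u ∘ sw (k + 1)) ∘ sw k) ∘ sw (k + 1) := by
          funext i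
          simp only [Function.comp, sw_braid]
        rwa [this]
    by_cases c2 : k = l + 1
    · subst c2
      obtain ⟨n1, m1, β1, rfl, rfl, rfl, h1⟩ := ih n (by omega) h hk (by simp; omega)
      obtain ⟨n2, m2, β2, rfl, rfl, rfl, h2⟩ := ih n1 (by omega) h1 hl (by simp; omega)
      refine ⟨_, _, s l * (s (l + 1) * β2), rfl, rfl, ?_, ?_⟩
      · simp only [← mul_assoc, hs.braid l hk]
      · refine .step hl (by simp; omega) (.step hk (by simp; omega) ?_)
        have : ((u ∘ sw (l + 1)) ∘ sw l) ∘ sw (l + 1) = ((u ∘ sw l) ∘ sw (l + 1)) ∘ sw l := by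
          funext i
          simp only [Function.comp, sw_braid]
        rwa [this]
    · have e1 : sw l k = k := sw_ne (by omega) (by omega)
      have e2 : sw l (k + 1) = k + 1 := sw_ne (by omega) (by omega)
      have e3 : sw k l = l := sw_ne (by omega) (by omega)
      have e4 : sw k (l + 1) = l + 1 := sw_ne (by omega) (by omega)
      obtain ⟨n1, m1, β1, rfl, rfl, rfl, h1⟩ := ih n (by omega) h hk (by simpa [e1, e2] using hd)
      refine ⟨_, _, s l * β1, rfl, rfl, ?_, ?_⟩
      · rw [← mul_assoc, ← mul_assoc]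
        congr 1
        rcases lt_or_gt_of_ne c with c | c
        · exact hs.comm l k (by omega)
        · exact (hs.comm k l (by omega)).symm
      · refine .step hl (by simpa [e3, e4] using hd') ?_
        have : (u ∘ sw k) ∘ sw l = (u ∘ sw l) ∘ sw k := by
          funext i
          simp only [Function.comp]
          rcases lt_or_gt_of_ne c with c | c
          · rw [sw_comm (k := l) (by omega)]
          · rw [sw_comm (k := k) (by omega)]
        rwa [this]

lemma sw_lt {k i j : ℕ} (hk : k < 6) (hij : i < j) (hj : j < 7) (h : ¬ (i = k ∧ j = k + 1)) :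
    sw k i < sw k j ∧ sw k j < 7 := by
  unfold sw; split_ifs <;> omega

lemma Dv.mono (hs : IsBraid s) (n : ℕ) : ∀ {m : ℕ} {u u' : ℕ → ℤ} {β : G}, Dv s n u' m β →
    (∀ i j, i < j → j < 7 → u j < u i → u' j < u' i) → ∃ n', Dv s n' u m β := by
  induction n with
  | zero =>
    intro m u u' β h H
    cases h with
    | base h1 h2 => exact ⟨0, .base (fun k hk c => h1 k hk (H k (k + 1) (by omega) (by omega) c)) h2⟩
  | succ n ih =>
    intro m u u' β h H
    by_cases c : ∀ k, k < 6 → ¬ u (k + 1) < u k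
    · exact ⟨0, .base c h.pos⟩
    push Not at c
    obtain ⟨k, hk, c⟩ := c
    obtain ⟨n1, m1, β1, e, rfl, rfl, h1⟩ :=
      Dv.exch hs _ h hk (H k (k + 1) (by omega) (by omega) c)
    obtain rfl : n = n1 := by omega
    obtain ⟨n', h'⟩ := ih (u := u ∘ sw k) h1 fun i j hij hj hu => by
      by_cases d : i = k ∧ j = k + 1
      · obtain ⟨rfl, rfl⟩ := d
        simp at hu; omega
      · exact H _ _ (sw_lt hk hij hj d).1 (sw_lt hk hij hj d).2 hu
    exact ⟨_, .step hk c h'⟩

def depP (k i j : ℕ) : List (ℕ × ℕ) :=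
  if i = k ∧ j = k + 1 then [] else if j = k then [(i, k), (i, k + 1)]
  else if j = k + 1 then [(i, k)] else if i = k then [(k + 1, j)]
  else if i = k + 1 then [(k, j), (k + 1, j)] else [(i, j)]

def actS (k : ℕ) (A : ℕ → ℕ → Prop) (i j : ℕ) : Prop := ∀ q ∈ depP k i j, A q.1 q.2

def actL : List ℕ → ℕ → ℕ → Prop
  | [] => fun _ _ => False
  | k :: l => actS k (actL l)

def Clo (A : ℕ → ℕ → Prop) : Prop := ∀ i j l, i < j → j < l → A i j → A j l → A i l

section
variable {A : ℕ → ℕ → Prop} {k i j : ℕ}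
lemma act1 (_h : i < k) : actS k A i k ↔ A i k ∧ A i (k + 1) := by simp [actS, depP]
lemma act2 (h : i < k) : actS k A i (k + 1) ↔ A i k := by simp [actS, depP, h.ne]
lemma act3 (h : k + 1 < j) : actS k A k j ↔ A (k + 1) j := by
  have : j ≠ k := by omega
  simp [actS, depP, h.ne', this]
lemma act4 (h : k + 1 < j) : actS k A (k + 1) j ↔ A k j ∧ A (k + 1) j := by
  have : j ≠ k := by omega
  simp [actS, depP, h.ne', this]
lemma act5 (h1 : i ≠ k) (h2 : i ≠ k + 1) (h3 : j ≠ k) (h4 : j ≠ k + 1) :
    actS k A i j ↔ A i j := by simp [actS, depP, h1, h2, h3, h4]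
end

lemma Clo.act {A : ℕ → ℕ → Prop} (h : Clo A) (k : ℕ) : Clo (actS k A) := by
  intro i j l hij hjl h1 h2
  by_cases c1 : j = k
  · subst c1
    rw [act1 hij] at h1
    by_cases c : l = j + 1
    · subst c; exact (act2 hij).2 h1.1
    · rw [act3 (by omega)] at h2
      exact (act5 (by omega) (by omega) (by omega) c).2 (h _ _ _ (by omega) (by omega) h1.2 h2)
  by_cases c2 : j = k + 1
  · subst c2
    rw [act4 hjl] at h2
    by_cases c : i = k
    · subst c; exact (act3 hjl).2 h2.2
    · rw [act2 (by omega)] at h1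
      exact (act5 c (by omega) (by omega) (by omega)).2 (h _ _ _ (by omega) (by omega) h1 h2.1)
  by_cases c3 : i = k
  · subst c3
    rw [act3 (by omega)] at h1 ⊢
    rw [act5 c1 c2 (by omega) (by omega)] at h2
    exact h _ _ _ (by omega) hjl h1 h2
  by_cases c4 : i = k + 1
  · subst c4
    rw [act4 (by omega)] at h1 ⊢
    rw [act5 c1 c2 (by omega) (by omega)] at h2
    exact ⟨h _ _ _ (by omega) hjl h1.1 h2, h _ _ _ hij hjl h1.2 h2⟩
  rw [act5 c3 c4 c1 c2] at h1
  by_cases c5 : l = k
  · subst c5
    rw [act1 (by omega)] at h2 ⊢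
    exact ⟨h _ _ _ hij hjl h1 h2.1, h _ _ _ hij (by omega) h1 h2.2⟩
  by_cases c6 : l = k + 1
  · subst c6
    rw [act2 (by omega)] at h2 ⊢
    exact h _ _ _ hij (by omega) h1 h2
  rw [act5 c1 c2 c5 c6] at h2
  exact (act5 c3 c4 c5 c6).2 (h _ _ _ hij hjl h1 h2)

lemma clo_actL (l : List ℕ) : Clo (actL l) := by
  cases l with
  | nil => intro i j l _ _ h; exact h.elim
  | cons k l => exact (clo_actL l).act k

lemma of_act_sw {A : ℕ → ℕ → Prop} {k i j : ℕ} (hij : i < j) (h : ¬ (i = k ∧ j = k + 1))
    (H : actS k A (sw k i) (sw k j)) : A i j := by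
  have e : ∀ x, x ≠ k → x ≠ k + 1 → sw k x = x := fun x => sw_ne
  by_cases c1 : j = k
  · subst c1
    rwa [sw_a, e i (by omega) (by omega), act2 hij] at H
  by_cases c2 : j = k + 1
  · subst c2
    rw [sw_b, e i (by omega) (by omega), act1 (by omega)] at H
    exact H.2
  rw [e j c1 c2] at H
  by_cases c3 : i = k
  · subst c3
    rw [sw_a, act4 (by omega)] at H
    exact H.1
  by_cases c4 : i = k + 1
  · subst c4
    rwa [sw_b, act3 hij] at H
  rwa [e i c3 c4, act5 c3 c4 c1 c2] at H

lemma dv_of_act (hs : IsBraid s) (l : List ℕ) (hl : ∀ k ∈ l, k < 6) (u : ℕ → ℤ)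
    (hu : ∀ i j, i < j → j < 7 → u i ≠ u j) (H : ∀ i j, i < j → j < 7 → u j < u i → actL l i j) :
    ∃ n, Dv s n u l.length (evp s l) := by
  induction l generalizing u with
  | nil => exact ⟨0, .base (fun k hk c => H k (k + 1) (by omega) (by omega) c) ⟨[], hl, rfl, rfl⟩⟩
  | cons k l ih =>
    have hk : k < 6 := hl k (by simp)
    have key : ∀ u : ℕ → ℤ, (∀ i j, i < j → j < 7 → u i ≠ u j) →
        (∀ i j, i < j → j < 7 → u j < u i → actL (k :: l) i j) → u (k + 1) < u k →
        ∃ n, Dv s n u (k :: l).length (evp s (k :: l)) := by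
      intro u hu H c
      obtain ⟨n, h⟩ := ih (fun k' h => hl k' (by simp [h])) (u ∘ sw k) (fun i j hij hj => by
        by_cases d : i = k ∧ j = k + 1
        · obtain ⟨rfl, rfl⟩ := d
          simp; omega
        · exact hu _ _ (sw_lt hk hij hj d).1 (sw_lt hk hij hj d).2) (fun i j hij hj hlt => by
        by_cases d : i = k ∧ j = k + 1
        · obtain ⟨rfl, rfl⟩ := d
          simp at hlt; omega
        · exact of_act_sw hij d (H _ _ (sw_lt hk hij hj d).1 (sw_lt hk hij hj d).2 hlt))
      exact ⟨_, evp_cons (s := s) k l ▸ Dv.step hk c h⟩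
    by_cases c : u (k + 1) < u k
    · exact key u hu H c
    have c' : u k < u (k + 1) := by
      have := hu k (k + 1) (by omega) (by omega)
      omega
    let u' : ℕ → ℤ := fun x =>
      if u (k + 1) < u x ∨ (u k ≤ u x ∧ x ≤ k) then u x + (u (k + 1) - u k + 1) else u x
    have hcl := clo_actL (k :: l)
    have hkk : actL (k :: l) k (k + 1) := by simp [actL, actS, depP]
    obtain ⟨n, h⟩ := key u' (fun i j hij hj => by
      have := hu i j hij hj
      simp only [u']; split_ifs <;> omega) (fun i j hij hj hlt => by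
      by_cases d : u j < u i
      · exact H i j hij hj d
      have := hu i j hij hj
      have e : i ≤ k ∧ k + 1 ≤ j ∧ u k ≤ u i ∧ u j ≤ u (k + 1) := by
        simp only [u'] at hlt; split_ifs at hlt <;> omega
      have e1 : actL (k :: l) i (k + 1) := by
        rcases e.1.lt_or_eq with f | rfl
        · have := hu i k f (by omega)
          exact hcl i k (k + 1) f (by omega) (H i k f (by omega) (by omega)) hkk
        · exact hkk
      rcases e.2.1.lt_or_eq with f | rfl
      · have := hu (k + 1) j f hj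
        exact hcl i (k + 1) j (by omega) f e1 (H (k + 1) j f hj (by omega))
      · exact e1) (by simp only [u']; split_ifs <;> omega)
    exact Dv.mono hs _ h fun i j hij hj hlt => by
      simp only [u']; split_ifs <;> omega

def vp : List ℕ → (ℕ → ℤ) → Bool
  | [], _ => true
  | k :: l, u => decide (k < 6) && decide (u (k + 1) < u k) && vp l (u ∘ sw k)

lemma Dv.peel (hs : IsBraid s) (l : List ℕ) : ∀ {n m : ℕ} {u : ℕ → ℤ} {β : G}, Dv s n u m β →
    vp l u = true → ∃ m' β', m = m' + l.length ∧ β = evp s l * β' ∧ Pos s m' β' := by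
  induction l with
  | nil => intro n m u β h _; exact ⟨m, β, rfl, by simp [evp], h.pos⟩
  | cons k l ih =>
    intro n m u β h H
    simp only [vp, Bool.and_eq_true, decide_eq_true_eq] at H
    obtain ⟨n1, m1, β1, rfl, rfl, rfl, h1⟩ := Dv.exch hs _ h H.1.1 H.1.2
    obtain ⟨m2, β2, rfl, rfl, h2⟩ := ih h1 H.2
    exact ⟨m2, β2, by simp [add_assoc], by rw [evp_cons, mul_assoc], h2⟩

theorem delta_dvd (hs : IsBraid s) (l : List ℕ) (hl : ∀ k ∈ l, k < 6)
    (H : ∀ i j, i < j → j < 7 → actL l i j) :
    ∃ m β, l.length = m + 21 ∧ evp s l = evp s dw * β ∧ Pos s m β := by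
  obtain ⟨n, h⟩ := dv_of_act hs l hl (fun i => -(i : ℤ)) (fun i j h _ => by simp; omega)
    fun i j a b _ => H i j a b
  exact Dv.peel hs dw h (by decide +kernel)

def ytab : List (List ℕ) :=
  [[0, 1, 0, 2, 1, 0, 3, 2, 1, 0, 4, 3, 2, 1, 0, 5, 4, 3, 2, 1, 0, 0, 1, 2, 3, 4, 5, 0, 1, 2, 3, 4, 0, 1, 2, 3, 0, 1, 2, 0, 1],
   [0, 1, 0, 2, 1, 0, 3, 2, 1, 0, 4, 3, 2, 1, 0, 5, 4, 3, 2, 1, 0, 0, 1, 2, 3, 4, 5, 0, 1, 2, 3, 4, 0, 1, 2, 3, 0, 1, 2, 1, 0],
   [0, 1, 0, 2, 1, 0, 3, 2, 1, 0, 4, 3, 2, 1, 0, 5, 4, 3, 2, 1, 0, 0, 1, 2, 3, 4, 5, 0, 1, 2, 3, 4, 0, 1, 2, 3, 1, 2, 0, 1, 0],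
   [0, 1, 0, 2, 1, 0, 3, 2, 1, 0, 4, 3, 2, 1, 0, 5, 4, 3, 2, 1, 0, 0, 1, 2, 3, 4, 5, 0, 1, 2, 3, 4, 1, 2, 3, 0, 1, 2, 0, 1, 0],
   [0, 1, 0, 2, 1, 0, 3, 2, 1, 0, 4, 3, 2, 1, 0, 5, 4, 3, 2, 1, 0, 0, 1, 2, 3, 4, 5, 1, 2, 3, 4, 0, 1, 2, 3, 0, 1, 2, 0, 1, 0],
   [0, 1, 0, 2, 1, 0, 3, 2, 1, 0, 4, 3, 2, 1, 0, 5, 4, 3, 2, 1, 0, 1, 2, 3, 4, 5, 0, 1, 2, 3, 4, 0, 1, 2, 3, 0, 1, 2, 0, 1, 0]]

lemma d2_facts : ∀ k, k < 6 → triv (d2 ++ (k, true) :: binv d2 ++ [(k, false)]) = true ∧
    triv (d2 ++ (k, false) :: binv (posw (ytab.getD k []))) = true ∧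
    ∀ j ∈ ytab.getD k [], j < 6 := by decide +kernel

lemma d2_comm (hs : IsBraid s) (k : ℕ) : Commute (ev s d2) (s k) := by
  by_cases hk : k < 6
  · have := triv_sound hs (d2_facts k hk).1
    simp only [ev_append, ev_cons, ev_binv, sl, ev_nil, if_true, Bool.false_eq_true, if_false,
      mul_one] at this
    rw [← mul_assoc, mul_inv_eq_one, mul_inv_eq_iff_eq_mul] at this
    exact this
  · simp [hs.big k (by omega)]

theorem exists_pos (hs : IsBraid s) (w : List BL) :
    ∃ (n m : ℕ), Pos s m (ev s d2 ^ n * ev s w) := by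
  induction w with
  | nil => exact ⟨0, 0, [], by simp, rfl, by simp [evp]⟩
  | cons x w ih =>
    obtain ⟨n, m, h⟩ := ih
    obtain ⟨k, e⟩ := x
    by_cases hk : k < 6
    · cases e
      · have := triv_sound hs (d2_facts k hk).2.1
        simp only [ev_append, ev_cons, ev_binv, sl, Bool.false_eq_true, if_false,
          ev_posw] at this
        rw [← mul_assoc, mul_inv_eq_one] at this
        obtain ⟨l, h1, h2, h3⟩ := h
        refine ⟨n + 1, _, ytab.getD k [] ++ l, fun j hj => ?_, rfl, ?_⟩
        · rcases List.mem_append.1 hj with hj | hj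
          · exact (d2_facts k hk).2.2 j hj
          · exact h1 j hj
        · rw [evp_append, h3, ← this, ev_cons, pow_succ', show sl s (k, false) = (s k)⁻¹ from rfl,
            mul_assoc, mul_assoc, ← mul_assoc (s k)⁻¹,
            ← ((d2_comm hs k).pow_left n).inv_right.eq, mul_assoc]
      · refine ⟨n, m + 1, ?_⟩
        rw [ev_cons, ← mul_assoc, show sl s (k, true) = s k from rfl, ((d2_comm hs k).pow_left n).eq,
          mul_assoc]
        exact h.cons hk
    · refine ⟨n, m, ?_⟩
      have : sl s (k, e) = 1 := by simp [sl, hs.big k (by omega)]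
      rwa [ev_cons, this, one_mul]

end Pool.Agent.MP_6bf536_al
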