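import Pool.Agent.MP_6bf536_al.Wre

/-!
Finite verification of relations in the wreath product.
-/

set_option autoImplicit false

namespace Pool.Agent.MP_6bf536_al

lemma c3 : ∀ x y, lidx x < lidx y →
    eqT ((eW x x0).mul (eW y x0)) ((eW y x0).mul (eW x x0)) = true := by decide +kernel
lemma c4 : eqT (fW (fun _ => true) x0) TW.one = true := by decide +kernel
lemma c5a : ∀ γ δ γ' δ' : Bool, (γ && γ') = false → (δ && δ') = false →
    eqT ((fW (bits false false true false γ' δ') x1).mul (fW (bits true false false false γ δ) x0))
      ((fW (bits true false false false (γ || (false && γ')) (δ || (false && δ'))) x0).mul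
        (fW (bits false false true false γ' δ') x1)) = true := by decide +kernel

end Pool.Agent.MP_6bf536_al
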