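import Pool.Agent.MP_6bf536_al.Wre

/-!
Finite verification of relations in the wreath product.
-/

set_option autoImplicit false

namespace Pool.Agent.MP_6bf536_al

lemma c5b : ∀ γ δ γ' δ' : Bool, (γ && γ') = false → (δ && δ') = false →
    eqT ((fW (bits false false true false γ' δ') x1).mul (fW (bits true false false true γ δ) x0))
      ((fW (bits true false false true (γ || (true && γ')) (δ || (true && δ'))) x0).mul
        (fW (bits false false true false γ' δ') x1)) = true := by decide +kernel

end Pool.Agent.MP_6bf536_al
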