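import Pool.Agent.MP_6bf536_al.Wre

/-!
Finite verification of relations in the wreath product.
-/

set_option autoImplicit false

namespace Pool.Agent.MP_6bf536_al

lemma c6 : ∀ γ δ : Bool,
    eqT ((fW (bits false true true false γ δ) x1).mul (fW (bits true false true false γ δ) x0))
      ((gT w5.1).mul (fW (bits true false true false γ δ) x1)) = true := by decide +kernel

end Pool.Agent.MP_6bf536_al
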