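import Mathlib.Algebra.AffineMonoid.Basic
import Mathlib.RingTheory.Flat.TorsionFree
import Mathlib.Data.Int.Star
import Mathlib.Algebra.Order.Ring.Star
import Mathlib.Analysis.InnerProductSpace.Basic
import Mathlib.Algebra.Ring.IsFormallyReal
import Mathlib.Analysis.CStarAlgebra.Classes
import Mathlib.LinearAlgebra.Matrix.GeneralLinearGroup.Basic
import Mathlib.NumberTheory.Transcendental.Liouville.LiouvilleNumber
import Mathlib.RingTheory.TotallySplit
import Pool.Agent.MP_6bf536_al.LK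

/-!
Faithfulness modulo the centre.
-/

set_option autoImplicit false

namespace Pool.Agent.MP_6bf536_al

open Matrix Polynomial

def pr (s : Fin 21) : ℕ × ℕ := prs.getD s (0, 0)

lemma pr_surj : ∀ j, j < 7 → ∀ i, i < j → ∃ s, pr s = (i, j) := by decide +kernel

lemma tab_pos : ∀ k, k < 6 → ∀ s : Fin 21, ∀ x ∈ (lk k).getD s [], x.2.2 = false → 0 < x.2.1 := by
  decide +kernel

lemma tab_dep : ∀ k, k < 6 → ∀ s : Fin 21, ∀ q ∈ depP k (pr s).1 (pr s).2,
    ∃ x ∈ (lk k).getD s [], x.2.2 = false ∧ pr x.1 = q := by decide +kernel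

lemma tab_row : ∀ k, k < 6 → ∃ s : Fin 21, ∀ x ∈ (lk k).getD s [], x.2.2 = true := by
  decide +kernel

def ML {R : Type*} [CommRing R] (t : R) (l : List ℕ) : Matrix (Fin 21) (Fin 21) R :=
  MW t (l.map lk)

lemma ML_cons {R : Type*} [CommRing R] (t : R) (k : ℕ) (l : List ℕ) :
    ML t (k :: l) = MT t (lk k) * ML t l := by simp [ML, MW]

lemma ML_append {R : Type*} [CommRing R] (t : R) (l m : List ℕ) :
    ML t (l ++ m) = ML t l * ML t m := by simp [ML, MW]

lemma ML_map {R S : Type*} [CommRing R] [CommRing S] (f : R →+* S) (t : R) (l : List ℕ) :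
    (ML t l).map f = ML (f t) l := MW_map f t _

lemma MT_P {R : Type*} [CommRing R] (t t' : R) : MT t tabP = MT t' tabP := by
  have h : ∀ s : Fin 21, ∀ x ∈ tabP.getD s [], x.2.2 = false := by decide +kernel
  ext s r
  unfold MT
  congr 1
  refine List.map_congr_left fun x hx => ?_
  simp [h s x hx, tw]

lemma ML_dw {R : Type*} [CommRing R] (t : R) : ML t dw = t • MT t tabP := by
  simpa [tw, MW, ML] using chkM_sound t chk_delta

lemma P_sq {R : Type*} [CommRing R] (t : R) : MT t tabP * MT t tabP = (2 ^ 40 : R) • 1 := by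
  have := chkM_sound t chk_P
  simp only [tw, MW, List.map_cons, List.map_nil, List.prod_cons, List.prod_nil, mul_one,
    Bool.false_eq_true, if_false] at this
  rw [this, Int.cast_pow, Int.cast_ofNat]

lemma zero_set (l : List ℕ) (hl : ∀ k ∈ l, k < 6) :
    (∀ s, 0 ≤ (ML (0 : ℤ) l *ᵥ 1) s) ∧
      ∀ s, (ML (0 : ℤ) l *ᵥ 1) s = 0 → actL l (pr s).1 (pr s).2 := by
  induction l with
  | nil => simp [ML, MW]
  | cons k l ih =>
    obtain ⟨h1, h2⟩ := ih fun j h => hl j (by simp [h])
    have hk : k < 6 := hl k (by simp)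
    rw [ML_cons, ← mulVec_mulVec]
    generalize ML (0 : ℤ) l *ᵥ 1 = v at h1 h2
    have h3 : ∀ s : Fin 21, ∀ y ∈ ((lk k).getD s []).map
        fun x => (x.2.1 : ℤ) * tw 0 x.2.2 * v x.1, 0 ≤ y := by
      intro s y hy
      obtain ⟨x, hx, rfl⟩ := List.mem_map.1 hy
      cases h : x.2.2
      · have := tab_pos k hk s x hx h
        have := h1 x.1
        simp only [tw, Bool.false_eq_true, if_false, mul_one]
        positivity
      · simp [tw]
    refine ⟨fun s => ?_, fun s hs q hq => ?_⟩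
    · rw [MT_mulVec]
      exact List.sum_nonneg (h3 s)
    · rw [MT_mulVec] at hs
      obtain ⟨x, hx, e, rfl⟩ := tab_dep k hk s q hq
      have h4 := List.all_zero_of_le_zero_le_of_sum_eq_zero (h3 s) hs
        (List.mem_map.2 ⟨x, hx, rfl⟩)
      have := tab_pos k hk s x hx e
      simp only [e, tw, Bool.false_eq_true, if_false, mul_one, mul_eq_zero] at h4
      exact h2 _ (h4.resolve_left (by omega))

variable {G : Type*} [Group G] {s : ℕ → G}

lemma dw_lt : ∀ k ∈ dw, k < 6 := by decide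

lemma pow_delta (hs : IsBraid s) (ν : G → Matrix (Fin 21) (Fin 21) ℂ) (τ : ℂ)
    (hτ : Transcendental ℤ τ) (hν : ∀ l, (∀ k ∈ l, k < 6) → ν (evp s l) = ML τ l) (m : ℕ) :
    ∀ (l : List ℕ) (c : ℤ) (μ : ℤ[X]) (j : ℕ), l.length = m → (∀ k ∈ l, k < 6) → c ≠ 0 →
      (c : ℤ[X]) • ML (X : ℤ[X]) l = μ • MT (X : ℤ[X]) tabP ^ j → ∃ n : ℕ, evp s l = evp s dw ^ n := by
  have hinj : Function.Injective (aeval τ : ℤ[X] →ₐ[ℤ] ℂ).toRingHom :=
    transcendental_iff_injective.1 hτ
  induction m using Nat.strong_induction_on with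
  | _ m ih =>
  intro l c μ j hm hl hc H
  have H0 : c • ML (0 : ℤ) l = μ.eval 0 • MT (0 : ℤ) tabP ^ j := by
    have a1 : (evalRingHom (0 : ℤ)).mapMatrix (ML X l) = ML 0 l := by
      rw [RingHom.mapMatrix_apply, ML_map]; simp
    have a2 : (evalRingHom (0 : ℤ)).mapMatrix (MT X tabP ^ j) = MT 0 tabP ^ j := by
      rw [map_pow, RingHom.mapMatrix_apply, MT_map]; simp
    rw [← a1, ← a2]
    ext a b
    have := congrArg (eval 0) (congrFun (congrFun H a) b)
    simpa only [Matrix.smul_apply, smul_eq_mul, eval_mul, eval_intCast, Int.cast_id,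
      RingHom.mapMatrix_apply, map_apply, coe_evalRingHom] using this
  by_cases h0 : μ.eval 0 = 0
  · rw [h0, zero_smul, smul_eq_zero] at H0
    have H1 := H0.resolve_left hc
    obtain ⟨m', β, e1, e2, y, hy, e3, rfl⟩ := delta_dvd hs l hl fun i j hij hj => by
      obtain ⟨r, hr⟩ := pr_surj j hj i hij
      have := (zero_set l hl).2 r (by simp [H1])
      rwa [hr] at this
    obtain ⟨μ', rfl⟩ : X ∣ μ := by rwa [X_dvd_iff, coeff_zero_eq_eval_zero]
    have hdw : ∀ k ∈ dw ++ y, k < 6 := fun k hk =>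
      (List.mem_append.1 hk).elim (dw_lt k) (hy k)
    have e4 : ML (X : ℤ[X]) l = ML X (dw ++ y) := by
      apply Matrix.map_injective hinj
      simp only [ML_map]
      have : (aeval τ : ℤ[X] →ₐ[ℤ] ℂ).toRingHom X = τ := by simp
      rw [this, ← hν l hl, ← hν _ hdw, e2, evp_append]
    rw [e4, ML_append, ML_dw, smul_mul_assoc, smul_comm, mul_smul] at H
    have H2 := smul_right_injective _ (X_ne_zero (R := ℤ)) H
    have H3 := congrArg (MT (X : ℤ[X]) tabP * ·) H2
    simp only [mul_smul_comm, ← mul_assoc, P_sq, ← pow_succ', smul_mul_assoc, one_mul,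
      smul_smul] at H3
    obtain ⟨n, hn⟩ := ih m' (by omega) y (c * 2 ^ 40) μ' (j + 1) e3 hy (mul_ne_zero hc (pow_ne_zero _ two_ne_zero))
      (by rw [Int.cast_mul, Int.cast_pow, Int.cast_ofNat]; exact H3)
    exact ⟨n + 1, by rw [e2, hn, pow_succ']⟩
  · cases l with
    | nil => exact ⟨0, by simp [evp]⟩
    | cons k l =>
      exfalso
      obtain ⟨r, hr⟩ := tab_row k (hl k (by simp))
      have H1 := congrArg (· * MT (0 : ℤ) tabP ^ j) H0
      have H2 : MT (0 : ℤ) tabP ^ j * MT (0 : ℤ) tabP ^ j = ((2 : ℤ) ^ 40) ^ j • 1 := by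
        rw [← (Commute.refl _).mul_pow, P_sq, _root_.smul_pow, one_pow]
      simp only [smul_mul_assoc, H2, ML_cons, mul_assoc] at H1
      have H3 := congrFun (congrArg (· *ᵥ 1) H1) r
      simp only [smul_mulVec, ← mulVec_mulVec, Pi.smul_apply, MT_mulVec] at H3
      rw [List.sum_eq_zero] at H3
      · simp [h0] at H3
      · intro y hy
        obtain ⟨x, hx, rfl⟩ := List.mem_map.1 hy
        simp [hr x hx, tw]

noncomputable def tau : ℂ := (liouvilleNumber (2 : ℕ) : ℝ)

lemma tau_tr : Transcendental ℤ tau := by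
  have h : Transcendental ℤ (liouvilleNumber (2 : ℕ)) := transcendental_liouvilleNumber le_rfl
  exact (transcendental_algebraMap_iff (R := ℤ) (S := ℝ) (A := ℂ)
    Complex.ofReal_injective).2 h

lemma tau_ne : tau ≠ 0 := fun h => tau_tr (h ▸ isAlgebraic_zero)

lemma det_ne (k : ℕ) (hk : k < 6) : (MT tau (lk k)).det ≠ 0 := by
  have h1 : (ML tau dw).det ≠ 0 := by
    have h2 := congrArg det (P_sq tau)
    rw [det_mul, det_smul, det_one] at h2
    rw [ML_dw, det_smul]
    refine mul_ne_zero (pow_ne_zero _ tau_ne) fun h => ?_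
    rw [h, mul_zero, mul_one] at h2
    exact pow_ne_zero _ (pow_ne_zero _ two_ne_zero) h2.symm
  have h3 : k ∈ dw := by revert k; decide
  obtain ⟨a, b, e⟩ := List.append_of_mem h3
  rw [e, ML_append, ML_cons, det_mul, det_mul] at h1
  exact left_ne_zero_of_mul (right_ne_zero_of_mul h1)

abbrev GL21 := GL (Fin 21) ℂ

noncomputable def sGL (k : ℕ) : GL21 :=
  if h : k < 6 then GeneralLinearGroup.mkOfDetNeZero _ (det_ne k h) else 1

lemma sGL_val {k : ℕ} (h : k < 6) : (sGL k : Matrix (Fin 21) (Fin 21) ℂ) = MT tau (lk k) := by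
  simp [sGL, h]

lemma isBraid_sGL : IsBraid sGL where
  comm i j h := by
    by_cases hj : j < 6
    · ext1
      have := chkM_sound tau (chk_comm j hj i (by omega) h)
      simpa [MW, tw, sGL_val hj, sGL_val (show i < 6 by omega)] using this
    · simp [sGL, hj]
  braid i h := by
    ext1
    have := chkM_sound tau (chk_braid i (by omega))
    simpa [MW, tw, sGL_val h, sGL_val (show i < 6 by omega), mul_assoc] using this
  big k h := by simp [sGL, Nat.not_lt.2 h]

section
variable (μ : G →* GL21) (hμ : ∀ k, μ (s k) = sGL k)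
include hμ

lemma mu_evp (l : List ℕ) (hl : ∀ k ∈ l, k < 6) :
    (μ (evp s l) : Matrix (Fin 21) (Fin 21) ℂ) = ML tau l := by
  induction l with
  | nil => simp [evp, ML, MW]
  | cons k l ih =>
    rw [evp_cons, map_mul, Units.val_mul, ih fun j h => hl j (by simp [h]), hμ,
      sGL_val (hl k (by simp)), ML_cons]

lemma d2_center : μ (ev s d2) ∈ Subgroup.center GL21 := by
  rw [GeneralLinearGroup.mem_center_iff_val_mem_range_scalar, d2, ev_append, ev_posw, map_mul,
    Units.val_mul, mu_evp μ hμ dw (by decide), ML_dw, smul_mul_smul_comm, P_sq, smul_smul]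
  exact ⟨_, by rw [scalar_apply, smul_one_eq_diagonal]⟩

lemma dw_not_center : μ (evp s dw) ∉ Subgroup.center GL21 := by
  rw [GeneralLinearGroup.mem_center_iff_val_mem_range_scalar, mu_evp μ hμ dw (by decide), ML_dw]
  rintro ⟨c, h⟩
  have := congrFun (congrFun h 0) 20
  rw [scalar_apply, diagonal_apply_ne _ (by decide)] at this
  simp [MT, tabP, tw, tau_ne] at this

theorem faithful (hs : IsBraid s) (w : List BL) (h : μ (ev s w) ∈ Subgroup.center GL21) :
    ∃ k : ℤ, ev s w = ev s d2 ^ k := by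
  obtain ⟨n, m, l, hl, -, e⟩ := exists_pos hs w
  have hD := d2_center μ hμ
  have h1 : μ (evp s l) ∈ Subgroup.center GL21 := by
    rw [e, map_mul, map_pow]
    exact mul_mem (pow_mem hD n) h
  have hinj : Function.Injective (aeval tau : ℤ[X] →ₐ[ℤ] ℂ).toRingHom :=
    transcendental_iff_injective.1 tau_tr
  obtain ⟨c, hc⟩ := GeneralLinearGroup.mem_center_iff_val_mem_range_scalar.1 h1
  rw [mu_evp μ hμ l hl] at hc
  have hX : (aeval tau : ℤ[X] →ₐ[ℤ] ℂ).toRingHom X = tau := by simp
  obtain ⟨j, hj⟩ := pow_delta hs (fun g => μ g) tau tau_tr (mu_evp μ hμ) _ l 1 (ML X l 0 0) 0 rfl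
    hl one_ne_zero (by
      have h2 := ML_map (aeval tau : ℤ[X] →ₐ[ℤ] ℂ).toRingHom X l
      rw [hX, ← hc] at h2
      ext1 a b
      apply hinj
      have h3 := congrFun (congrFun h2 a) b
      have h4 := congrFun (congrFun h2 0) 0
      rw [map_apply] at h3 h4
      simp only [Int.cast_one, pow_zero, Matrix.smul_apply, smul_eq_mul, map_mul, h3, h4]
      by_cases hab : a = b <;> simp [hab, one_apply])
  have hd : ev s d2 = evp s dw ^ 2 := by rw [d2, ev_append, ev_posw, sq]
  rcases Nat.even_or_odd' j with ⟨i, rfl | rfl⟩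
  · refine ⟨i - n, ?_⟩
    rw [pow_mul, ← hd, e] at hj
    rw [eq_inv_mul_of_mul_eq hj]; group
  · exfalso
    apply dw_not_center μ hμ
    rw [hj, pow_succ, pow_mul, ← hd, map_mul, map_pow] at h1
    exact (mul_mem_cancel_left (pow_mem hD i)).1 h1

end

end Pool.Agent.MP_6bf536_al
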