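import Mathlib.Tactic.FinCases
import Mathlib.Algebra.Order.BigOperators.Group.Finset
import Mathlib.Data.ZMod.Defs
import Pool.Agent.MP_6bf536_al.Basic

/-!
Total length of an automorphism, signed permutations.
-/

set_option autoImplicit false

namespace Pool.Agent.MP_6bf536_al

open FreeGroup hiding map_mul map_inv map_one

def len (φ : AF) : ℕ := ∑ i, (φ (of i)).norm
def gsum (φ : AF) (h : Vx → Vx → ℕ) : ℕ := ∑ i, gs h none (φ (of i)).toWord
def cap (φ : AF) (A : Vx → Bool) : ℕ := gsum φ (sep A)
def deg (φ : AF) (j : Fin 3) : ℕ := ∑ i, cnt j (φ (of i)).toWord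

lemma len_aut {A : Vx → Bool} {a : Lt} (h : Proper A a) (φ : AF) :
    len (aut A a * φ) + deg φ a.1 = len φ + cap φ A := by
  simp only [len, deg, cap, gsum, ← Finset.sum_add_distrib]
  exact Finset.sum_congr rfl fun i _ => norm_whm h _

lemma cap_compl (φ : AF) (A : Vx → Bool) : cap φ (fun v => !A v) = cap φ A := by
  have : sep (fun v => !A v) = sep A := by
    funext y z; cases h1 : A y <;> cases h2 : A z <;> simp [sep, h1, h2]
  simp [cap, this]

lemma cap_quad (φ : AF) (A B : Vx → Bool) :
    cap φ (fun v => A v && B v) + cap φ (fun v => !A v && !B v) ≤ cap φ A + cap φ B := by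
  simp only [cap, gsum, ← Finset.sum_add_distrib]
  refine Finset.sum_le_sum fun i _ => gs_le2 (fun y z => ?_) _ _
  cases h1 : A y <;> cases h2 : A z <;> cases h3 : B y <;> cases h4 : B z <;>
    simp [sep, h1, h2, h3, h4]

lemma sum_kill (a b : Fin 3) (hab : a ≠ b) (l : List Lt) :
    (l.map fun x => (if x.1 = a ∨ x.1 = b then (1 : F) else lt x).norm).sum + cnt a l + cnt b l =
      l.length := by
  induction l with
  | nil => simp [cnt]
  | cons z l ih =>
    simp only [cnt, List.map_cons, List.sum_cons, List.countP_cons, List.length_cons] at *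
    by_cases h1 : z.1 = a
    · have h2 : z.1 ≠ b := h1 ▸ hab
      simp [h1, hab]; omega
    · by_cases h2 : z.1 = b
      · simp [h2, hab.symm]; omega
      · simp [h1, h2, norm_lt]; omega

lemma len_two {A B : Vx → Bool} {a b : Lt} (hA : Proper A a) (hB : Proper B b)
    (hd : ∀ v, A v = true → B v = false) (h1 : B (some (linv a)) = false) (hab : a.1 ≠ b.1)
    (φ : AF) :
    len (aut B b * aut A a * φ) + deg φ a.1 + deg φ b.1 ≤ len φ + cap φ A + cap φ B := by
  simp only [len, deg, cap, gsum, ← Finset.sum_add_distrib]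
  refine Finset.sum_le_sum fun i _ => ?_
  have h0 : B (some a) = false := hd _ hA.1
  have ha : ∀ s, whm B b (pw s a) = pw (B none) b * pw s a * (pw (B none) b)⁻¹ := by
    intro s
    cases s
    · simp
    · simp [whm_lt_ne B b a hab, h0, h1]
  have H := norm_gap_le ((whm B b).comp (whm A a)) (fun v => pw (B v) b * pw (A v) a)
    (fun x => if x.1 = a.1 ∨ x.1 = b.1 then 1 else lt x) (fun x => by
      rw [MonoidHom.comp_apply, whm_gap hA]
      simp only [map_mul, map_inv, ha]
      by_cases hx : x.1 = a.1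
      · have e1 : B (some x) = false := by
          rcases eq_or_eq_linv hx with rfl | rfl <;> assumption
        have e2 : B (some (linv x)) = false := by
          rcases eq_or_eq_linv hx with rfl | rfl
          · assumption
          · simpa using h0
        simp only [hx, if_true, true_or, map_one, e1, e2, pw_false]
        group
      · simp only [hx, if_false, false_or, whm_gap hB x]
        group) none (φ (of i)).toWord
  have H2 := gs_le (h := fun y z => (pw (B y) b * pw (A y) a * (pw (B z) b * pw (A z) a)⁻¹).norm)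
    (h1 := sep A) (h2 := sep B) (fun y z => by
      have := hd y
      have := hd z
      have n1 := norm_mul_le (lt a) (lt b)⁻¹
      have n2 := norm_mul_le (lt b) (lt a)⁻¹
      unfold sep
      cases hAy : A y <;> cases hAz : A z <;> cases hBy : B y <;> cases hBz : B z <;>
        simp_all [norm_lt]) none (φ (of i)).toWord
  have H3 := sum_kill a.1 b.1 hab (φ (of i)).toWord
  rw [mul_inv_cancel, one_mul, mk_toWord] at H
  have e : (aut B b * aut A a * φ) (of i) = ((whm B b).comp (whm A a)) (φ (of i)) := rfl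
  have e' : (φ (of i)).norm = (φ (of i)).toWord.length := rfl
  rw [e]
  omega

/-! Signed permutations -/

structure SP where
  p : Lt
  q : Lt
  r : Lt
deriving DecidableEq

def SP.get (v : SP) (i : Fin 3) : Lt := if i = 0 then v.p else if i = 1 then v.q else v.r
def SP.act (v : SP) (x : Lt) : Lt := if x.2 then v.get x.1 else linv (v.get x.1)
def SP.comp (v w : SP) : SP := ⟨v.act w.p, v.act w.q, v.act w.r⟩
def SP.one : SP := ⟨(0, true), (1, true), (2, true)⟩
def SP.pre (v : SP) (j : Fin 3) : Lt :=
  if v.p.1 = j then (0, v.p.2) else if v.q.1 = j then (1, v.q.2) else (2, v.r.2)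
def SP.inv (v : SP) : SP := ⟨v.pre 0, v.pre 1, v.pre 2⟩
def SP.Valid (v : SP) : Prop := v.p.1 ≠ v.q.1 ∧ v.p.1 ≠ v.r.1 ∧ v.q.1 ≠ v.r.1

instance (v : SP) : Decidable v.Valid := by unfold SP.Valid; infer_instance

lemma SP.act_linv (v : SP) (x : Lt) : v.act (linv x) = linv (v.act x) := by
  obtain ⟨i, s⟩ := x
  cases s <;> simp [SP.act, linv]

lemma SP.act_comp (v w : SP) (x : Lt) : (v.comp w).act x = v.act (w.act x) := by
  obtain ⟨i, s⟩ := x
  fin_cases i <;> cases s <;> simp [SP.comp] <;> simp [SP.act, SP.get, linv] <;>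
    split_ifs <;> simp_all

lemma SP.act_fst_inj : ∀ (p q r x y : Lt), (SP.mk p q r).Valid → x.1 ≠ y.1 →
    ((SP.mk p q r).act x).1 ≠ ((SP.mk p q r).act y).1 := by decide +kernel

lemma SP.inv_spec : ∀ (p q r : Lt), (SP.mk p q r).Valid → (SP.mk p q r).inv.Valid ∧
    (SP.mk p q r).inv.comp (SP.mk p q r) = SP.one := by decide +kernel

lemma SP.comp_one : ∀ (p q r : Lt), (SP.mk p q r).comp SP.one = SP.mk p q r ∧
    SP.one.comp (SP.mk p q r) = SP.mk p q r := by decide +kernel

def W := {v : SP // v.Valid}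

instance : DecidableEq W := by unfold W; infer_instance

instance : Group W where
  mul v w := ⟨v.1.comp w.1, SP.act_fst_inj _ _ _ _ _ v.2 w.2.1, SP.act_fst_inj _ _ _ _ _ v.2 w.2.2.1,
    SP.act_fst_inj _ _ _ _ _ v.2 w.2.2.2⟩
  one := ⟨SP.one, by decide⟩
  inv v := ⟨v.1.inv, (SP.inv_spec _ _ _ v.2).1⟩
  mul_assoc u v w := Subtype.ext (by
    show (u.1.comp v.1).comp w.1 = u.1.comp (v.1.comp w.1)
    simp only [SP.comp, ← SP.act_comp])
  one_mul v := Subtype.ext (SP.comp_one _ _ _).2
  mul_one v := Subtype.ext (SP.comp_one _ _ _).1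
  inv_mul_cancel v := Subtype.ext (SP.inv_spec _ _ _ v.2).2

lemma W.mul_val (v w : W) : (v * w).1 = v.1.comp w.1 := rfl
lemma W.one_val : (1 : W).1 = SP.one := rfl
lemma W.inv_val (v : W) : (v⁻¹).1 = v.1.inv := rfl

instance : MulAction W Lt where
  smul v x := v.1.act x
  one_smul := by
    show ∀ x, SP.one.act x = x
    decide
  mul_smul v w x := SP.act_comp _ _ _

lemma W.smul_def (v : W) (x : Lt) : v • x = v.1.act x := rfl
lemma W.smul_linv (v : W) (x : Lt) : v • linv x = linv (v • x) := SP.act_linv _ _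
lemma W.smul_fst_iff (v : W) (x y : Lt) : (v • x).1 = (v • y).1 ↔ x.1 = y.1 := by
  constructor
  · intro h
    by_contra h'
    exact SP.act_fst_inj _ _ _ x y v.2 h' h
  · intro h
    rcases eq_or_eq_linv h with rfl | rfl
    · rfl
    · rw [W.smul_linv]; rfl

def wh (v : W) : F →* F := FreeGroup.lift fun i => lt (v • ((i, true) : Lt))

lemma wh_lt (v : W) (x : Lt) : wh v (lt x) = lt (v • x) := by
  obtain ⟨i, s⟩ := x
  cases s
  · rw [lt_false, map_inv, wh, lift_apply_of, ← lt_linv, ← W.smul_linv]; rfl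
  · rw [lt_true, wh, lift_apply_of]

lemma wh_comp (v w : W) : (wh v).comp (wh w) = wh (v * w) :=
  hom_ext_lt fun x => by simp [wh_lt, mul_smul]

lemma wh_one : wh 1 = MonoidHom.id F := hom_ext_lt fun x => by simp [wh_lt]

/-- Signed permutations as automorphisms. -/
def wa : W →* AF where
  toFun v := MonoidHom.toMulEquiv (wh v) (wh v⁻¹) (by rw [wh_comp, inv_mul_cancel, wh_one])
    (by rw [wh_comp, mul_inv_cancel, wh_one])
  map_one' := aut_ext fun x => wh_lt 1 x |>.trans (by simp)
  map_mul' v w := aut_ext fun x => (DFunLike.congr_fun (wh_comp v w) (lt x)).symm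

lemma wa_lt (v : W) (x : Lt) : wa v (lt x) = lt (v • x) := wh_lt v x

lemma wa_mk (v : W) (l : List Lt) : wa v (FreeGroup.mk l) = FreeGroup.mk (l.map (v • ·)) := by
  induction l with
  | nil => simp [mk_nil]
  | cons x l ih => rw [mk_cons, map_mul, ih, wa_lt, List.map_cons, mk_cons]

lemma norm_wa_le (v : W) (g : F) : (wa v g).norm ≤ g.norm := by
  conv_lhs => rw [← mk_toWord (x := g), wa_mk]
  exact norm_mk_le.trans (by simp [FreeGroup.norm])

lemma norm_wa (v : W) (g : F) : (wa v g).norm = g.norm := by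
  refine le_antisymm (norm_wa_le v g) ?_
  have := norm_wa_le v⁻¹ (wa v g)
  rwa [← MulAut.mul_apply, ← map_mul, inv_mul_cancel, map_one, MulAut.one_apply] at this

lemma len_wa_mul (v : W) (φ : AF) : len (wa v * φ) = len φ := by
  simp [len, norm_wa]

lemma len_mul_wa (v : W) (φ : AF) : len (φ * wa v) = len φ := by
  have h1 : ∀ x : Lt, (φ (lt x)).norm = (φ (of x.1)).norm := by
    rintro ⟨i, s⟩
    cases s
    · rw [lt_false, map_inv, norm_inv_eq]
    · rfl
  have h2 : Function.Bijective fun i : Fin 3 => (v • ((i, true) : Lt)).1 := by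
    refine Finite.injective_iff_bijective.1 fun i j h => ?_
    exact (W.smul_fst_iff v _ _).1 h
  rw [len, len, ← h2.sum_comp fun j => (φ (of j)).norm]
  refine Finset.sum_congr rfl fun i _ => ?_
  rw [MulAut.mul_apply, ← lt_true, wa_lt, h1]

lemma wa_injective : Function.Injective wa := by
  intro v w h
  have h1 : ∀ x : Lt, v • x = w • x := by
    intro x
    have := congrArg toWord (DFunLike.congr_fun h (lt x))
    rw [wa_lt, wa_lt] at this
    simpa [lt, toWord_mk] using this
  apply Subtype.ext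
  have a := h1 (0, true)
  have b := h1 (1, true)
  have c := h1 (2, true)
  obtain ⟨⟨p, q, r⟩, _⟩ := v
  obtain ⟨⟨p', q', r'⟩, _⟩ := w
  simp only [W.smul_def, SP.act, SP.get] at a b c
  simp_all

/-- Pull back of a vertex set along a signed permutation. -/
def pull (A : Vx → Bool) (v : W) : Vx → Bool := fun y => A (y.map (v • ·))

@[simp] lemma pull_none (A : Vx → Bool) (v : W) : pull A v none = A none := rfl
@[simp] lemma pull_some (A : Vx → Bool) (v : W) (x : Lt) : pull A v (some x) = A (some (v • x)) := rfl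

lemma wa_pw (v : W) (s : Bool) (a : Lt) : wa v (pw s a) = pw s (v • a) := by
  cases s <;> simp [wa_lt]

lemma wa_mul_aut (v : W) (A : Vx → Bool) (a : Lt) :
    wa v * aut (pull A v) a = aut A (v • a) * wa v := by
  refine aut_ext fun x => ?_
  simp only [MulAut.mul_apply, aut_apply, wa_lt]
  by_cases hx : x.1 = a.1
  · rw [whm_lt_eq _ _ _ hx, whm_lt_eq _ _ _ ((W.smul_fst_iff v _ _).2 hx), wa_lt]
  · rw [whm_lt_ne _ _ _ hx, whm_lt_ne _ _ _ (mt (W.smul_fst_iff v _ _).1 hx)]
    simp [wa_pw, wa_lt, W.smul_linv]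

end Pool.Agent.MP_6bf536_al
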