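import Mathlib.Data.Nat.SuccPred
import Mathlib.Algebra.BigOperators.Fin
import Pool.Agent.MP_6bf536_al.Len

/-!
Stallings folding: an automorphism is a signed permutation or is shortened by a Whitehead move.
-/

set_option autoImplicit false

namespace Pool.Agent.MP_6bf536_al

open FreeGroup hiding map_mul map_inv map_one

abbrev Eg := ℕ × Fin 3 × ℕ

def edge (s : ℕ) (y : Lt) (t : ℕ) : Eg := if y.2 then (s, y.1, t) else (t, y.1, s)

lemma edge_linv (s : ℕ) (y : Lt) (t : ℕ) : edge t (linv y) s = edge s y t := by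
  obtain ⟨i, b⟩ := y
  cases b <;> simp [edge, linv]

lemma edge_lab (s : ℕ) (y : Lt) (t : ℕ) : (edge s y t).2.1 = y.1 := by
  unfold edge; split_ifs <;> rfl

lemma edge_inj {s s' t t' : ℕ} {y : Lt} (h : edge s y t = edge s' y t') : s = s' ∧ t = t' := by
  unfold edge at h; split_ifs at h <;> simp_all

inductive Path (S : Finset Eg) : ℕ → List Lt → ℕ → Prop
  | nil (s : ℕ) : Path S s [] s
  | cons {s u t : ℕ} {y : Lt} {l : List Lt} : edge s y u ∈ S → Path S u l t → Path S s (y :: l) t

lemma Path.append {S : Finset Eg} {s u t : ℕ} {l m : List Lt} (h1 : Path S s l u)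
    (h2 : Path S u m t) : Path S s (l ++ m) t := by
  induction h1 with
  | nil => exact h2
  | cons h _ ih => exact .cons h (ih h2)

lemma Path.split {S : Finset Eg} {l m : List Lt} {s t : ℕ} (h : Path S s (l ++ m) t) :
    ∃ u, Path S s l u ∧ Path S u m t := by
  induction l generalizing s with
  | nil => exact ⟨s, .nil s, h⟩
  | cons y l ih =>
    cases h with
    | cons h1 h2 =>
      obtain ⟨u, a, b⟩ := ih h2
      exact ⟨u, .cons h1 a, b⟩

lemma Path.rev {S : Finset Eg} {s t : ℕ} {l : List Lt} (h : Path S s l t) :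
    Path S t (invRev l) s := by
  induction h with
  | nil => exact .nil _
  | @cons s u t y l h _ ih =>
    rw [invRev_cons]
    refine ih.append (.cons (y := linv y) ?_ (.nil _))
    rwa [edge_linv]

lemma Path.mem {S : Finset Eg} {s t : ℕ} {l : List Lt} (h : Path S s l t) {x : Lt} (hx : x ∈ l) :
    ∃ e ∈ S, e.2.1 = x.1 := by
  induction h with
  | nil => simp at hx
  | cons h _ ih =>
    rcases List.mem_cons.1 hx with rfl | hx
    · exact ⟨_, h, edge_lab _ _ _⟩
    · exact ih hx

def Det (S : Finset Eg) : Prop := ∀ s y t t', edge s y t ∈ S → edge s y t' ∈ S → t = t'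

lemma Path.det {S : Finset Eg} (hS : Det S) {s t t' : ℕ} {l : List Lt} (h : Path S s l t)
    (h' : Path S s l t') : t = t' := by
  induction h with
  | nil => cases h'; rfl
  | cons h1 _ ih =>
    cases h' with
    | cons h2 h3 =>
      obtain rfl := hS _ _ _ _ h1 h2
      exact ih h3

lemma Path.red {S : Finset Eg} (hS : Det S) {s t : ℕ} {l m : List Lt} (hr : Red l m)
    (h : Path S s l t) : Path S s m t := by
  induction hr with
  | refl => exact h
  | tail _ st ih =>
    cases st with
    | @not L1 L2 x b =>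
      obtain ⟨u, h1, h2⟩ := ih.split
      cases h2 with
      | cons e1 h3 =>
        cases h3 with
        | cons e2 h4 =>
          rw [← edge_linv] at e1
          obtain rfl := hS _ _ _ _ e1 e2
          exact h1.append h4

lemma loop_all {S : Finset Eg} (φ : AF) (h : ∀ i, Path S 0 (φ (of i)).toWord 0) (g : F) :
    ∃ l, FreeGroup.mk l = g ∧ Path S 0 l 0 := by
  rw [← φ.apply_symm_apply g]
  induction φ.symm g using FreeGroup.induction_on with
  | C1 => exact ⟨[], by simp [mk_nil], .nil 0⟩
  | of i => exact ⟨_, mk_toWord, h i⟩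
  | inv_of i ih =>
    obtain ⟨l, h1, h2⟩ := ih
    exact ⟨invRev l, by rw [← inv_mk, h1, map_inv], h2.rev⟩
  | mul x y ihx ihy =>
    obtain ⟨l, h1, h2⟩ := ihx
    obtain ⟨m, h3, h4⟩ := ihy
    exact ⟨l ++ m, by rw [← mul_mk, h1, h3, map_mul], h2.append h4⟩

def edges : ℕ → List (Lt × ℕ) → List Eg
  | _, [] => []
  | s, p :: m => edge s p.1 p.2 :: edges p.2 m

def endv : ℕ → List (Lt × ℕ) → ℕ
  | s, [] => s
  | _, p :: m => endv p.2 m

lemma path_edges {S : Finset Eg} (s : ℕ) (m : List (Lt × ℕ)) (h : ∀ e ∈ edges s m, e ∈ S) :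
    Path S s (m.map Prod.fst) (endv s m) ∧ ∀ p ∈ m, ∃ l, Path S s l p.2 := by
  induction m generalizing s with
  | nil => exact ⟨.nil s, by simp⟩
  | cons p m ih =>
    have h1 : edge s p.1 p.2 ∈ S := h _ (by simp [edges])
    obtain ⟨a, b⟩ := ih p.2 fun e he => h e (by simp [edges, he])
    refine ⟨.cons h1 a, fun p' hp' => ?_⟩
    rcases List.mem_cons.1 hp' with rfl | hp'
    · exact ⟨_, .cons h1 (.nil _)⟩
    · obtain ⟨l, hl⟩ := b p' hp'
      exact ⟨_, .cons h1 hl⟩

lemma ends_mem (V : Finset ℕ) (s : ℕ) (m : List (Lt × ℕ)) (hs : s ∈ V) (hm : ∀ p ∈ m, p.2 ∈ V) :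
    ∀ e ∈ edges s m, e.1 ∈ V ∧ e.2.2 ∈ V := by
  induction m generalizing s with
  | nil => simp [edges]
  | cons p m ih =>
    intro e he
    have hp := hm p (by simp)
    rcases List.mem_cons.1 he with rfl | he
    · unfold edge; split_ifs <;> simp [hs, hp]
    · exact ih p.2 hp (fun p' h => hm p' (by simp [h])) e he

def emap (μ : ℕ → ℕ) (e : Eg) : Eg := (μ e.1, e.2.1, μ e.2.2)

lemma emap_edge (μ : ℕ → ℕ) (s : ℕ) (y : Lt) (t : ℕ) :
    emap μ (edge s y t) = edge (μ s) y (μ t) := by
  unfold edge; split_ifs <;> rfl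

lemma edges_map (μ : ℕ → ℕ) (s : ℕ) (m : List (Lt × ℕ)) :
    edges (μ s) (m.map fun p => (p.1, μ p.2)) = (edges s m).map (emap μ) ∧
      endv (μ s) (m.map fun p => (p.1, μ p.2)) = μ (endv s m) := by
  induction m generalizing s with
  | nil => simp [edges, endv]
  | cons p m ih => simp [edges, endv, ih p.2, emap_edge]

lemma length_edges (s : ℕ) (m : List (Lt × ℕ)) : (edges s m).length = m.length := by
  induction m generalizing s with
  | nil => rfl
  | cons p m ih => simp [edges, ih]

lemma tele (ψ : F →* F) (h : ℕ → F) (w : Eg → ℕ) (s : ℕ) (m : List (Lt × ℕ))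
    (H : ∀ u x u', edge u x u' ∈ edges s m →
      ((h u)⁻¹ * ψ (lt x) * h u').norm ≤ w (edge u x u')) :
    ((h s)⁻¹ * ψ (FreeGroup.mk (m.map Prod.fst)) * h (endv s m)).norm ≤
      ((edges s m).map w).sum := by
  induction m generalizing s with
  | nil => simp [edges, endv, mk_nil]
  | cons p m ih =>
    have h1 := H s p.1 p.2 (by simp [edges])
    have h2 := ih p.2 fun u x u' he => H u x u' (by simp [edges, he])
    have e : (h s)⁻¹ * ψ (FreeGroup.mk ((p :: m).map Prod.fst)) * h (endv s (p :: m)) =
        ((h s)⁻¹ * ψ (lt p.1) * h p.2) *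
          ((h p.2)⁻¹ * ψ (FreeGroup.mk (m.map Prod.fst)) * h (endv p.2 m)) := by
      rw [List.map_cons, mk_cons, map_mul, endv]; group
    rw [e]
    refine (FreeGroup.norm_mul_le _ _).trans ?_
    simp only [edges, List.map_cons, List.sum_cons]
    omega

def eset (M : Fin 3 → List (Lt × ℕ)) : Finset Eg :=
  Finset.univ.biUnion fun i => (edges 0 (M i)).toFinset

def vset (M : Fin 3 → List (Lt × ℕ)) : Finset ℕ :=
  insert 0 (Finset.univ.biUnion fun i => ((M i).map Prod.snd).toFinset)

structure Stage (φ : AF) (M : Fin 3 → List (Lt × ℕ)) : Prop where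
  word : ∀ i, (M i).map Prod.fst = (φ (of i)).toWord
  closed : ∀ i, endv 0 (M i) = 0
  euler : (eset M).card ≤ (vset M).card + 2

lemma mem_eset {M : Fin 3 → List (Lt × ℕ)} {e : Eg} : e ∈ eset M ↔ ∃ i, e ∈ edges 0 (M i) := by
  simp [eset]

lemma mem_vset {M : Fin 3 → List (Lt × ℕ)} {v : ℕ} :
    v ∈ vset M ↔ v = 0 ∨ ∃ i, ∃ p ∈ M i, p.2 = v := by
  simp only [vset, Finset.mem_insert, Finset.mem_biUnion, Finset.mem_univ, true_and,
    List.mem_toFinset, List.mem_map]

lemma eset_ends {M : Fin 3 → List (Lt × ℕ)} {s t : ℕ} {y : Lt} (h : edge s y t ∈ eset M) :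
    s ∈ vset M ∧ t ∈ vset M := by
  obtain ⟨i, hi⟩ := mem_eset.1 h
  have := ends_mem (vset M) 0 (M i) (mem_vset.2 (.inl rfl))
    (fun p hp => mem_vset.2 (.inr ⟨i, p, hp, rfl⟩)) _ hi
  unfold edge at this
  split_ifs at this
  · exact this
  · exact this.symm

lemma Stage.loop {φ : AF} {M : Fin 3 → List (Lt × ℕ)} (h : Stage φ M) (g : F) :
    ∃ l, FreeGroup.mk l = g ∧ Path (eset M) 0 l 0 := by
  refine loop_all φ (fun i => ?_) g
  have := (path_edges (S := eset M) 0 (M i) fun e he => mem_eset.2 ⟨i, he⟩).1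
  rwa [h.word, h.closed] at this

lemma Stage.fold {φ : AF} {M : Fin 3 → List (Lt × ℕ)} (h : Stage φ M) (h2 : 2 ≤ (vset M).card) :
    ¬ Det (eset M) := by
  intro hd
  have : vset M ⊆ {0} := by
    intro v hv
    rcases mem_vset.1 hv with rfl | ⟨i, p, hp, rfl⟩
    · simp
    · obtain ⟨l, hl⟩ := (path_edges (S := eset M) 0 (M i) fun e he => mem_eset.2 ⟨i, he⟩).2 p hp
      obtain ⟨l', e, hl'⟩ := h.loop (FreeGroup.mk l)
      have a := hl.red hd reduce.red
      have b := hl'.red hd reduce.red
      rw [reduce.sound e] at b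
      simpa using a.det hd b
  have := Finset.card_le_card this
  simp at this
  omega

lemma Stage.label {φ : AF} {M : Fin 3 → List (Lt × ℕ)} (h : Stage φ M) (j : Fin 3) :
    ∃ e ∈ eset M, e.2.1 = j := by
  obtain ⟨l, e, hl⟩ := h.loop (of j)
  have h1 : reduce l = [(j, true)] := by rw [← toWord_mk, e, toWord_of]
  have h2 : (j, true) ∈ l := (reduce.red (L := l)).sublist.subset (by simp [h1])
  exact hl.mem h2

lemma Stage.merge {φ : AF} {M : Fin 3 → List (Lt × ℕ)} (h : Stage φ M) {s t t' : ℕ} {y : Lt}
    (h1 : edge s y t ∈ eset M) (h2 : edge s y t' ∈ eset M) (hne : t ≠ t') (h0 : t' ≠ 0) :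
    ∃ M', Stage φ M' ∧ (vset M').card + 1 = (vset M).card := by
  let μ : ℕ → ℕ := fun x => if x = t' then t else x
  have hμ : μ 0 = 0 := by simp [μ, h0.symm]
  let M' : Fin 3 → List (Lt × ℕ) := fun i => (M i).map fun p => (p.1, μ p.2)
  have hE : eset M' = (eset M).image (emap μ) := by
    ext e
    simp only [mem_eset, Finset.mem_image]
    constructor
    · rintro ⟨i, hi⟩
      rw [← hμ, (edges_map μ 0 (M i)).1] at hi
      obtain ⟨e', a, b⟩ := List.mem_map.1 hi
      exact ⟨e', ⟨i, a⟩, b⟩
    · rintro ⟨e', ⟨i, a⟩, b⟩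
      refine ⟨i, ?_⟩
      rw [← hμ, (edges_map μ 0 (M i)).1]
      exact List.mem_map.2 ⟨e', a, b⟩
  have ht := (eset_ends h1).2
  have ht' := (eset_ends h2).2
  have hV : vset M' = (vset M).erase t' := by
    ext v
    rw [Finset.mem_erase]
    constructor
    · intro hv
      rcases mem_vset.1 hv with rfl | ⟨i, p, hp, rfl⟩
      · exact ⟨h0.symm, mem_vset.2 (.inl rfl)⟩
      · obtain ⟨p', hp', rfl⟩ := List.mem_map.1 hp
        simp only [μ]
        split_ifs with c
        · exact ⟨hne, ht⟩
        · exact ⟨c, mem_vset.2 (.inr ⟨i, p', hp', rfl⟩)⟩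
    · rintro ⟨c, hv⟩
      rcases mem_vset.1 hv with rfl | ⟨i, p, hp, rfl⟩
      · exact mem_vset.2 (.inl rfl)
      · exact mem_vset.2 (.inr ⟨i, _, List.mem_map.2 ⟨p, hp, rfl⟩, by simp [μ, c]⟩)
  have hc : (vset M').card + 1 = (vset M).card := by
    rw [hV]; exact Finset.card_erase_add_one ht'
  refine ⟨M', ⟨fun i => ?_, fun i => ?_, ?_⟩, hc⟩
  · rw [← h.word]; simp [M']
  · have := (edges_map μ 0 (M i)).2
    rwa [h.closed, hμ] at this
  · have a : ((eset M).image (emap μ)).card ≤ (eset M).card := Finset.card_image_le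
    have b : ((eset M).image (emap μ)).card ≠ (eset M).card := by
      intro e
      have := Finset.card_image_iff.1 e h1 h2 (by simp [emap_edge, μ, hne])
      exact hne (edge_inj this).2
    have := h.euler
    rw [hE]; omega

lemma sum_lt_len (w : Eg → ℕ) (hw : ∀ e, w e ≤ 1) (l : List Eg) :
    (l.map w).sum ≤ l.length ∧ ∀ e ∈ l, w e = 0 → (l.map w).sum < l.length := by
  induction l with
  | nil => simp
  | cons x l ih =>
    have := hw x
    simp only [List.map_cons, List.sum_cons, List.length_cons]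
    refine ⟨by omega, fun e he h0 => ?_⟩
    rcases List.mem_cons.1 he with rfl | he
    · omega
    · have := ih.2 e he h0
      omega

lemma others : ∀ j : Fin 3, ∃ b c : Fin 3, b ≠ j ∧ c ≠ j ∧ b ≠ c := by decide

lemma Stage.two {φ : AF} {M : Fin 3 → List (Lt × ℕ)} (h : Stage φ M) {s t : ℕ} {y : Lt}
    (h1 : edge s y s ∈ eset M) (h2 : edge s y t ∈ eset M) (hne : s ≠ t)
    (hc : (vset M).card = 2) : ∃ A a, len (aut A a * φ) < len φ := by
  obtain ⟨b, c, hb, hc', hbc⟩ := others y.1
  obtain ⟨eb, heb, lb⟩ := h.label b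
  obtain ⟨ec, hec, lc⟩ := h.label c
  have hS : ({edge s y s, edge s y t, eb, ec} : Finset Eg) = eset M := by
    apply Finset.eq_of_subset_of_card_le
    · intro e he
      simp only [Finset.mem_insert, Finset.mem_singleton] at he
      rcases he with rfl | rfl | rfl | rfl <;> assumption
    · have n1 : edge s y s ≠ edge s y t := fun e => hne (edge_inj e).2
      have n2 : ∀ u, edge s y u ≠ eb := fun u e => hb (by rw [← lb, ← e, edge_lab])
      have n3 : ∀ u, edge s y u ≠ ec := fun u e => hc' (by rw [← lc, ← e, edge_lab])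
      have n4 : eb ≠ ec := fun e => hbc (by rw [← lb, ← lc, e])
      have := h.euler
      rw [Finset.card_insert_of_notMem (by simp [n1, n2, n3]),
        Finset.card_insert_of_notMem (by simp [n2, n3]), Finset.card_pair n4]
      omega
  have hV : ({s, t} : Finset ℕ) = vset M := by
    apply Finset.eq_of_subset_of_card_le
    · intro v hv
      simp only [Finset.mem_insert, Finset.mem_singleton] at hv
      rcases hv with rfl | rfl
      · exact (eset_ends h2).1
      · exact (eset_ends h2).2
    · rw [Finset.card_pair hne, hc]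
  have h0 : s = 0 ∨ t = 0 := by
    have : 0 ∈ vset M := mem_vset.2 (.inl rfl)
    rw [← hV] at this
    simpa [eq_comm] using this
  let tgt : Lt → ℕ := fun x =>
    if x.1 = b then (if x.2 then eb.2.2 else eb.1) else (if x.2 then ec.2.2 else ec.1)
  let A : Vx → Bool := fun v => match v with
    | none => false
    | some x => decide (tgt x ≠ 0)
  let m : Lt := if s = 0 then y else linv y
  have hm : m.1 = y.1 := by simp only [m]; split_ifs <;> rfl
  let hh : ℕ → F := fun u => (pw (decide (u ≠ 0)) m)⁻¹
  let w : Eg → ℕ := fun e => if e = edge s y t then 0 else 1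
  have key : ∀ u x u', edge u x u' ∈ eset M →
      ((hh u)⁻¹ * whm A m (lt x) * hh u').norm ≤ w (edge u x u') := by
    intro u x u' he
    by_cases hx : x.1 = y.1
    · rw [whm_lt_eq _ _ _ (hx.trans hm.symm)]
      have hxm : ∀ r, pw r m * lt x * (pw r m)⁻¹ = lt x := by
        intro r
        cases r
        · simp
        · rcases eq_or_eq_linv (hx.trans hm.symm) with e | e <;> simp [e, lt_linv]
      have hconn : (hh s)⁻¹ * lt y * hh t = 1 := by
        rcases h0 with h0 | h0
        · have : t ≠ 0 := fun e => hne (h0.trans e.symm)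
          simp [hh, m, h0, this]
        · have : s ≠ 0 := fun e => hne (e.trans h0.symm)
          simp [hh, m, h0, this, lt_linv]
      rw [← hS] at he
      simp only [Finset.mem_insert, Finset.mem_singleton] at he
      rcases he with he | he | he | he
      · have : u = u' := by
          rcases eq_or_eq_linv hx with rfl | rfl
          · exact (edge_inj he).1.trans (edge_inj he).2.symm
          · rw [edge_linv] at he
            exact (edge_inj he).2.trans (edge_inj he).1.symm
        subst this
        have n1 : edge s y s ≠ edge s y t := fun e => hne (edge_inj e).2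
        simp only [hh, inv_inv, hxm, norm_lt, w, he, if_neg n1, le_refl]
      · rcases eq_or_eq_linv hx with rfl | rfl
        · obtain ⟨rfl, rfl⟩ := edge_inj he
          simp [hconn]
        · rw [edge_linv] at he
          obtain ⟨rfl, rfl⟩ := edge_inj he
          have : (hh u)⁻¹ * lt (linv y) * hh u' = ((hh u')⁻¹ * lt y * hh u)⁻¹ := by
            rw [lt_linv]; group
          simp [this, hconn]
      · exact absurd (by rw [← lb, ← he, edge_lab, hx]) hb
      · exact absurd (by rw [← lc, ← he, edge_lab, hx]) hc'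
    · have ht : tgt x = u' ∧ tgt (linv x) = u := by
        rw [← hS] at he
        simp only [Finset.mem_insert, Finset.mem_singleton] at he
        obtain ⟨j, r⟩ := x
        rcases he with he | he | he | he
        · exact absurd (by rw [← edge_lab u (j, r) u', he, edge_lab]) hx
        · exact absurd (by rw [← edge_lab u (j, r) u', he, edge_lab]) hx
        · have : j = b := by rw [← lb, ← he, edge_lab]
          cases r <;> simp [tgt, this, ← he, edge, linv]
        · have : j ≠ b := by rw [← lc, ← he, edge_lab] at hbc; exact hbc.symm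
          cases r <;> simp [tgt, this, ← he, edge, linv]
      have n1 : edge u x u' ≠ edge s y t := fun e => hx (by rw [← edge_lab u x u', e, edge_lab])
      rw [whm_lt_ne _ _ _ (hm ▸ hx)]
      simp only [A, hh, ht.1, ht.2, w, if_neg n1, pw_false, inv_inv, one_mul, inv_one, mul_one,
        ← mul_assoc, mul_inv_cancel, mul_inv_cancel_right, norm_lt, le_refl]
  refine ⟨A, m, ?_⟩
  have hw : ∀ e, w e ≤ 1 := fun e => by simp only [w]; split_ifs <;> simp
  have le1 : ∀ i, ((aut A m * φ) (of i)).norm ≤ ((edges 0 (M i)).map w).sum := by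
    intro i
    have := tele (whm A m) hh w 0 (M i) fun u x u' he => key u x u' (mem_eset.2 ⟨i, he⟩)
    rw [h.word, h.closed, mk_toWord] at this
    simpa [hh] using this
  have le2 : ∀ i, (edges 0 (M i)).length = (φ (of i)).norm := by
    intro i
    rw [length_edges, FreeGroup.norm, ← h.word, List.length_map]
  obtain ⟨i, hi⟩ := mem_eset.1 h2
  refine Finset.sum_lt_sum (fun j _ => ?_) ⟨i, Finset.mem_univ _, ?_⟩
  · exact (le1 j).trans (le2 j ▸ (sum_lt_len w hw _).1)
  · exact (le1 i).trans_lt (le2 i ▸ (sum_lt_len w hw _).2 _ hi (by simp [w]))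

lemma Stage.move {φ : AF} (n : ℕ) : ∀ M, Stage φ M → (vset M).card = n + 2 →
    ∃ A a, len (aut A a * φ) < len φ := by
  induction n with
  | zero =>
    intro M h hc
    have := h.fold (by omega)
    simp only [Det, not_forall] at this
    obtain ⟨s, y, t, t', h1, h2, hne⟩ := this
    by_cases c1 : s = t
    · subst c1; exact h.two h1 h2 hne hc
    · by_cases c2 : s = t'
      · subst c2; exact h.two h2 h1 c1 hc
      · exfalso
        have : ({s, t, t'} : Finset ℕ) ⊆ vset M := by
          intro v hv
          simp only [Finset.mem_insert, Finset.mem_singleton] at hv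
          rcases hv with rfl | rfl | rfl
          · exact (eset_ends h1).1
          · exact (eset_ends h1).2
          · exact (eset_ends h2).2
        have := Finset.card_le_card this
        rw [Finset.card_insert_of_notMem (by simp [c1, c2]), Finset.card_pair hne] at this
        omega
  | succ n ih =>
    intro M h hc
    have := h.fold (by omega)
    simp only [Det, not_forall] at this
    obtain ⟨s, y, t, t', h1, h2, hne⟩ := this
    by_cases c : t' = 0
    · obtain ⟨M', a, b⟩ := h.merge h2 h1 (Ne.symm hne) (c ▸ hne)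
      exact ih M' a (by omega)
    · obtain ⟨M', a, b⟩ := h.merge h1 h2 hne c
      exact ih M' a (by omega)

def ann : ℕ → List Lt → List (Lt × ℕ)
  | _, [] => []
  | _, [y] => [(y, 0)]
  | c, y :: z :: l => (y, c) :: ann (c + 1) (z :: l)

lemma ann_spec (c : ℕ) (l : List Lt) : (ann c l).map Prod.fst = l ∧
    (l ≠ [] → ∀ s, endv s (ann c l) = 0) ∧
    ∀ k, c ≤ k → k + 1 < c + l.length → ∃ p ∈ ann c l, p.2 = k := by
  induction c, l using ann.induct with
  | case1 c => exact ⟨rfl, by simp, fun k a b => by simp at b; omega⟩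
  | case2 c y => exact ⟨rfl, fun _ _ => rfl, fun k a b => by simp at b; omega⟩
  | case3 c y z l ih =>
    obtain ⟨a1, a2, a3⟩ := ih
    refine ⟨by simp [ann, a1], fun _ s => a2 (by simp) _, fun k a b => ?_⟩
    by_cases e : k = c
    · exact ⟨(y, c), by simp [ann], e.symm⟩
    · obtain ⟨p, hp, rfl⟩ := a3 k (by omega) (by simp at b ⊢; omega)
      exact ⟨p, by simp [ann, hp], rfl⟩

lemma lt_injective : Function.Injective lt := by
  intro x y h
  simpa [lt, toWord_mk] using congrArg toWord h

theorem gen (φ : AF) : (∃ v : W, φ = wa v) ∨ ∃ A a, len (aut A a * φ) < len φ := by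
  let n : Fin 3 → ℕ := fun i => (φ (of i)).toWord.length
  have hne : ∀ i, (φ (of i)).toWord ≠ [] := fun i h => by
    rw [toWord_eq_nil_iff, MulEquiv.map_eq_one_iff] at h
    exact of_ne_one i h
  have hpos : ∀ i, 0 < n i := fun i => List.length_pos_iff.2 (hne i)
  let c : Fin 3 → ℕ := ![1, n 0 + 1, n 0 + n 1 + 1]
  let M : Fin 3 → List (Lt × ℕ) := fun i => ann (c i) (φ (of i)).toWord
  have hV : n 0 + n 1 + n 2 ≤ (vset M).card + 2 := by
    have : Finset.range (n 0 + n 1 + n 2) ⊆ vset M ∪ {n 0, n 0 + n 1} := by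
      intro k hk
      simp only [Finset.mem_range, Finset.mem_union, Finset.mem_insert, Finset.mem_singleton,
        mem_vset] at hk ⊢
      by_cases a : k = 0
      · exact .inl (.inl a)
      by_cases b : k < n 0
      · exact .inl (.inr ⟨0, (ann_spec _ _).2.2 k (by simp [c]; omega) (by simp [c, n] at *; omega)⟩)
      by_cases d : k = n 0
      · exact .inr (.inl d)
      by_cases e : k < n 0 + n 1
      · exact .inl (.inr ⟨1, (ann_spec _ _).2.2 k (by simp [c]; omega) (by simp [c, n] at *; omega)⟩)
      by_cases f : k = n 0 + n 1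
      · exact .inr (.inr f)
      · exact .inl (.inr ⟨2, (ann_spec _ _).2.2 k (by simp [c]; omega) (by simp [c, n] at *; omega)⟩)
    have h1 := Finset.card_le_card this
    have h2 := Finset.card_union_le (vset M) {n 0, n 0 + n 1}
    have h3 : ({n 0, n 0 + n 1} : Finset ℕ).card ≤ 2 := Finset.card_le_two
    rw [Finset.card_range] at h1
    omega
  have hS : Stage φ M := by
    refine ⟨fun i => (ann_spec _ _).1, fun i => (ann_spec _ _).2.1 (hne i) 0, ?_⟩
    refine le_trans ?_ hV
    refine Finset.card_biUnion_le.trans ?_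
    rw [← Fin.sum_univ_three]
    refine Finset.sum_le_sum fun i _ => (List.toFinset_card_le _).trans ?_
    rw [length_edges, ← List.length_map (f := Prod.fst), (ann_spec _ _).1]
  by_cases h2 : 2 ≤ (vset M).card
  · exact .inr (Stage.move ((vset M).card - 2) M hS (by omega))
  · left
    have h1 : ∀ i, ∃ y, φ (lt (i, true)) = lt y := by
      intro i
      have : n i = 1 := by
        have := hpos 0; have := hpos 1; have := hpos 2
        fin_cases i <;> simp <;> omega
      obtain ⟨y, hy⟩ := List.length_eq_one_iff.1 this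
      exact ⟨y, by rw [lt_true, ← mk_toWord (x := φ (of i)), hy]; rfl⟩
    choose y hy using h1
    have hv : ∀ i j, i ≠ j → (y i).1 ≠ (y j).1 := by
      intro i j hij e
      rcases eq_or_eq_linv e with e | e
      · have := lt_injective (φ.injective ((hy i).trans (e ▸ (hy j).symm)))
        simp_all
      · have h3 : φ (lt (i, true)) = φ (lt (linv (j, true))) := by
          rw [hy, e, lt_linv, lt_linv, map_inv, hy]
        have := lt_injective (φ.injective h3)
        simp [linv] at this
    refine ⟨⟨⟨y 0, y 1, y 2⟩, hv 0 1 (by decide), hv 0 2 (by decide), hv 1 2 (by decide)⟩, ?_⟩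
    refine aut_ext' fun i => ?_
    rw [wa_lt, hy]
    fin_cases i <;> rfl

end Pool.Agent.MP_6bf536_al
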