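import Mathlib.Tactic.IntervalCases
import Mathlib.GroupTheory.FreeGroup.Reduce
import Mathlib.Algebra.Order.Ring.Star
import Pool.Agent.MP_6bf536_al.Braid

/-!
The Hurwitz action of braids on tuples of group elements for the core quandle operation.
-/

set_option autoImplicit false

namespace Pool.Agent.MP_6bf536_al

open FreeGroup hiding map_mul map_inv map_one

variable {H : Type*} [Group H]

def hurF (k : ℕ) (x : ℕ → H) : ℕ → H := fun i =>
  if i = k then x k * (x (k + 1))⁻¹ * x k else if i = k + 1 then x k else x i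

def hurB (k : ℕ) (x : ℕ → H) : ℕ → H := fun i =>
  if i = k then x (k + 1) else if i = k + 1 then x (k + 1) * (x k)⁻¹ * x (k + 1) else x i

def hur (H : Type*) [Group H] (k : ℕ) : Equiv.Perm (ℕ → H) where
  toFun := hurF k
  invFun := hurB k
  left_inv x := by
    funext i
    by_cases a : i = k
    · simp [hurF, hurB, a]
    · by_cases b : i = k + 1 <;> simp [hurF, hurB, a, b, mul_assoc]
  right_inv x := by
    funext i
    by_cases a : i = k
    · simp [hurF, hurB, a, mul_assoc]
    · by_cases b : i = k + 1 <;> simp [hurF, hurB, a, b]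

def sH (H : Type*) [Group H] (k : ℕ) : Equiv.Perm (ℕ → H) := if k < 6 then hur H k else 1

lemma hurF_a (k : ℕ) (x : ℕ → H) : hurF k x k = x k * (x (k + 1))⁻¹ * x k := by simp [hurF]
lemma hurF_b (k : ℕ) (x : ℕ → H) : hurF k x (k + 1) = x k := by simp [hurF]
lemma hurF_c {k i : ℕ} (x : ℕ → H) (a : i ≠ k) (b : i ≠ k + 1) : hurF k x i = x i := by
  simp [hurF, a, b]

lemma isBraid_sH : IsBraid (sH H) where
  comm i j h := by
    by_cases hj : j < 6
    · have hi : i < 6 := by omega
      simp only [sH, if_pos hi, if_pos hj]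
      ext x l
      show hurF i (hurF j x) l = hurF j (hurF i x) l
      have e1 : ∀ y : ℕ → H, hurF j y i = y i := fun y => hurF_c y (by omega) (by omega)
      have e2 : ∀ y : ℕ → H, hurF j y (i + 1) = y (i + 1) := fun y => hurF_c y (by omega) (by omega)
      have e3 : ∀ y : ℕ → H, hurF i y j = y j := fun y => hurF_c y (by omega) (by omega)
      have e4 : ∀ y : ℕ → H, hurF i y (j + 1) = y (j + 1) := fun y => hurF_c y (by omega) (by omega)
      by_cases a : l = i
      · simp only [a, hurF_a, e1, e2]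
      by_cases b : l = i + 1
      · simp only [b, hurF_b, e1, e2]
      by_cases c : l = j
      · simp only [c, hurF_a, e3, e4]
      by_cases d : l = j + 1
      · simp only [d, hurF_b, e3, e4]
      simp only [hurF_c _ a b, hurF_c _ c d]
    · simp [sH, hj]
  braid i h := by
    have hi : i < 6 := by omega
    simp only [sH, if_pos hi, if_pos h]
    ext x l
    show hurF i (hurF (i + 1) (hurF i x)) l = hurF (i + 1) (hurF i (hurF (i + 1) x)) l
    have e1 : ∀ y : ℕ → H, hurF (i + 1) y i = y i := fun y => hurF_c y (by omega) (by omega)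
    have e2 : ∀ y : ℕ → H, hurF i y (i + 1 + 1) = y (i + 1 + 1) :=
      fun y => hurF_c y (by omega) (by omega)
    by_cases a : l = i
    · simp only [a, hurF_a, hurF_b, e1, e2]; group
    by_cases b : l = i + 1
    · simp only [b, hurF_a, hurF_b, e1, e2]
    by_cases c : l = i + 1 + 1
    · simp only [c, hurF_b, e1, e2]
    simp only [hurF_c _ a b, hurF_c _ b c]
  big k h := by simp [sH, Nat.not_lt.2 h]

def Eqv (x y : ℕ → H) : Prop :=
  ∃ g h : H, (∀ i, i < 7 → y i = g * x i * h) ∨ (∀ i, i < 7 → y i = g * (x i)⁻¹ * h)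

lemma Eqv.of_eq {x y : ℕ → H} (h : ∀ i, i < 7 → y i = x i) : Eqv x y :=
  ⟨1, 1, .inl fun i hi => by simp [h i hi]⟩

lemma Eqv.refl (x : ℕ → H) : Eqv x x := .of_eq fun _ _ => rfl

lemma Eqv.symm {x y : ℕ → H} (h : Eqv x y) : Eqv y x := by
  obtain ⟨g, h, H1 | H1⟩ := h
  · exact ⟨g⁻¹, h⁻¹, .inl fun i hi => by rw [H1 i hi]; group⟩
  · exact ⟨h, g, .inr fun i hi => by rw [H1 i hi]; group⟩

lemma Eqv.trans {x y z : ℕ → H} (h1 : Eqv x y) (h2 : Eqv y z) : Eqv x z := by
  obtain ⟨g, h, H1 | H1⟩ := h1 <;> obtain ⟨g', h', H2 | H2⟩ := h2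
  · exact ⟨g' * g, h * h', .inl fun i hi => by rw [H2 i hi, H1 i hi]; group⟩
  · exact ⟨g' * h⁻¹, g⁻¹ * h', .inr fun i hi => by rw [H2 i hi, H1 i hi]; group⟩
  · exact ⟨g' * g, h * h', .inr fun i hi => by rw [H2 i hi, H1 i hi]; group⟩
  · exact ⟨g' * h⁻¹, g⁻¹ * h', .inl fun i hi => by rw [H2 i hi, H1 i hi]; group⟩

lemma Eqv.map {H' : Type*} [Group H'] (f : H →* H') {x y : ℕ → H} (h : Eqv x y) :
    Eqv (f ∘ x) (f ∘ y) := by
  obtain ⟨g, h, H1 | H1⟩ := h
  · exact ⟨f g, f h, .inl fun i hi => by simp [H1 i hi]⟩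
  · exact ⟨f g, f h, .inr fun i hi => by simp [H1 i hi]⟩

lemma sl_sH (k : ℕ) (e : Bool) (x : ℕ → H) :
    sl (sH H) (k, e) x = if k < 6 then (if e then hurF k x else hurB k x) else x := by
  by_cases hk : k < 6 <;> cases e <;> simp [sl, sH, hk] <;> rfl

lemma Eqv.sl {x y : ℕ → H} (h : Eqv x y) (z : BL) : Eqv (sl (sH H) z x) (sl (sH H) z y) := by
  obtain ⟨k, e⟩ := z
  rw [sl_sH, sl_sH]
  split_ifs with hk he
  · obtain ⟨g, h, H1 | H1⟩ := h
    · refine ⟨g, h, .inl fun i hi => ?_⟩
      unfold hurF; rw [H1 i hi, H1 k (by omega), H1 (k + 1) (by omega)]; split_ifs <;> group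
    · refine ⟨g, h, .inr fun i hi => ?_⟩
      unfold hurF; rw [H1 i hi, H1 k (by omega), H1 (k + 1) (by omega)]; split_ifs <;> group
  · obtain ⟨g, h, H1 | H1⟩ := h
    · refine ⟨g, h, .inl fun i hi => ?_⟩
      unfold hurB; rw [H1 i hi, H1 k (by omega), H1 (k + 1) (by omega)]; split_ifs <;> group
    · refine ⟨g, h, .inr fun i hi => ?_⟩
      unfold hurB; rw [H1 i hi, H1 k (by omega), H1 (k + 1) (by omega)]; split_ifs <;> group
  · exact h

lemma Eqv.ev {x y : ℕ → H} (h : Eqv x y) (w : List BL) : Eqv (ev (sH H) w x) (ev (sH H) w y) := by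
  induction w with
  | nil => exact h
  | cons z w ih => rw [ev_cons]; exact ih.sl z

lemma ev_map {H' : Type*} [Group H'] (f : H →* H') (w : List BL) (x : ℕ → H) :
    ev (sH H') w (f ∘ x) = f ∘ ev (sH H) w x := by
  induction w with
  | nil => rfl
  | cons z w ih =>
    obtain ⟨k, e⟩ := z
    rw [ev_cons, ev_cons, Equiv.Perm.mul_apply, Equiv.Perm.mul_apply, ih, sl_sH, sl_sH]
    funext i
    split_ifs
    · simp only [hurF, Function.comp]; split_ifs <;> simp
    · simp only [hurB, Function.comp]; split_ifs <;> simp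
    · rfl

/-! Computation with lists -/

section
variable {α : Type} [DecidableEq α]

def qop (x y : List (α × Bool)) : List (α × Bool) := reduce (x ++ (invRev y ++ x))

def hurL (z : BL) (t : List (List (α × Bool))) : List (List (α × Bool)) :=
  if z.1 < 6 then
    (if z.2 then (t.set z.1 (qop (t.getD z.1 []) (t.getD (z.1 + 1) []))).set (z.1 + 1) (t.getD z.1 [])
    else (t.set z.1 (t.getD (z.1 + 1) [])).set (z.1 + 1) (qop (t.getD (z.1 + 1) []) (t.getD z.1 [])))
  else t

def sem (t : List (List (α × Bool))) : ℕ → FreeGroup α := fun i => FreeGroup.mk (t.getD i [])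

lemma mk_qop (x y : List (α × Bool)) :
    FreeGroup.mk (qop x y) = FreeGroup.mk x * (FreeGroup.mk y)⁻¹ * FreeGroup.mk x := by
  rw [qop, reduce.self, inv_mk, mul_mk, mul_mk, List.append_assoc]

lemma getD_set2 {β : Type} (t : List β) (k i : ℕ) (hk : k + 1 < t.length) (a b d : β) :
    ((t.set k a).set (k + 1) b).getD i d = if i = k then a else if i = k + 1 then b else t.getD i d := by
  simp only [List.getD_eq_getElem?_getD, List.getElem?_set, List.length_set]
  by_cases h1 : i = k
  · subst h1; simp [show i < t.length by omega]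
  · by_cases h2 : i = k + 1
    · subst h2; simp [hk]
    · simp [h1, h2, Ne.symm h1, Ne.symm h2]

lemma sem_hurL (z : BL) (t : List (List (α × Bool))) (ht : t.length = 7) :
    (hurL z t).length = 7 ∧ sem (hurL z t) = sl (sH _) z (sem t) := by
  obtain ⟨k, e⟩ := z
  rw [sl_sH]
  unfold hurL
  split_ifs with hk he
  · refine ⟨by simp [ht], funext fun i => ?_⟩
    simp only [sem, hurF, getD_set2 t k i (by omega)]
    split_ifs <;> simp only [mk_qop]
  · refine ⟨by simp [ht], funext fun i => ?_⟩
    simp only [sem, hurB, getD_set2 t k i (by omega)]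
    split_ifs <;> simp only [mk_qop]
  · exact ⟨ht, rfl⟩

lemma sem_ev (w : List BL) (t : List (List (α × Bool))) (ht : t.length = 7) :
    (w.foldr hurL t).length = 7 ∧ sem (w.foldr hurL t) = ev (sH _) w (sem t) := by
  induction w with
  | nil => exact ⟨ht, rfl⟩
  | cons z w ih =>
    rw [List.foldr_cons, ev_cons, Equiv.Perm.mul_apply, ← ih.2]
    exact sem_hurL z _ ih.1

def eqvChk (x y : List (List (α × Bool))) (w : List BL) (g h : List (α × Bool)) (e : Bool) : Bool :=
  y.length == 7 && (List.range 7).all fun i =>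
    reduce ((w.foldr hurL y).getD i []) ==
      reduce (g ++ ((if e then x.getD i [] else invRev (x.getD i [])) ++ h))

lemma eqvChk_sound {x y : List (List (α × Bool))} {w : List BL} {g h : List (α × Bool)} {e : Bool}
    (H : eqvChk x y w g h e = true) : Eqv (sem x) (ev (sH _) w (sem y)) := by
  simp only [eqvChk, Bool.and_eq_true, beq_iff_eq, List.all_eq_true, List.mem_range] at H
  rw [← (sem_ev w y H.1).2]
  refine ⟨FreeGroup.mk g, FreeGroup.mk h, ?_⟩
  cases e
  · refine .inr fun i hi => (reduce.exact (H.2 i hi)).trans ?_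
    simp [sem, inv_mk, mul_mk]
  · refine .inl fun i hi => (reduce.exact (H.2 i hi)).trans ?_
    simp [sem, mul_mk]

end

def gen7 : List (List (Fin 7 × Bool)) :=
  [[(0, true)], [(1, true)], [(2, true)], [(3, true)], [(4, true)], [(5, true)], [(6, true)]]

lemma d2_gen : eqvChk gen7 gen7 d2
    [(0, true), (1, false), (2, true), (3, false), (4, true), (5, false), (6, true)]
    [(6, true), (5, false), (4, true), (3, false), (2, true), (1, false), (0, true)] false = true := by
  decide +kernel

lemma eqv_d2 (y : ℕ → H) : Eqv y (ev (sH H) d2 y) := by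
  let f : FreeGroup (Fin 7) →* H := FreeGroup.lift fun i => y i
  have h1 : Eqv y (f ∘ sem gen7) := by
    refine .of_eq fun i hi => ?_
    interval_cases i <;> simp [f, sem, gen7]
  have h2 := (eqvChk_sound d2_gen).map f
  rw [← ev_map] at h2
  have h3 := h1.symm.ev d2
  generalize ev (sH H) d2 = D at h2 h3 ⊢
  exact (h1.trans h2).trans h3

lemma eqv_zpow (D : Equiv.Perm (ℕ → H)) (hD : ∀ y, Eqv y (D y)) (k : ℤ) (y : ℕ → H) :
    Eqv y ((D ^ k) y) := by
  induction k using Int.induction_on generalizing y with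
  | zero => exact .refl y
  | succ n ih =>
    rw [zpow_add_one, Equiv.Perm.mul_apply]
    exact (hD y).trans (ih _)
  | pred n ih =>
    rw [zpow_sub_one, Equiv.Perm.mul_apply]
    refine Eqv.trans ?_ (ih _)
    have := hD (D⁻¹ y)
    rw [← Equiv.Perm.mul_apply, mul_inv_cancel] at this
    exact this.symm

end Pool.Agent.MP_6bf536_al
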