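import Mathlib.Data.Matrix.Mul
import Mathlib.Tactic.LinearCombination
import Mathlib.Data.List.GetD
import Mathlib.Tactic.Polynomial.Basic
import Pool.Agent.MP_6bf536_al.Braid

/-!
The Lawrence Krammer representation of the braid group on seven strands (rescaled to integral
form) and its faithfulness modulo the centre.
-/

set_option autoImplicit false

namespace Pool.Agent.MP_6bf536_al

open Matrix Polynomial

abbrev Row := List (Fin 21 × ℤ × Bool)
abbrev Tab := List Row

def tw {R : Type*} [CommRing R] (t : R) (e : Bool) : R := if e then t else 1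

def MT {R : Type*} [CommRing R] (t : R) (T : Tab) : Matrix (Fin 21) (Fin 21) R := fun s r =>
  ((T.getD s []).map fun x => if x.1 = r then (x.2.1 : R) * tw t x.2.2 else 0).sum

lemma MT_mulVec {R : Type*} [CommRing R] (t : R) (T : Tab) (v : Fin 21 → R) (s : Fin 21) :
    (MT t T *ᵥ v) s = ((T.getD s []).map fun x => (x.2.1 : R) * tw t x.2.2 * v x.1).sum := by
  simp only [mulVec, dotProduct, MT]
  induction T.getD s [] with
  | nil => simp
  | cons x l ih =>
    simp only [List.map_cons, List.sum_cons, add_mul, Finset.sum_add_distrib, ih]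
    simp

lemma MT_map {R S : Type*} [CommRing R] [CommRing S] (f : R →+* S) (t : R) (T : Tab) :
    (MT t T).map f = MT (f t) T := by
  ext s r
  simp only [map_apply, MT, map_list_sum, List.map_map]
  congr 1
  refine List.map_congr_left fun x _ => ?_
  simp only [Function.comp, tw]
  split_ifs <;> simp

def MW {R : Type*} [CommRing R] (t : R) (Ts : List Tab) : Matrix (Fin 21) (Fin 21) R :=
  (Ts.map (MT t)).prod

lemma MW_map {R S : Type*} [CommRing R] [CommRing S] (f : R →+* S) (t : R) (Ts : List Tab) :
    (MW t Ts).map f = MW (f t) Ts := by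
  induction Ts with
  | nil => simp [MW]
  | cons T Ts ih =>
    simp only [MW, List.map_cons, List.prod_cons] at *
    rw [Matrix.map_mul, ih, MT_map]

/-! Integer polynomials as lists -/

def evP {R : Type*} [CommRing R] (t : R) : List ℤ → R
  | [] => 0
  | a :: p => a + t * evP t p

def padd : List ℤ → List ℤ → List ℤ
  | [], q => q
  | a :: p, [] => a :: p
  | a :: p, b :: q => (a + b) :: padd p q

def psm (c : ℤ) (e : Bool) (p : List ℤ) : List ℤ :=
  bif e then 0 :: p.map (c * ·) else p.map (c * ·)

def pz (p : List ℤ) : Bool := p.all (· == 0)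

def rowP (v : List (List ℤ)) : Row → List ℤ
  | [] => []
  | x :: l => padd (psm x.2.1 x.2.2 (v.getD x.1 [])) (rowP v l)

def appT (T : Tab) (v : List (List ℤ)) : List (List ℤ) := T.map (rowP v)

def run (Ts : List Tab) (v : List (List ℤ)) : List (List ℤ) := Ts.foldr appT v

def bas (r : ℕ) : List (List ℤ) := List.replicate r [] ++ [[1]]

def chkM (Ts Ts' : List Tab) (c : ℤ) (e : Bool) : Bool :=
  (List.range 21).all fun r => (List.range 21).all fun s =>
    pz (padd ((run Ts (bas r)).getD s []) (psm (-c) e ((run Ts' (bas r)).getD s [])))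

section
variable {R : Type*} [CommRing R] (t : R)

lemma evP_padd (p q : List ℤ) : evP t (padd p q) = evP t p + evP t q := by
  induction p, q using padd.induct with
  | case1 q => simp [padd, evP]
  | case2 a p => simp [padd, evP]
  | case3 a p b q ih => simp only [padd, evP, ih]; push_cast; ring

lemma evP_map (c : ℤ) (p : List ℤ) : evP t (p.map (c * ·)) = c * evP t p := by
  induction p with
  | nil => simp [evP]
  | cons a p ih => simp only [List.map_cons, evP, ih]; push_cast; ring

lemma evP_psm (c : ℤ) (e : Bool) (p : List ℤ) : evP t (psm c e p) = c * tw t e * evP t p := by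
  cases e <;> simp [psm, evP, evP_map, tw]
  ring

lemma evP_pz {p : List ℤ} (h : pz p = true) : evP t p = 0 := by
  induction p with
  | nil => rfl
  | cons a p ih =>
    simp only [pz, List.all_cons, Bool.and_eq_true, beq_iff_eq] at h
    simp [evP, h.1, ih h.2]

def evV (v : List (List ℤ)) : Fin 21 → R := fun s => evP t (v.getD s [])

lemma evV_appT (T : Tab) (v : List (List ℤ)) : evV t (appT T v) = MT t T *ᵥ evV t v := by
  funext s
  rw [MT_mulVec, evV, appT]
  have : (T.map (rowP v)).getD s [] = rowP v (T.getD s []) := List.getD_map T [] (rowP v)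
  rw [this]
  induction T.getD s [] with
  | nil => rfl
  | cons x l ih => simp only [rowP, evP_padd, evP_psm, ih, List.map_cons, List.sum_cons, evV]

lemma evV_run (Ts : List Tab) (v : List (List ℤ)) : evV t (run Ts v) = MW t Ts *ᵥ evV t v := by
  induction Ts with
  | nil => simp [run, MW]
  | cons T Ts ih =>
    simp only [run, MW, List.foldr_cons, List.map_cons, List.prod_cons, evV_appT] at *
    rw [ih, mulVec_mulVec]

lemma bas_getD : ∀ r s : Fin 21, (bas r).getD s [] = if s = r then [1] else [] := by
  decide +kernel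

lemma evV_bas (r : Fin 21) : evV t (bas r) = Pi.single r 1 := by
  funext s
  rw [evV, bas_getD, Pi.single_apply]
  split_ifs <;> simp [evP]

lemma chkM_sound {Ts Ts' : List Tab} {c : ℤ} {e : Bool} (h : chkM Ts Ts' c e = true) :
    MW t Ts = ((c : R) * tw t e) • MW t Ts' := by
  ext s r
  simp only [chkM, List.all_eq_true, List.mem_range] at h
  have h1 := evP_pz t (h r r.2 s s.2)
  have h2 := congrFun (evV_run t Ts (bas r)) s
  have h3 := congrFun (evV_run t Ts' (bas r)) s
  rw [evV_bas, mulVec_single_one, evV] at h2 h3
  rw [evP_padd, evP_psm, h2, h3] at h1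
  simp only [col_apply] at h1
  rw [Matrix.smul_apply, smul_eq_mul]
  push_cast at h1
  linear_combination h1

end

def lk0 : Tab :=
  [[(0, 32, true), (1, -32, true), (2, -32, true), (3, -32, true), (4, -32, true), (5, -32, true)],
   [(6, 2, false)],
   [(7, 2, false)],
   [(8, 2, false)],
   [(9, 2, false)],
   [(10, 2, false)],
   [(1, 1, false), (6, 1, false)],
   [(2, 1, false), (7, 1, false)],
   [(3, 1, false), (8, 1, false)],
   [(4, 1, false), (9, 1, false)],
   [(5, 1, false), (10, 1, false)],
   [(11, 2, false)],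
   [(12, 2, false)],
   [(13, 2, false)],
   [(14, 2, false)],
   [(15, 2, false)],
   [(16, 2, false)],
   [(17, 2, false)],
   [(18, 2, false)],
   [(19, 2, false)],
   [(20, 2, false)]]

def lk1 : Tab :=
  [[(0, 1, false), (1, 2, false)],
   [(0, 1, false)],
   [(2, 2, false)],
   [(3, 2, false)],
   [(4, 2, false)],
   [(5, 2, false)],
   [(1, -16, true), (2, 16, true), (3, 16, true), (4, 16, true), (5, 16, true), (6, 32, true), (7, -32, true), (8, -32, true), (9, -32, true), (10, -32, true)],
   [(11, 2, false)],
   [(12, 2, false)],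
   [(13, 2, false)],
   [(14, 2, false)],
   [(7, 1, false), (11, 1, false)],
   [(8, 1, false), (12, 1, false)],
   [(9, 1, false), (13, 1, false)],
   [(10, 1, false), (14, 1, false)],
   [(15, 2, false)],
   [(16, 2, false)],
   [(17, 2, false)],
   [(18, 2, false)],
   [(19, 2, false)],
   [(20, 2, false)]]

def lk2 : Tab :=
  [[(0, 2, false)],
   [(1, 1, false), (2, 2, false)],
   [(1, 1, false)],
   [(3, 2, false)],
   [(4, 2, false)],
   [(5, 2, false)],
   [(6, 1, false), (7, 2, false)],
   [(6, 1, false)],
   [(8, 2, false)],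
   [(9, 2, false)],
   [(10, 2, false)],
   [(2, -8, true), (3, 8, true), (4, 8, true), (5, 8, true), (7, -16, true), (8, 16, true), (9, 16, true), (10, 16, true), (11, 32, true), (12, -32, true), (13, -32, true), (14, -32, true)],
   [(15, 2, false)],
   [(16, 2, false)],
   [(17, 2, false)],
   [(12, 1, false), (15, 1, false)],
   [(13, 1, false), (16, 1, false)],
   [(14, 1, false), (17, 1, false)],
   [(18, 2, false)],
   [(19, 2, false)],
   [(20, 2, false)]]

def lk3 : Tab :=
  [[(0, 2, false)],
   [(1, 2, false)],
   [(2, 1, false), (3, 2, false)],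
   [(2, 1, false)],
   [(4, 2, false)],
   [(5, 2, false)],
   [(6, 2, false)],
   [(7, 1, false), (8, 2, false)],
   [(7, 1, false)],
   [(9, 2, false)],
   [(10, 2, false)],
   [(11, 1, false), (12, 2, false)],
   [(11, 1, false)],
   [(13, 2, false)],
   [(14, 2, false)],
   [(3, -4, true), (4, 4, true), (5, 4, true), (8, -8, true), (9, 8, true), (10, 8, true), (12, -16, true), (13, 16, true), (14, 16, true), (15, 32, true), (16, -32, true), (17, -32, true)],
   [(18, 2, false)],
   [(19, 2, false)],
   [(16, 1, false), (18, 1, false)],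
   [(17, 1, false), (19, 1, false)],
   [(20, 2, false)]]

def lk4 : Tab :=
  [[(0, 2, false)],
   [(1, 2, false)],
   [(2, 2, false)],
   [(3, 1, false), (4, 2, false)],
   [(3, 1, false)],
   [(5, 2, false)],
   [(6, 2, false)],
   [(7, 2, false)],
   [(8, 1, false), (9, 2, false)],
   [(8, 1, false)],
   [(10, 2, false)],
   [(11, 2, false)],
   [(12, 1, false), (13, 2, false)],
   [(12, 1, false)],
   [(14, 2, false)],
   [(15, 1, false), (16, 2, false)],
   [(15, 1, false)],
   [(17, 2, false)],
   [(4, -2, true), (5, 2, true), (9, -4, true), (10, 4, true), (13, -8, true), (14, 8, true), (16, -16, true), (17, 16, true), (18, 32, true), (19, -32, true)],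
   [(20, 2, false)],
   [(19, 1, false), (20, 1, false)]]

def lk5 : Tab :=
  [[(0, 2, false)],
   [(1, 2, false)],
   [(2, 2, false)],
   [(3, 2, false)],
   [(4, 1, false), (5, 2, false)],
   [(4, 1, false)],
   [(6, 2, false)],
   [(7, 2, false)],
   [(8, 2, false)],
   [(9, 1, false), (10, 2, false)],
   [(9, 1, false)],
   [(11, 2, false)],
   [(12, 2, false)],
   [(13, 1, false), (14, 2, false)],
   [(13, 1, false)],
   [(15, 2, false)],
   [(16, 1, false), (17, 2, false)],
   [(16, 1, false)],
   [(18, 1, false), (19, 2, false)],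
   [(18, 1, false)],
   [(5, -1, true), (10, -2, true), (14, -4, true), (17, -8, true), (19, -16, true), (20, 32, true)]]

def tabP : Tab :=
  [[(20, 33554432, false)],
   [(19, 16777216, false)],
   [(17, 8388608, false)],
   [(14, 4194304, false)],
   [(10, 2097152, false)],
   [(5, 1048576, false)],
   [(18, 8388608, false)],
   [(16, 4194304, false)],
   [(13, 2097152, false)],
   [(9, 1048576, false)],
   [(4, 524288, false)],
   [(15, 2097152, false)],
   [(12, 1048576, false)],
   [(8, 524288, false)],
   [(3, 262144, false)],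
   [(11, 524288, false)],
   [(7, 262144, false)],
   [(2, 131072, false)],
   [(6, 131072, false)],
   [(1, 65536, false)],
   [(0, 32768, false)]]

def prs : List (ℕ × ℕ) :=
  [(0, 1), (0, 2), (0, 3), (0, 4), (0, 5), (0, 6), (1, 2), (1, 3), (1, 4), (1, 5), (1, 6), (2, 3), (2, 4), (2, 5), (2, 6), (3, 4), (3, 5), (3, 6), (4, 5), (4, 6), (5, 6)]

def lk (k : ℕ) : Tab := [lk0, lk1, lk2, lk3, lk4, lk5].getD k []

lemma chk_braid : ∀ i, i < 5 →
    chkM [lk i, lk (i + 1), lk i] [lk (i + 1), lk i, lk (i + 1)] 1 false = true := by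
  decide +kernel

lemma chk_comm : ∀ j, j < 6 → ∀ i, i < j → i + 2 ≤ j →
    chkM [lk i, lk j] [lk j, lk i] 1 false = true := by
  decide +kernel

lemma chk_delta : chkM (dw.map lk) [tabP] 1 true = true := by decide +kernel

lemma chk_P : chkM [tabP, tabP] [] (2 ^ 40) false = true := by decide +kernel

end Pool.Agent.MP_6bf536_al
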