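import Pool.Agent.MP_6bf536_al.Len

/-!
Relations among Whitehead moves, simultaneously in the automorphism group and in a target group.
-/

set_option autoImplicit false

namespace Pool.Agent.MP_6bf536_al

open FreeGroup hiding map_mul map_inv map_one

def x0 : Lt := (0, true)
def x1 : Lt := (1, true)
def x2 : Lt := (2, true)

def third (i j : Fin 3) : Fin 3 := if i ≠ 0 ∧ j ≠ 0 then 0 else if i ≠ 1 ∧ j ≠ 1 then 1 else 2

def vofS (x a : Lt) : SP := if x.1 = a.1 then SP.one else ⟨a, x, (third x.1 a.1, true)⟩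

lemma vofS_valid : ∀ x a : Lt, (vofS x a).Valid := by decide

def vof (x a : Lt) : W := ⟨vofS x a, vofS_valid x a⟩

def ic : W := ⟨⟨x0, x1, linv x2⟩, by decide⟩
def w5 : W := ⟨⟨linv x1, x0, x2⟩, by decide⟩

lemma vof_smul : ∀ x a : Lt, x.1 ≠ a.1 → vof x a • x0 = a ∧ vof x a • x1 = x := by decide

lemma vofS_comp : ∀ p q r x a : Lt, (SP.mk p q r).Valid → x.1 ≠ a.1 →
    (SP.mk p q r).comp (vofS x a) = vofS ((SP.mk p q r).act x) ((SP.mk p q r).act a) ∨
    (SP.mk p q r).comp (vofS x a) =
      (vofS ((SP.mk p q r).act x) ((SP.mk p q r).act a)).comp ic.1 := by decide +kernel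

lemma vof_mul (v : W) (x a : Lt) (h : x.1 ≠ a.1) :
    v * vof x a = vof (v • x) (v • a) ∨ v * vof x a = vof (v • x) (v • a) * ic :=
  (vofS_comp _ _ _ x a v.2 h).imp Subtype.ext Subtype.ext

def letters : List Lt := [x0, linv x0, x1, linv x1, x2, linv x2]

lemma letters_perm' : ∀ p q r : Lt, (SP.mk p q r).Valid →
    (letters.map (SP.mk p q r).act).Perm letters := by decide +kernel

lemma letters_perm (v : W) : (letters.map (v • ·)).Perm letters := letters_perm' _ _ _ v.2

def bits (b0 b1 b2 b3 b4 b5 : Bool) : Vx → Bool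
  | none => false
  | some x => if x.1 = 0 then (if x.2 then b0 else b1) else
      if x.1 = 1 then (if x.2 then b2 else b3) else (if x.2 then b4 else b5)

variable {T : Type*} [Group T]

def eT (g : W →* T) (e0 : T) (x a : Lt) : T :=
  if x.1 = a.1 then 1 else g (vof x a) * e0 * (g (vof x a))⁻¹

def fT (g : W →* T) (e0 : T) (A : Vx → Bool) (a : Lt) : T :=
  (letters.map fun x => if A (some x) then eT g e0 x a else 1).prod

/-- The finite list of relations to be checked in the target group. -/
structure Rels (g : W →* T) (e0 : T) : Prop where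
  r1 : g ic * e0 = e0 * g ic
  r2 : eT g e0 x1 (linv x0) * eT g e0 x1 x0 = 1
  r3 : ∀ x y, eT g e0 x x0 * eT g e0 y x0 = eT g e0 y x0 * eT g e0 x x0
  r4 : fT g e0 (fun _ => true) x0 = 1
  r5 : ∀ β γ δ γ' δ' : Bool, (γ && γ') = false → (δ && δ') = false →
    fT g e0 (bits false false true false γ' δ') x1 * fT g e0 (bits true false false β γ δ) x0 =
      fT g e0 (bits true false false β (γ || (β && γ')) (δ || (β && δ'))) x0 *
        fT g e0 (bits false false true false γ' δ') x1
  r6 : ∀ γ δ : Bool,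
    fT g e0 (bits false true true false γ δ) x1 * fT g e0 (bits true false true false γ δ) x0 =
      g w5 * fT g e0 (bits true false true false γ δ) x1

variable {g : W →* T} {e0 : T}

lemma Rels.equi (R : Rels g e0) (v : W) (x a : Lt) :
    eT g e0 (v • x) (v • a) = g v * eT g e0 x a * (g v)⁻¹ := by
  unfold eT
  by_cases h : x.1 = a.1
  · simp [h, (W.smul_fst_iff v x a).2 h]
  · rw [if_neg h, if_neg (mt (W.smul_fst_iff v x a).1 h)]
    have e : g v * (g (vof x a) * e0 * (g (vof x a))⁻¹) * (g v)⁻¹ =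
        g (v * vof x a) * e0 * (g (v * vof x a))⁻¹ := by rw [map_mul]; group
    rw [e]
    rcases vof_mul v x a h with h' | h' <;> rw [h']
    rw [map_mul, mul_assoc _ (g ic), R.r1]; group

lemma exists_smul (a : Lt) : ∃ v : W, v • x0 = a := by
  obtain ⟨b, _, h, _⟩ : ∃ b c : Fin 3, b ≠ a.1 ∧ c ≠ a.1 := by revert a; decide
  exact ⟨vof (b, true) a, (vof_smul _ _ h).1⟩

lemma Rels.comm (R : Rels g e0) (x y a : Lt) : Commute (eT g e0 x a) (eT g e0 y a) := by
  obtain ⟨v, rfl⟩ := exists_smul a
  rw [← smul_inv_smul v x, ← smul_inv_smul v y, R.equi, R.equi]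
  exact Commute.conj (R.r3 _ _) _

lemma Rels.e_linv (R : Rels g e0) (x a : Lt) : eT g e0 x (linv a) = (eT g e0 x a)⁻¹ := by
  by_cases h : x.1 = a.1
  · simp [eT, h]
  · obtain ⟨h1, h2⟩ := vof_smul x a h
    have e1 := R.equi (vof x a) x1 x0
    have e2 := R.equi (vof x a) x1 (linv x0)
    rw [W.smul_linv, h1, h2] at e2
    rw [h1, h2] at e1
    rw [e1, e2, eq_inv_of_mul_eq_one_left R.r2]; group

lemma prod_conj (u : T) (l : List T) : (l.map fun x => u * x * u⁻¹).prod = u * l.prod * u⁻¹ := by
  induction l with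
  | nil => simp
  | cons x l ih => rw [List.map_cons, List.prod_cons, List.prod_cons, ih]; group

lemma prod_mul_comm {α : Type*} (u w : α → T) (h : ∀ x y, Commute (u x) (w y)) (l : List α) :
    (l.map u).prod * (l.map w).prod = (l.map fun x => u x * w x).prod := by
  induction l with
  | nil => simp
  | cons x l ih =>
    have : Commute (l.map u).prod (w x) :=
      Commute.list_prod_left _ _ fun y hy => by
        obtain ⟨z, _, rfl⟩ := List.mem_map.1 hy
        exact h z x
    simp only [List.map_cons, List.prod_cons, ← ih]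
    rw [mul_assoc, ← mul_assoc _ (w x), this.eq]; group

lemma Rels.f_equi (R : Rels g e0) (v : W) (A : Vx → Bool) (a : Lt) :
    g v * fT g e0 (pull A v) a = fT g e0 A (v • a) * g v := by
  have h1 : fT g e0 A (v • a) = ((letters.map (v • ·)).map
      fun x => if A (some x) then eT g e0 x (v • a) else 1).prod := by
    refine (List.Perm.prod_eq' ((letters_perm v).map _) ?_).symm
    refine List.pairwise_of_forall_mem_list fun a ha b hb => ?_
    obtain ⟨x, _, rfl⟩ := List.mem_map.1 ha
    obtain ⟨y, _, rfl⟩ := List.mem_map.1 hb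
    split_ifs <;> simp [R.comm]
  rw [h1, ← mul_inv_eq_iff_eq_mul, fT, ← prod_conj, List.map_map, List.map_map]
  congr 1
  refine List.map_congr_left fun x _ => ?_
  simp only [Function.comp, pull_some]
  split_ifs <;> simp [R.equi]

lemma f_congr {A B : Vx → Bool} {a : Lt} (h : ∀ x : Lt, x.1 ≠ a.1 → A (some x) = B (some x)) :
    fT g e0 A a = fT g e0 B a := by
  unfold fT
  congr 1
  refine List.map_congr_left fun x _ => ?_
  by_cases hx : x.1 = a.1
  · simp [eT, hx]
  · rw [h x hx]

lemma Rels.f_mul (R : Rels g e0) {A B : Vx → Bool} (a : Lt) (h : ∀ y, A y = true → B y = false) :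
    fT g e0 B a * fT g e0 A a = fT g e0 (fun y => A y || B y) a := by
  unfold fT
  rw [prod_mul_comm]
  · congr 1
    refine List.map_congr_left fun x _ => ?_
    have := h (some x)
    cases h1 : A (some x) <;> cases h2 : B (some x) <;> simp_all
  · intro x y
    split_ifs <;> simp [R.comm]

lemma Rels.f_linv (R : Rels g e0) (A : Vx → Bool) (a : Lt) :
    fT g e0 A (linv a) * fT g e0 A a = 1 := by
  unfold fT
  rw [prod_mul_comm]
  · refine List.prod_eq_one fun y hy => ?_
    obtain ⟨x, _, rfl⟩ := List.mem_map.1 hy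
    split_ifs <;> simp [R.e_linv]
  · intro x y
    split_ifs <;> simp [R.comm, R.e_linv]

lemma Rels.f_all (R : Rels g e0) (a : Lt) : fT g e0 (fun _ => true) a = 1 := by
  obtain ⟨v, rfl⟩ := exists_smul a
  have := R.f_equi v (fun _ => true) x0
  have e : pull (fun _ => true) v = fun _ => true := rfl
  rw [e, R.r4] at this
  simpa using this.symm

lemma f_none (a : Lt) : fT g e0 (fun _ => false) a = 1 := by simp [fT]

lemma Rels.f_compl (R : Rels g e0) (A : Vx → Bool) (a : Lt) :
    fT g e0 (fun y => !A y) (linv a) = fT g e0 A a := by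
  have h1 := R.f_mul (A := A) (B := fun y => !A y) a (by simp)
  have h2 := R.f_linv (fun y => !A y) a
  simp only [Bool.or_not_self, R.f_all] at h1
  rw [eq_inv_of_mul_eq_one_left h2, eq_inv_of_mul_eq_one_right h1]

lemma aut_mul {A B : Vx → Bool} (a : Lt) (h : ∀ y, A y = true → B y = false) :
    aut B a * aut A a = aut (fun y => A y || B y) a := by
  refine aut_ext fun x => ?_
  simp only [MulAut.mul_apply, aut_apply]
  by_cases hx : x.1 = a.1
  · simp [whm_lt_eq _ _ _ hx]
  · simp only [whm_lt_ne _ _ _ hx, map_mul, map_inv, whm_pw B a a rfl]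
    have := h none
    have := h (some x)
    have := h (some (linv x))
    cases h1 : A none <;> cases h2 : A (some x) <;> cases h3 : A (some (linv x)) <;>
      cases h4 : B none <;> cases h5 : B (some x) <;> cases h6 : B (some (linv x)) <;>
      simp_all [mul_assoc]

lemma aut_const (s : Bool) (a : Lt) : aut (fun _ => s) a = 1 := by
  refine aut_ext fun x => ?_
  by_cases hx : x.1 = a.1
  · simp [whm_lt_eq _ _ _ hx]
  · simp [whm_lt_ne _ _ _ hx]

def til (A B : Vx → Bool) (b : Lt) : Vx → Bool :=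
  fun y => A y || (A (some (linv b)) && B y && decide (y ≠ some b))

def swp (A : Vx → Bool) (a : Lt) : Vx → Bool :=
  fun y => if y = some a then false else if y = some (linv a) then true else A y

lemma aut_rel2 {A B : Vx → Bool} (hA : Proper A x0) (hB : Proper B x1)
    (hd : ∀ y, A y = true → B y = false) (h1 : B (some (linv x0)) = false) :
    aut B x1 * aut A x0 = aut (til A B x1) x0 * aut B x1 := by
  have a1 := hd _ hA.1
  have a2 : A (some x1) = false := by
    cases h : A (some x1)
    · rfl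
    · exact hB.1.symm.trans (hd _ h)
  have b1 := hB.1
  have b2 := hB.2
  have n10 : x1.1 ≠ x0.1 := by decide
  have n20 : x2.1 ≠ x0.1 := by decide
  have n21 : x2.1 ≠ x1.1 := by decide
  have m1 : linv x1 ≠ x1 := by decide
  have m2 : x2 ≠ x1 := by decide
  have m3 : linv x2 ≠ x1 := by decide
  have := hd none
  have := hd (some x2)
  have := hd (some (linv x2))
  refine aut_ext' fun i => ?_
  simp only [MulAut.mul_apply, aut_apply]
  fin_cases i
  · show whm B x1 (whm A x0 (lt x0)) = whm (til A B x1) x0 (whm B x1 (lt x0))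
    cases h1 : A none <;> cases h2 : A (some (linv x1)) <;> cases h4 : B none <;>
      simp_all [whm_lt_eq _ x0 x0, whm_lt_ne _ x0 x1, whm_lt_ne _ x1 x0 n10.symm, til, mul_assoc]
  · show whm B x1 (whm A x0 (lt x1)) = whm (til A B x1) x0 (whm B x1 (lt x1))
    cases h1 : A none <;> cases h2 : A (some (linv x1)) <;> cases h4 : B none <;>
      simp_all [whm_lt_eq _ x1 x1, whm_lt_ne _ x0 x1, whm_lt_ne _ x1 x0 n10.symm, til, mul_assoc]
  · show whm B x1 (whm A x0 (lt x2)) = whm (til A B x1) x0 (whm B x1 (lt x2))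
    cases h1 : A none <;> cases h2 : A (some (linv x1)) <;> cases h4 : B none <;>
      cases h5 : A (some x2) <;> cases h6 : A (some (linv x2)) <;> cases h7 : B (some x2) <;>
      cases h8 : B (some (linv x2)) <;>
      simp_all [whm_lt_ne _ x0 x1, whm_lt_ne _ x1 x0 n10.symm, whm_lt_ne _ x0 x2,
        whm_lt_ne _ x1 x2, til, mul_assoc]

lemma aut_rel5 {A : Vx → Bool} (hA : Proper A x0) (hB : Proper A x1) :
    aut (swp A x0) x1 * aut A x0 = wa w5 * aut A x1 := by
  have a1 := hA.1
  have a2 := hA.2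
  have b1 := hB.1
  have b2 := hB.2
  have n10 : x1.1 ≠ x0.1 := by decide
  have n20 : x2.1 ≠ x0.1 := by decide
  have n21 : x2.1 ≠ x1.1 := by decide
  have m1 : linv x0 ≠ x0 := by decide
  have m2 : x2 ≠ x0 := by decide
  have m3 : linv x2 ≠ x0 := by decide
  have m4 : x2 ≠ linv x0 := by decide
  have m5 : linv x2 ≠ linv x0 := by decide
  have w0 : wa w5 (lt x0) = (lt x1)⁻¹ := by rw [wa_lt, ← lt_linv]; rfl
  have w1 : wa w5 (lt x1) = lt x0 := by rw [wa_lt]; rfl
  have w2 : wa w5 (lt x2) = lt x2 := by rw [wa_lt]; rfl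
  refine aut_ext' fun i => ?_
  simp only [MulAut.mul_apply, aut_apply]
  fin_cases i
  · show whm (swp A x0) x1 (whm A x0 (lt x0)) = wa w5 (whm A x1 (lt x0))
    cases h1 : A none <;>
      simp_all [whm_lt_eq _ x0 x0, whm_lt_ne _ x1 x0 n10.symm, swp, mul_assoc]
  · show whm (swp A x0) x1 (whm A x0 (lt x1)) = wa w5 (whm A x1 (lt x1))
    cases h1 : A none <;>
      simp_all [whm_lt_eq _ x1 x1, whm_lt_ne _ x0 x1, whm_lt_ne _ x1 x0 n10.symm, swp, mul_assoc]
  · show whm (swp A x0) x1 (whm A x0 (lt x2)) = wa w5 (whm A x1 (lt x2))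
    cases h1 : A none <;> cases h5 : A (some x2) <;> cases h6 : A (some (linv x2)) <;>
      simp_all [whm_lt_ne _ x1 x0 n10.symm, whm_lt_ne _ x0 x2, whm_lt_ne _ x1 x2, swp, mul_assoc]

def FF (g : W →* T) (e0 : T) (A : Vx → Bool) (a : Lt) : AF × T := (aut A a, fT g e0 A a)
def GG (g : W →* T) : W →* AF × T := wa.prod g

lemma Rels.FF_equi (R : Rels g e0) (v : W) (A : Vx → Bool) (a : Lt) :
    GG g v * FF g e0 (pull A v) a = FF g e0 A (v • a) * GG g v :=
  Prod.ext (wa_mul_aut v A a) (R.f_equi v A a)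

lemma Rels.FF_conj (R : Rels g e0) (v : W) (A : Vx → Bool) (a : Lt) :
    FF g e0 A (v • a) = GG g v * FF g e0 (pull A v) a * (GG g v)⁻¹ := by
  rw [R.FF_equi]; group

lemma Rels.FF_linv (R : Rels g e0) (A : Vx → Bool) (a : Lt) :
    FF g e0 A (linv a) * FF g e0 A a = 1 :=
  Prod.ext (aut_linv_mul A a) (R.f_linv A a)

lemma Rels.FF_mul (R : Rels g e0) {A B : Vx → Bool} (a : Lt) (h : ∀ y, A y = true → B y = false) :
    FF g e0 B a * FF g e0 A a = FF g e0 (fun y => A y || B y) a :=
  Prod.ext (aut_mul a h) (R.f_mul a h)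

lemma Rels.FF_compl (R : Rels g e0) (A : Vx → Bool) (a : Lt) :
    FF g e0 (fun y => !A y) (linv a) = FF g e0 A a :=
  Prod.ext (aut_compl A a) (R.f_compl A a)

lemma FF_congr {A B : Vx → Bool} {a : Lt} (h0 : A none = B none)
    (h : ∀ x : Lt, x.1 ≠ a.1 → A (some x) = B (some x)) : FF g e0 A a = FF g e0 B a :=
  Prod.ext (aut_congr h0 h) (f_congr h)

lemma Rels.FF_const (R : Rels g e0) (s : Bool) (a : Lt) : FF g e0 (fun _ => s) a = 1 := by
  refine Prod.ext (aut_const s a) ?_
  cases s
  · exact f_none a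
  · exact R.f_all a

lemma f_bits (A : Vx → Bool) (a : Lt) : fT g e0 A a =
    fT g e0 (bits (A (some x0)) (A (some (linv x0))) (A (some x1)) (A (some (linv x1)))
      (A (some x2)) (A (some (linv x2)))) a := by
  refine f_congr fun x _ => ?_
  obtain ⟨i, s⟩ := x
  fin_cases i <;> cases s <;> rfl

lemma Rels.rel2 (R : Rels g e0) {A B : Vx → Bool} {a b : Lt} (hA : Proper A a) (hB : Proper B b)
    (hd : ∀ y, A y = true → B y = false) (h1 : B (some (linv a)) = false) (hab : a.1 ≠ b.1) :
    ∃ C, FF g e0 B b * FF g e0 A a = FF g e0 C a * FF g e0 B b := by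
  obtain ⟨e1, e2⟩ := vof_smul b a hab.symm
  generalize vof b a = v at e1 e2
  subst e1 e2
  have hA' : Proper (pull A v) x0 := by simpa [Proper, W.smul_linv] using hA
  have hB' : Proper (pull B v) x1 := by simpa [Proper, W.smul_linv] using hB
  have hd' : ∀ y, pull A v y = true → pull B v y = false := fun y => hd _
  have h1' : pull B v (some (linv x0)) = false := by simpa [W.smul_linv] using h1
  have key : FF g e0 (pull B v) x1 * FF g e0 (pull A v) x0 =
      FF g e0 (til (pull A v) (pull B v) x1) x0 * FF g e0 (pull B v) x1 := by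
    refine Prod.ext (aut_rel2 hA' hB' hd' h1') ?_
    generalize pull A v = A' at *
    generalize pull B v = B' at *
    have a1 := hd' _ hA'.1
    have a2 : A' (some x1) = false := by
      cases h : A' (some x1)
      · rfl
      · exact hB'.1.symm.trans (hd' _ h)
    have := R.r5 (A' (some (linv x1))) (A' (some x2)) (A' (some (linv x2))) (B' (some x2))
      (B' (some (linv x2))) (by simpa using hd' _) (by simpa using hd' _)
    show fT g e0 B' x1 * fT g e0 A' x0 = fT g e0 (til A' B' x1) x0 * fT g e0 B' x1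
    rw [f_bits A', f_bits B', f_bits (til A' B' x1)]
    have m1 : linv x1 ≠ x1 := by decide
    have m2 : x2 ≠ x1 := by decide
    have m3 : linv x2 ≠ x1 := by decide
    simpa [til, hA'.1, hA'.2, hB'.1, hB'.2, a1, a2, h1', m1, m2, m3] using this
  refine ⟨pull (til (pull A v) (pull B v) x1) v⁻¹, ?_⟩
  have e : ∀ C, pull (pull C v⁻¹) v = C := by
    intro C; funext y; cases y <;> simp
  rw [R.FF_conj v B, R.FF_conj v A, R.FF_conj v (pull _ _), e]
  calc _ = GG g v * (FF g e0 (pull B v) x1 * FF g e0 (pull A v) x0) * (GG g v)⁻¹ := by group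
    _ = _ := by rw [key]; group

lemma Rels.rel5 (R : Rels g e0) {A : Vx → Bool} {a b : Lt} (hA : Proper A a) (hB : Proper A b)
    (hab : a.1 ≠ b.1) :
    ∃ C w, FF g e0 C b * FF g e0 A a = GG g w * FF g e0 A b := by
  obtain ⟨e1, e2⟩ := vof_smul b a hab.symm
  generalize vof b a = v at e1 e2
  subst e1 e2
  have hA' : Proper (pull A v) x0 := by simpa [Proper, W.smul_linv] using hA
  have hB' : Proper (pull A v) x1 := by simpa [Proper, W.smul_linv] using hB
  have key : FF g e0 (swp (pull A v) x0) x1 * FF g e0 (pull A v) x0 =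
      GG g w5 * FF g e0 (pull A v) x1 := by
    refine Prod.ext (aut_rel5 hA' hB') ?_
    generalize pull A v = A' at *
    have := R.r6 (A' (some x2)) (A' (some (linv x2)))
    show fT g e0 (swp A' x0) x1 * fT g e0 A' x0 = g w5 * fT g e0 A' x1
    rw [f_bits A' x0, f_bits A' x1, f_bits (swp A' x0)]
    have m1 : linv x0 ≠ x0 := by decide
    have m2 : x2 ≠ x0 := by decide
    have m3 : linv x2 ≠ x0 := by decide
    have m4 : x2 ≠ linv x0 := by decide
    have m5 : linv x2 ≠ linv x0 := by decide
    have m6 : x1 ≠ x0 := by decide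
    have m7 : linv x1 ≠ x0 := by decide
    have m8 : x1 ≠ linv x0 := by decide
    have m9 : linv x1 ≠ linv x0 := by decide
    simpa [swp, hA'.1, hA'.2, hB'.1, hB'.2, m1, m2, m3, m4, m5, m6, m7, m8, m9] using this
  refine ⟨pull (swp (pull A v) x0) v⁻¹, v * w5 * v⁻¹, ?_⟩
  have e : ∀ C, pull (pull C v⁻¹) v = C := by
    intro C; funext y; cases y <;> simp
  rw [R.FF_conj v A, R.FF_conj v A, R.FF_conj v (pull _ _), e, map_mul, map_mul, map_inv]
  calc _ = GG g v * (FF g e0 (swp (pull A v) x0) x1 * FF g e0 (pull A v) x0) * (GG g v)⁻¹ := by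
        group
    _ = _ := by rw [key]; group

end Pool.Agent.MP_6bf536_al
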