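import Mathlib.Algebra.Torsor.Defs
import Mathlib.Algebra.Ring.PUnit
import Pool.Agent.MP_6bf536_al.Fold
import Pool.Agent.MP_6bf536_al.Rels

/-!
Peak reduction: a homomorphism out of the automorphism group exists as soon as the finitely many
relations of `Rels` hold in the target.
-/

set_option autoImplicit false

namespace Pool.Agent.MP_6bf536_al

open FreeGroup hiding map_mul map_inv map_one

variable {T : Type*} [Group T]

def Dec (φ : AF) : Prop := ∃ m : (Vx → Bool) × Lt, len (aut m.1 m.2 * φ) < len φ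

open Classical in
noncomputable def Phi (g : W →* T) (e0 : T) (φ : AF) : T :=
  if h : Dec φ then (fT g e0 h.choose.1 h.choose.2)⁻¹ * Phi g e0 (aut h.choose.1 h.choose.2 * φ)
  else g (Function.invFun wa φ)
termination_by len φ
decreasing_by exact h.choose_spec

noncomputable def val (g : W →* T) (e0 : T) (φ : AF) (P : AF × T) : T :=
  P.2⁻¹ * Phi g e0 (P.1 * φ)

def Ok (g : W →* T) (e0 : T) (φ : AF) (P : AF × T) : Prop := val g e0 φ P = Phi g e0 φ

variable {g : W →* T} {e0 : T}

lemma val_mul {φ : AF} {P Q : AF × T} (h : Ok g e0 (P.1 * φ) Q) :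
    val g e0 φ (Q * P) = val g e0 φ P := by
  unfold Ok val at *
  rw [← h, Prod.fst_mul, Prod.snd_mul, mul_assoc Q.1]; group

lemma Ok.one (φ : AF) : Ok g e0 φ 1 := by simp [Ok, val]

lemma three_le_len (φ : AF) : 3 ≤ len φ := by
  have : ∀ i, 1 ≤ (φ (of i)).norm := fun i => by
    rw [Nat.one_le_iff_ne_zero, Ne, FreeGroup.norm_eq_zero, MulEquiv.map_eq_one_iff]
    exact of_ne_one i
  have := Finset.sum_le_sum fun i (_ : i ∈ Finset.univ) => this i
  simpa [len] using this

lemma len_one : len 1 = 3 := by simp [len]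

lemma len_wa (v : W) : len (wa v) = 3 := by
  have := len_wa_mul v 1
  rwa [mul_one, len_one] at this

lemma Phi_wa (v : W) : Phi g e0 (wa v) = g v := by
  have : ¬ Dec (wa v) := by
    rintro ⟨m, h⟩
    have := three_le_len (aut m.1 m.2 * wa v)
    rw [len_wa] at h
    omega
  rw [Phi, dif_neg this, Function.leftInverse_invFun wa_injective]

def nrm (A : Vx → Bool) (a : Lt) : Vx → Bool :=
  fun y => if y = some a then true else if y = some (linv a) then false else A y

lemma nrm_proper (A : Vx → Bool) (a : Lt) : Proper (nrm A a) a := by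
  simp [Proper, nrm, linv_ne]

lemma FF_nrm (A : Vx → Bool) (a : Lt) : FF g e0 (nrm A a) a = FF g e0 A a := by
  refine FF_congr (by simp [nrm]) fun x hx => ?_
  have e1 : x ≠ a := fun e => hx (by rw [e])
  have e2 : x ≠ linv a := fun e => hx (by rw [e]; rfl)
  simp [nrm, e1, e2]

lemma aut_nrm (A : Vx → Bool) (a : Lt) : aut (nrm A a) a = aut A a :=
  congrArg Prod.fst (FF_nrm (T := Unit) (g := 1) (e0 := ()) A a)

lemma exists_dec {φ : AF} (h : Dec φ) :
    ∃ B b, Proper B b ∧ len (aut B b * φ) < len φ ∧ Ok g e0 φ (FF g e0 B b) := by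
  refine ⟨nrm h.choose.1 h.choose.2, h.choose.2, nrm_proper _ _, ?_, ?_⟩
  · rw [aut_nrm]; exact h.choose_spec
  · rw [FF_nrm, Ok]
    conv_rhs => rw [Phi, dif_pos h]
    rfl

lemma star : ∀ (n b0 b1 b2 b3 b4 b5 : Bool) (a x : Lt),
    bits b0 b1 b2 b3 b4 b5 (some a) = true → bits b0 b1 b2 b3 b4 b5 (some (linv a)) = false →
    (if n = b1 then 0 else 1) + (if b0 = n then 0 else 1) +
      ((if n = b3 then 0 else 1) + (if b2 = n then 0 else 1)) +
      ((if n = b5 then 0 else 1) + (if b4 = n then 0 else 1)) ≤ 1 →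
    x.1 ≠ a.1 → bits b0 b1 b2 b3 b4 b5 (some x) = n := by decide +kernel

lemma bits_eta (A : Vx → Bool) (x : Lt) : bits (A (some x0)) (A (some (linv x0))) (A (some x1))
    (A (some (linv x1))) (A (some x2)) (A (some (linv x2))) (some x) = A (some x) := by
  obtain ⟨i, s⟩ := x
  fin_cases i <;> cases s <;> rfl

lemma Rels.FF_trivial (R : Rels g e0) {A : Vx → Bool} {a : Lt} (hA : Proper A a)
    (h : len (aut A a) ≤ 3) : FF g e0 A a = 1 := by
  have h1 := len_aut hA 1
  have h2 : deg 1 a.1 = 1 := by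
    simp only [deg, MulAut.one_apply, toWord_of, cnt]
    generalize a.1 = j
    revert j; decide
  rw [mul_one, h2, len_one] at h1
  have h3 : cap 1 A ≤ 1 := by omega
  simp only [cap, gsum, MulAut.one_apply, toWord_of, gs, Fin.sum_univ_three, sep] at h3
  rw [← R.FF_const (A none) a]
  refine FF_congr rfl fun x hx => ?_
  rw [← bits_eta A x]
  exact star _ _ _ _ _ _ _ a x (by rw [bits_eta]; exact hA.1) (by rw [bits_eta]; exact hA.2) h3 hx

structure Hyp (g : W →* T) (e0 : T) (N M : ℕ) : Prop where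
  mv : ∀ ψ C c, len ψ ≤ M → len (aut C c * ψ) < N → Ok g e0 ψ (FF g e0 C c)
  sp : ∀ ψ v, len ψ < N → Ok g e0 ψ (GG g v)
  le : N ≤ M + 1

section

variable (R : Rels g e0) {N M : ℕ} (H : Hyp g e0 N M) {φ : AF} (hN : len φ = N)
include R H

lemma dj1 {A B : Vx → Bool} {a : Lt} (hd : ∀ y, A y = true → B y = false)
    (h1 : len (aut A a * φ) ≤ M) (h2 : len (aut B (linv a) * φ) < N) :
    val g e0 φ (FF g e0 A a) = val g e0 φ (FF g e0 B (linv a)) := by
  have e : FF g e0 (fun y => A y || B y) (linv a) * FF g e0 A a = FF g e0 B (linv a) := by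
    rw [← R.FF_mul _ hd, mul_assoc, R.FF_linv, mul_one]
  rw [← e, val_mul]
  refine H.mv _ _ _ h1 ?_
  have e' : aut (fun y => A y || B y) (linv a) * aut A a = aut B (linv a) := congrArg Prod.fst e
  show len (aut _ _ * (aut A a * φ)) < N
  rwa [← mul_assoc, e']

include hN

lemma dj2 {A B : Vx → Bool} {a b : Lt} (hA : Proper A a) (hB : Proper B b)
    (hd : ∀ y, A y = true → B y = false) (h0 : B (some (linv a)) = false)
    (h1 : len (aut A a * φ) ≤ M) (h2 : len (aut B b * φ) ≤ M)
    (h3 : len (aut A a * φ) + len (aut B b * φ) < 2 * N) :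
    val g e0 φ (FF g e0 A a) = val g e0 φ (FF g e0 B b) := by
  have hab : a.1 ≠ b.1 := by
    intro e
    rcases eq_or_eq_linv e with rfl | rfl
    · have := hd _ hA.1
      rw [hB.1] at this; simp at this
    · rw [linv_linv, hB.1] at h0; simp at h0
  obtain ⟨C, hC⟩ := R.rel2 hA hB hd h0 hab
  have e' : aut B b * aut A a = aut C a * aut B b := congrArg Prod.fst hC
  have l1 := len_two hA hB hd h0 hab φ
  have l2 := len_aut hA φ
  have l3 := len_aut hB φ
  have l4 : len (aut B b * aut A a * φ) < N := by omega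
  rw [← val_mul (P := FF g e0 A a) (Q := FF g e0 B b), hC, val_mul]
  · refine H.mv _ _ _ h2 ?_
    show len (aut _ _ * (aut B b * φ)) < N
    rwa [← mul_assoc, ← e']
  · refine H.mv _ _ _ h1 ?_
    show len (aut _ _ * (aut A a * φ)) < N
    rwa [← mul_assoc]

omit hN in
lemma dj3 {A B : Vx → Bool} {a b : Lt} (hA : Proper A a) (hA' : Proper A (linv b))
    (hd : ∀ y, A y = true → B y = false) (hab : a.1 ≠ b.1)
    (h1 : len (aut A a * φ) ≤ M) (h2 : len (aut B b * φ) ≤ M)
    (h3 : len (aut A (linv b) * φ) < N) :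
    val g e0 φ (FF g e0 A a) = val g e0 φ (FF g e0 B b) := by
  have hd' : ∀ y, B y = true → A y = false := fun y h => by
    cases h' : A y
    · rfl
    · exact h.symm.trans (hd y h')
  rw [dj1 R H hd' h2 h3]
  obtain ⟨C, w, hC⟩ := R.rel5 hA hA' hab
  have e' : aut C (linv b) * aut A a = wa w * aut A (linv b) := congrArg Prod.fst hC
  rw [← val_mul (P := FF g e0 A a) (Q := FF g e0 C (linv b)), hC, val_mul]
  · exact H.sp _ _ h3
  · refine H.mv _ _ _ h1 ?_
    show len (aut _ _ * (aut A a * φ)) < N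
    rwa [← mul_assoc, e', mul_assoc, len_wa_mul]

lemma dj {A B : Vx → Bool} {a b : Lt} (hA : Proper A a) (hB : Proper B b)
    (hd : ∀ y, A y = true → B y = false)
    (h1 : len (aut A a * φ) ≤ M) (h2 : len (aut B b * φ) ≤ M)
    (h3 : len (aut A a * φ) + len (aut B b * φ) < 2 * N) :
    val g e0 φ (FF g e0 A a) = val g e0 φ (FF g e0 B b) := by
  have hd' : ∀ y, B y = true → A y = false := fun y h => by
    cases h' : A y
    · rfl
    · exact h.symm.trans (hd y h')
  cases c1 : B (some (linv a))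
  · exact dj2 R H hN hA hB hd c1 h1 h2 h3
  cases c2 : A (some (linv b))
  · exact (dj2 R H hN hB hA hd' c2 h2 h1 (by omega)).symm
  by_cases hab : a.1 = b.1
  · rcases eq_or_eq_linv hab with rfl | rfl
    · have := hd _ hA.1
      rw [hB.1] at this; simp at this
    · by_cases c : len (aut A (linv b) * φ) < N
      · exact (dj1 R H hd' h2 c).symm
      · have := dj1 R H (a := linv b) hd h1 (by rw [linv_linv]; omega)
        rwa [linv_linv] at this
  have hA' : Proper A (linv b) := ⟨c2, by rw [linv_linv]; exact hd' _ hB.1⟩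
  have hB' : Proper B (linv a) := ⟨c1, by rw [linv_linv]; exact hd _ hA.1⟩
  have l1 := len_aut hA φ
  have l2 := len_aut hB φ
  have l3 := len_aut hA' φ
  have l4 := len_aut hB' φ
  rw [linv_fst] at l3 l4
  by_cases c : len (aut A (linv b) * φ) < N
  · exact dj3 R H hA hA' hd hab h1 h2 c
  · exact (dj3 R H hB hB' hd' (Ne.symm hab) h2 h1 (by omega)).symm

lemma side {A Q : Vx → Bool} {a q : Lt} (hA : Proper A a) (hQ : Proper Q q) (s : Bool)
    (hd : ∀ y, Q y = true → A y = s) (h1 : len (aut A a * φ) ≤ M) (h1' : len (aut A a * φ) ≤ N)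
    (h2 : len (aut Q q * φ) < N) :
    val g e0 φ (FF g e0 Q q) = val g e0 φ (FF g e0 A a) := by
  have := H.le
  cases s
  · exact dj R H hN hQ hA hd (by omega) h1 (by omega)
  · rw [← R.FF_compl A a]
    refine dj R H hN hQ (by simpa [Proper] using hA.symm) (by simpa using hd) (by omega) ?_ ?_
    · rwa [aut_compl]
    · rw [aut_compl]; omega

lemma peak {A B : Vx → Bool} {a b : Lt} (hA : Proper A a) (hB : Proper B b)
    (h1 : len (aut A a * φ) ≤ M) (h1' : len (aut A a * φ) ≤ N) (h2 : len (aut B b * φ) < N) :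
    val g e0 φ (FF g e0 A a) = val g e0 φ (FF g e0 B b) := by
  have := H.le
  let Q : Bool → Bool → Vx → Bool := fun s t y => (A y == s) && (B y == t)
  have key : ∃ s t q, Proper (Q s t) q ∧ len (aut (Q s t) q * φ) < N := by
    have p1 : Proper (Q true (B (some a))) a := by simp [Proper, Q, hA.1, hA.2]
    have p2 : Proper (Q false (B (some (linv a)))) (linv a) := by simp [Proper, Q, hA.1, hA.2]
    have p3 : Proper (Q (A (some b)) true) b := by simp [Proper, Q, hB.1, hB.2]
    have p4 : Proper (Q (A (some (linv b))) false) (linv b) := by simp [Proper, Q, hB.1, hB.2]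
    by_contra hc
    push Not at hc
    have q1 := hc _ _ _ p1
    have q2 := hc _ _ _ p2
    have q3 := hc _ _ _ p3
    have q4 := hc _ _ _ p4
    have l1 := len_aut p1 φ
    have l2 := len_aut p2 φ
    have l3 := len_aut p3 φ
    have l4 := len_aut p4 φ
    have l5 := len_aut hA φ
    have l6 := len_aut hB φ
    rw [linv_fst] at l2 l4
    have c1 : cap φ (Q true true) + cap φ (Q false false) ≤ cap φ A + cap φ B := by
      simpa [Q] using cap_quad φ A B
    have c2 : cap φ (Q true false) + cap φ (Q false true) ≤ cap φ A + cap φ B := by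
      simpa [Q, cap_compl] using cap_quad φ A fun y => !B y
    generalize len (aut (Q true (B (some a))) a * φ) = n1 at *
    generalize len (aut (Q false (B (some (linv a)))) (linv a) * φ) = n2 at *
    generalize len (aut (Q (A (some b)) true) b * φ) = n3 at *
    generalize len (aut (Q (A (some (linv b))) false) (linv b) * φ) = n4 at *
    revert l1 l2 l3 l4
    cases B (some a) <;> cases B (some (linv a)) <;> cases A (some b) <;>
      cases A (some (linv b)) <;> omega
  obtain ⟨s, t, q, hq, hl⟩ := key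
  rw [← side R H hN hA hq s (by simp [Q]; tauto) h1 h1' hl,
    ← side R H hN hB hq t (by simp [Q]) (by omega) (by omega) hl]

end

def Lv (g : W →* T) (e0 : T) (N : ℕ) : Prop :=
  (∀ φ A a, len φ < N → len (aut A a * φ) < N → Ok g e0 φ (FF g e0 A a)) ∧
    ∀ φ v, len φ < N → Ok g e0 φ (GG g v)

lemma Rels.step (R : Rels g e0) {N : ℕ} (L : Lv g e0 N) : Lv g e0 (N + 1) := by
  have H2 : ∀ ψ C c, len ψ ≤ N → len (aut C c * ψ) < N → Ok g e0 ψ (FF g e0 C c) := by
    intro φ A a h1 h2
    rcases h1.lt_or_eq with h1 | h1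
    · exact L.1 φ A a h1 h2
    have H : Hyp g e0 N (N - 1) := ⟨fun ψ C c a b => L.1 ψ C c (by omega) b, L.2, by omega⟩
    obtain ⟨B, b, hB, l, o⟩ := exists_dec (g := g) (e0 := e0) (φ := φ) ⟨(A, a), by simpa [h1]⟩
    rw [← FF_nrm]
    refine (peak R H h1 (nrm_proper A a) hB ?_ ?_ (by omega)).trans o <;> rw [aut_nrm] <;> omega
  have H : Hyp g e0 N N := ⟨H2, L.2, by omega⟩
  refine ⟨fun φ A a h1 h2 => ?_, fun φ v h1 => ?_⟩
  · rcases (Nat.lt_succ_iff.1 h2).lt_or_eq with h2 | h2
    · exact H2 φ A a (by omega) h2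
    rcases (Nat.lt_succ_iff.1 h1).lt_or_eq with h1 | h1
    · have := H2 (aut A a * φ) A (linv a) h2.le (by rwa [← mul_assoc, aut_linv_mul, one_mul])
      have := val_mul (P := FF g e0 A a) this
      rw [R.FF_linv] at this
      exact this.symm.trans (Ok.one φ)
    rw [← FF_nrm]
    rcases gen φ with ⟨v, rfl⟩ | ⟨B, b, h⟩
    · rw [R.FF_trivial (nrm_proper A a)]
      · exact Ok.one _
      · rw [len_mul_wa, ← h1, len_wa] at h2
        rw [aut_nrm, h2]
    · obtain ⟨B, b, hB, l, o⟩ := exists_dec (g := g) (e0 := e0) (φ := φ) ⟨(B, b), h⟩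
      refine (peak R H h1 (nrm_proper A a) hB ?_ ?_ (by omega)).trans o <;> rw [aut_nrm] <;> omega
  · rcases gen φ with ⟨u, rfl⟩ | ⟨B, b, h⟩
    · show (g v)⁻¹ * Phi g e0 (wa v * wa u) = _
      rw [← map_mul, Phi_wa, Phi_wa, map_mul, inv_mul_cancel_left]
    · have e : pull (pull B v⁻¹) v = B := by
        funext y; cases y <;> simp
      have h3 := R.FF_equi v (pull B v⁻¹) b
      rw [e] at h3
      have e' : wa v * aut B b = aut (pull B v⁻¹) (v • b) * wa v := congrArg Prod.fst h3
      have o1 : Ok g e0 φ (FF g e0 B b) := H2 φ B b (by omega) (by omega)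
      rw [Ok, ← val_mul (P := GG g v) (Q := FF g e0 (pull B v⁻¹) (v • b)), ← h3, val_mul, o1]
      · exact L.2 _ _ (by show len (aut B b * φ) < N; omega)
      · refine H2 _ _ _ ?_ ?_
        · show len (wa v * φ) ≤ N
          rw [len_wa_mul]; omega
        · show len (aut _ _ * (wa v * φ)) < N
          rw [← mul_assoc, ← e', mul_assoc, len_wa_mul]; omega

lemma Rels.lv (R : Rels g e0) (N : ℕ) : Lv g e0 N := by
  induction N with
  | zero => exact ⟨fun _ _ _ h => by omega, fun _ _ h => by omega⟩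
  | succ N ih => exact R.step ih

theorem gen_ind (P : AF → Prop) (h0 : ∀ v, P (wa v)) (h1 : ∀ A a φ, P φ → P (aut A a * φ))
    (φ : AF) : P φ := by
  induction h : len φ using Nat.strong_induction_on generalizing φ with
  | _ n ih =>
    rcases gen φ with ⟨v, rfl⟩ | ⟨A, a, hl⟩
    · exact h0 v
    · have := h1 A (linv a) _ (ih _ (h ▸ hl) _ rfl)
      rwa [← mul_assoc, aut_linv_mul, one_mul] at this

theorem Rels.exists_hom (R : Rels g e0) :
    ∃ Φ : AF →* T, (∀ A a, Φ (aut A a) = fT g e0 A a) ∧ ∀ v, Φ (wa v) = g v := by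
  have h1 : ∀ φ A a, Phi g e0 (aut A a * φ) = fT g e0 A a * Phi g e0 φ := by
    intro φ A a
    have := (R.lv (len φ + len (aut A a * φ) + 1)).1 φ A a (by omega) (by omega)
    rw [← this]; simp [val, FF]
  have h2 : ∀ φ v, Phi g e0 (wa v * φ) = g v * Phi g e0 φ := by
    intro φ v
    have := (R.lv (len φ + 1)).2 φ v (by omega)
    rw [← this]; simp [val, GG]
  have h3 : Phi g e0 1 = 1 := by
    have := Phi_wa (g := g) (e0 := e0) 1
    simpa using this
  have h4 : ∀ ψ φ, Phi g e0 (ψ * φ) = Phi g e0 ψ * Phi g e0 φ := by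
    intro ψ φ
    induction ψ using gen_ind with
    | h0 v => rw [h2, Phi_wa]
    | h1 A a ψ ih => rw [mul_assoc, h1, h1, ih, mul_assoc]
  refine ⟨⟨⟨Phi g e0, h3⟩, h4⟩, fun A a => ?_, fun v => Phi_wa v⟩
  have := h1 1 A a
  rwa [mul_one, h3, mul_one] at this

end Pool.Agent.MP_6bf536_al
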