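import Pool.Agent.MP_6bf536_al.Peak
import Pool.Agent.MP_6bf536_al.Faith
import Pool.Agent.MP_6bf536_al.ChkA
import Pool.Agent.MP_6bf536_al.ChkB
import Pool.Agent.MP_6bf536_al.ChkC

/-!
The representation of the automorphism group and the computation of its kernel.
-/

set_option autoImplicit false

namespace Pool.Agent.MP_6bf536_al

open FreeGroup hiding map_mul map_inv map_one

abbrev Mat := Matrix (Fin 21) (Fin 21) ℂ
abbrev U := Fin 16 → Mat

noncomputable def Ad (g : GL21) : Module.End ℂ Mat :=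
  (LinearMap.mulLeft ℂ (g : Mat)).comp (LinearMap.mulRight ℂ ((g⁻¹ : GL21) : Mat))

lemma Ad_apply (g : GL21) (X : Mat) : Ad g X = g * (X * (g⁻¹ : GL21)) := rfl

lemma Ad_mul (g h : GL21) (X : Mat) : Ad (g * h) X = Ad g (Ad h X) := by
  simp only [Ad_apply, mul_inv_rev, Units.val_mul, mul_assoc]

lemma Ad_one (X : Mat) : Ad 1 X = X := by simp [Ad_apply]

lemma Ad_center {g : GL21} (h : g ∈ Subgroup.center GL21) (X : Mat) : Ad g X = X := by
  obtain ⟨c, hc⟩ := Matrix.GeneralLinearGroup.mem_center_iff_val_mem_range_scalar.1 h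
  rw [Ad_apply, ← mul_assoc, ← hc, (Matrix.scalar_commute c (fun _ => Commute.all _ _) X).eq, hc,
    mul_assoc, Units.mul_inv, mul_one]

lemma center_of_Ad {g : GL21} (h : ∀ X, Ad g X = X) : g ∈ Subgroup.center GL21 := by
  rw [Subgroup.mem_center_iff]
  intro u
  ext1
  have := congrArg (· * (g : Mat)) (h u)
  simp only [Ad_apply, mul_assoc, Units.inv_mul, mul_one] at this
  exact this.symm

noncomputable def rep (x : TW) : Module.End ℂ U :=
  LinearMap.pi fun c => (Ad (ev sGL (x.b c))).comp (LinearMap.proj (x.p c))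

lemma rep_apply (x : TW) (f : U) (c : Fin 16) : rep x f c = Ad (ev sGL (x.b c)) (f (x.p c)) := rfl

lemma rep_mul (x y : TW) : rep (x.mul y) = rep x * rep y := by
  refine LinearMap.ext fun f => funext fun c => ?_
  rw [Module.End.mul_apply, rep_apply, rep_apply, rep_apply, ← Ad_mul, ← ev_append]
  rfl

lemma rep_one : rep TW.one = 1 := by
  refine LinearMap.ext fun f => funext fun c => ?_
  exact Ad_one _

lemma chk_Ad {v w : List BL} (h : chk (v ++ binv w) = true) (X : Mat) :
    Ad (ev sGL v) X = Ad (ev sGL w) X := by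
  obtain ⟨k, hk⟩ := chk_sound isBraid_sGL h
  have h1 : ev sGL (v ++ binv w) ∈ Subgroup.center GL21 :=
    hk ▸ zpow_mem (d2_center (MonoidHom.id _) fun _ => rfl) k
  rw [ev_append, ev_binv] at h1
  rw [← Ad_center h1 (Ad (ev sGL w) X), ← Ad_mul, inv_mul_cancel_right]

lemma eqT_sound {x y : TW} (h : eqT x y = true) : rep x = rep y := by
  refine LinearMap.ext fun f => funext fun c => ?_
  simp only [eqT, List.all_eq_true, List.mem_finRange, true_imp_iff, Bool.and_eq_true,
    beq_iff_eq] at h
  rw [rep_apply, rep_apply, (h c).1, chk_Ad (h c).2]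

def scW (c : Fin 16) : W := ⟨sc c, sc_valid c⟩
def rpW (k : Fin 3) : W := ⟨rp k, rp_valid k⟩

lemma dec_W (u : W) : rpW (dec u.1).1 * scW (dec u.1).2 = u := Subtype.ext (dec_spec _ _ _ u.2)

lemma rep_gT_mul (v w : W) : rep (gT (v * w).1) = rep (gT v.1) * rep (gT w.1) := by
  rw [← rep_mul]
  refine LinearMap.ext fun f => funext fun c => ?_
  have h1 := dec_W (scW c * v)
  have h2 := dec_W (scW (dec (scW c * v).1).2 * w)
  have h3 : scW c * (v * w) = rpW ((dec (scW c * v).1).1 + (dec (scW (dec (scW c * v).1).2 * w).1).1) *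
      scW (dec (scW (dec (scW c * v).1).2 * w).1).2 := by
    have : ∀ k k', rpW (k + k') = rpW k * rpW k' := fun k k' => Subtype.ext (rp_add k k').symm
    rw [this, mul_assoc, h2, ← mul_assoc, ← mul_assoc, h1]
  have h4 : dec (scW c * (v * w)).1 = _ := (congrArg (fun u : W => dec u.1) h3).trans (dec_uniq _ _)
  rw [rep_apply, rep_apply]
  show Ad (ev sGL (rw3 (dec (scW c * (v * w)).1).1)) (f (dec (scW c * (v * w)).1).2) = _
  rw [h4]
  exact (chk_Ad (rw3_add _ _) _).symm

lemma c_one : eqT (gT SP.one) TW.one = true := by decide +kernel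

abbrev TT := (Module.End ℂ U)ˣ

noncomputable def gE : W →* Module.End ℂ U where
  toFun v := rep (gT v.1)
  map_one' := (eqT_sound c_one).trans rep_one
  map_mul' := rep_gT_mul

noncomputable def gU : W →* TT := gE.toHomUnits

noncomputable def eU : TT where
  val := rep e0W
  inv := rep (eW x1 (linv x0))
  val_inv := by rw [← rep_mul, eqT_sound c0a, rep_one]
  inv_val := by rw [← rep_mul, eqT_sound c0b, rep_one]

lemma gU_val (v : W) : (gU v : Module.End ℂ U) = rep (gT v.1) := rfl

lemma eU_val : (eU : Module.End ℂ U) = rep e0W := rfl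

lemma eT_val (x a : Lt) : (eT gU eU x a : TT) = rep (eW x a) := by
  unfold eT eW
  split_ifs
  · exact rep_one.symm
  · rw [← map_inv, rep_mul, rep_mul]; rfl

lemma fT_val (A : Vx → Bool) (a : Lt) : (fT gU eU A a : TT) = rep (fW A a) := by
  unfold fT fW
  induction letters with
  | nil => exact rep_one.symm
  | cons x l ih =>
    rw [List.map_cons, List.map_cons, List.prod_cons, TW.prod, rep_mul, Units.val_mul, ih]
    split_ifs
    · rw [eT_val]
    · rw [rep_one]; rfl

lemma lidx_inj : ∀ x y : Lt, lidx x = lidx y → x = y := by decide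

theorem rels : Rels gU eU where
  r1 := Units.ext (by simpa only [rep_mul, Units.val_mul, gU_val, eU_val] using eqT_sound c1)
  r2 := Units.ext (by simpa only [rep_mul, rep_one, ← eT_val, Units.val_mul, Units.val_one] using eqT_sound c2)
  r3 x y := by
    rcases lt_trichotomy (lidx x) (lidx y) with h | h | h
    · exact Units.ext (by simpa only [rep_mul, ← eT_val, Units.val_mul] using eqT_sound (c3 x y h))
    · rw [lidx_inj x y h]
    · exact Units.ext (by simpa only [rep_mul, ← eT_val, Units.val_mul] using (eqT_sound (c3 y x h)).symm)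
  r4 := Units.ext (by simpa only [rep_one, ← fT_val, Units.val_one] using eqT_sound c4)
  r5 β γ δ γ' δ' h1 h2 := by
    cases β
    · exact Units.ext (by simpa only [rep_mul, ← fT_val, Units.val_mul, gU_val] using eqT_sound (c5a γ δ γ' δ' h1 h2))
    · exact Units.ext (by simpa only [rep_mul, ← fT_val, Units.val_mul, gU_val] using eqT_sound (c5b γ δ γ' δ' h1 h2))
  r6 γ δ := Units.ext (by simpa only [rep_mul, ← fT_val, Units.val_mul, gU_val] using eqT_sound (c6 γ δ))

/-! Detection of the outer class -/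

def Dt (φ : AF) (x : TW) : Prop :=
  ∀ c, Eqv (sem (xL c)) (ev (sH F) (x.b c) (φ ∘ sem (xL (x.p c))))

lemma Dt.mul {φ ψ : AF} {x y : TW} (h1 : Dt φ x) (h2 : Dt ψ y) : Dt (φ * ψ) (x.mul y) := by
  intro c
  have h3 := ((h2 (x.p c)).map (φ : F →* F)).ev (x.b c)
  rw [← ev_map] at h3
  refine (h1 c).trans ?_
  show Eqv _ (ev (sH F) (x.b c ++ y.b (x.p c)) _)
  rw [ev_append]
  exact h3

lemma sem_mapL (v : W) (t : List (List Lt)) : sem (mapL v.1 t) = wa v ∘ sem t := by
  funext i
  have : (mapL v.1 t).getD i [] = (t.getD i []).map v.1.act := List.getD_map t [] _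
  simp only [sem, Function.comp, this, wa_mk]
  rfl

lemma sem_xL (c : Fin 16) : sem (xL c) = wa (scW c)⁻¹ ∘ sem w0L := sem_mapL (scW c)⁻¹ w0L

lemma Dt_wa (v : W) : Dt (wa v) (gT v.1) := by
  intro c
  have h1 := dec_W (scW c * v)
  have h2 := (eqvChk_sound (d1 (dec (scW c * v).1).1)).map (wa (scW c)⁻¹ : F →* F)
  rw [← ev_map, show rp _ = (rpW _).1 from rfl, sem_mapL] at h2
  rw [sem_xL, sem_xL]
  have h3 : wa v ∘ wa (scW (dec (scW c * v).1).2)⁻¹ ∘ sem w0L =
      (wa (scW c)⁻¹ : F →* F) ∘ wa (rpW (dec (scW c * v).1).1) ∘ sem w0L := by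
    have : v * (scW (dec (scW c * v).1).2)⁻¹ = (scW c)⁻¹ * rpW (dec (scW c * v).1).1 := by
      rw [mul_inv_eq_iff_eq_mul, mul_assoc, h1, inv_mul_cancel_left]
    funext i
    show (wa v * wa _) _ = (wa _ * wa _) _
    rw [← map_mul, ← map_mul, this]
  exact h3 ▸ h2

def sing (x : Lt) : Vx → Bool := fun y => decide (y = some x)

lemma e0_mk (l : List Lt) :
    aut (sing x1) x0 (FreeGroup.mk l) = FreeGroup.mk (l.flatMap sub0) := by
  induction l with
  | nil => simp [mk_nil]
  | cons x l ih =>
    rw [mk_cons, map_mul, ih, List.flatMap_cons, ← mul_mk]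
    congr 1
    obtain ⟨i, s⟩ := x
    rw [aut_apply]
    fin_cases i
    · rw [whm_lt_eq _ _ _ (by simp [x0])]; cases s <;> rfl
    · rw [whm_lt_ne _ _ _ (by simp [x0])]
      cases s
      · show 1 * (lt x0)⁻¹ * lt (linv x1) * 1 * 1⁻¹ = FreeGroup.mk [linv x0, linv x1]
        simp [mk_cons, mk_nil, lt_linv]
      · show 1 * 1⁻¹ * lt x1 * lt x0 * 1⁻¹ = FreeGroup.mk [x1, x0]
        simp [mk_cons, mk_nil]
    · rw [whm_lt_ne _ _ _ (by simp [x0])]
      cases s
      · show 1 * 1⁻¹ * lt (linv x2) * 1 * 1⁻¹ = FreeGroup.mk [linv x2]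
        simp [lt]
      · show 1 * 1⁻¹ * lt x2 * 1 * 1⁻¹ = FreeGroup.mk [x2]
        simp [lt]

lemma Dt_e0 : Dt (aut (sing x1) x0) e0W := by
  intro c
  have h := eqvChk_sound (d2' c)
  have e : sem ((xL (e0W.p c)).map (List.flatMap sub0)) = aut (sing x1) x0 ∘ sem (xL (e0W.p c)) := by
    funext i
    have : ((xL (e0W.p c)).map (List.flatMap sub0)).getD i [] =
      ((xL (e0W.p c)).getD i []).flatMap sub0 := List.getD_map _ [] _
    simp only [sem, Function.comp, this, e0_mk]
  rwa [e] at h

lemma gen_ind2 (P : AF → Prop) (hm : ∀ φ ψ, P φ → P ψ → P (φ * ψ)) (h0 : ∀ v, P (wa v))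
    (h1 : P (aut (sing x1) x0)) (φ : AF) : P φ := by
  have p1 : P 1 := by simpa using h0 1
  have p2 : ∀ x a, P (aut (sing x) a) := by
    intro x a
    by_cases h : x.1 = a.1
    · rw [aut_congr (B := fun _ => false) rfl, aut_const]
      · exact p1
      · intro y hy
        simp only [sing, Option.some.injEq, decide_eq_false_iff_not]
        rintro rfl
        exact hy h
    · obtain ⟨e1, e2⟩ := vof_smul x a h
      generalize vof x a = v at e1 e2
      subst e1 e2
      have e := wa_mul_aut v (sing (v • x1)) x0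
      have e' : pull (sing (v • x1)) v = sing x1 := by
        funext y
        cases y <;> simp [sing]
      rw [e', ← mul_inv_eq_iff_eq_mul, ← map_inv] at e
      rw [← e]
      exact hm _ _ (hm _ _ (h0 _) h1) (h0 _)
  have p3 : ∀ (l : List Lt) a, P (aut (fun y => decide (y ∈ l.map some)) a) := by
    intro l a
    induction l with
    | nil => simpa [aut_const] using p1
    | cons x l ih =>
      by_cases hx : x ∈ l
      · have : (fun y => decide (y ∈ (x :: l).map some)) = fun y => decide (y ∈ l.map some) := by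
          funext y
          simp only [List.map_cons, List.mem_cons, decide_eq_decide, or_iff_right_iff_imp]
          rintro rfl
          exact List.mem_map_of_mem hx
        rwa [this]
      · have := aut_mul (A := sing x) (B := fun y => decide (y ∈ l.map some)) a (by
          intro y hy
          obtain rfl : y = some x := by simpa [sing] using hy
          simpa using hx)
        have e : (fun y => decide (y ∈ (x :: l).map some)) =
            fun y => sing x y || decide (y ∈ l.map some) := by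
          funext y
          simp [sing]
        rw [e, ← this]
        exact hm _ _ ih (p2 x a)
  have p4 : ∀ A a, A none = false → P (aut A a) := by
    intro A a h
    have hl : ∀ x, x ∈ letters := by decide
    rw [aut_congr (B := fun y => decide (y ∈ (letters.filter fun x => A (some x)).map some))
      (by simpa using h) (fun x _ => by simp [hl])]
    exact p3 _ _
  refine gen_ind P h0 (fun A a φ h => hm _ _ ?_ h) φ
  cases hA : A none
  · exact p4 A a hA
  · rw [← aut_compl]
    exact p4 _ _ (by simp [hA])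

lemma ev_prod {G H : Type*} [Group G] [Group H] (s : ℕ → G) (t : ℕ → H) (w : List BL) :
    ev (fun k => (s k, t k)) w = (ev s w, ev t w) := by
  induction w with
  | nil => rfl
  | cons x w ih =>
    rw [ev_cons, ev_cons, ev_cons, ih]
    unfold sl
    split_ifs <;> rfl

lemma IsBraid.prod {G H : Type*} [Group G] [Group H] {s : ℕ → G} {t : ℕ → H} (hs : IsBraid s)
    (ht : IsBraid t) : IsBraid fun k => (s k, t k) where
  comm i j h := Prod.ext (hs.comm i j h) (ht.comm i j h)
  braid i h := Prod.ext (hs.braid i h) (ht.braid i h)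
  big k h := Prod.ext (hs.big k h) (ht.big k h)

lemma inner_of_eqv {φ : AF} (h : Eqv (sem w0L) (φ ∘ sem w0L)) : ∃ g, MulAut.conj g = φ := by
  have s0 : sem w0L 0 = 1 := rfl
  have s1 : sem w0L 1 = lt x0 := rfl
  have s2 : sem w0L 2 = (lt x1)⁻¹ * lt x0 := by rw [← lt_linv, lt, lt, mul_mk]; rfl
  have s3 : sem w0L 3 = (lt x1)⁻¹ := by rw [← lt_linv]; rfl
  have s6 : sem w0L 6 = lt x0 * lt x2 := by rw [lt, lt, mul_mk]; rfl
  obtain ⟨g, h, H | H⟩ := h
  · have a0 := H 0 (by omega)
    have a1 := H 1 (by omega)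
    have a3 := H 3 (by omega)
    have a6 := H 6 (by omega)
    simp only [Function.comp, s0, s1, s3, s6, map_one, map_mul, map_inv, mul_one] at a0 a1 a3 a6
    obtain rfl : h = g⁻¹ := eq_inv_of_mul_eq_one_right a0.symm
    refine ⟨g, aut_ext' fun i => ?_⟩
    fin_cases i
    · exact a1.symm
    · show g * lt x1 * g⁻¹ = φ (lt x1)
      rw [← inv_inj, a3]; group
    · show g * lt x2 * g⁻¹ = φ (lt x2)
      rw [← mul_right_inj (φ (lt x0)), a6, a1]; group
  · exfalso
    have a0 := H 0 (by omega)
    have a1 := H 1 (by omega)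
    have a2 := H 2 (by omega)
    have a3 := H 3 (by omega)
    simp only [Function.comp, s0, s1, s2, s3, map_one, map_mul, inv_one, mul_one] at a0 a1 a2 a3
    obtain rfl : h = g⁻¹ := eq_inv_of_mul_eq_one_right a0.symm
    rw [a1, a3] at a2
    have a4 : lt x1 * lt (linv x0) = lt (linv x0) * lt x1 := by
      rw [lt_linv]
      calc _ = g⁻¹ * (g * (lt x1)⁻¹⁻¹ * g⁻¹ * (g * (lt x0)⁻¹ * g⁻¹)) * g := by group
        _ = _ := by rw [a2]; group
    simp only [lt, mul_mk] at a4
    exact absurd (reduce.sound a4) (by decide)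

theorem exists_rep : ∃ Φ : AF →* TT, Φ.ker = (MulAut.conj : F →* AF).range := by
  obtain ⟨Φ, h1, h2⟩ := rels.exists_hom
  refine ⟨Φ, le_antisymm (fun φ hφ => ?_) ?_⟩
  · obtain ⟨x, hx, hd⟩ := gen_ind2 (fun φ => ∃ x, (Φ φ : Module.End ℂ U) = rep x ∧ Dt φ x)
      (fun φ ψ ⟨x, a, b⟩ ⟨y, c, d⟩ =>
        ⟨x.mul y, by rw [map_mul, Units.val_mul, a, c, rep_mul], b.mul d⟩)
      (fun v => ⟨gT v.1, by rw [h2, gU_val], Dt_wa v⟩)
      ⟨e0W, by
        rw [h1]
        have : fT gU eU (sing x1) x0 = eU := by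
          have e : vof x1 x0 = 1 := Subtype.ext (by decide)
          have e' : fT gU eU (sing x1) x0 = 1 * (1 * (eT gU eU x1 x0 * (1 * (1 * (1 * 1))))) := rfl
          simp [e', eT, e, show x1.1 ≠ x0.1 by decide]
        rw [this]; rfl, Dt_e0⟩ φ
    rw [MonoidHom.mem_ker.1 hφ, Units.val_one] at hx
    have hp : x.p 0 = 0 := by
      by_contra hne
      have := congrFun (LinearMap.congr_fun hx (Pi.single (x.p 0) 1)) 0
      rw [rep_apply, Pi.single_eq_same, Module.End.one_apply, Pi.single_eq_of_ne (Ne.symm hne),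
        Ad_apply, one_mul, Units.mul_inv] at this
      exact zero_ne_one this
    have hc : ev sGL (x.b 0) ∈ Subgroup.center GL21 := center_of_Ad fun X => by
      have := congrFun (LinearMap.congr_fun hx fun _ => X) 0
      exact this.symm
    obtain ⟨k, hk⟩ := faithful (MonoidHom.fst GL21 (Equiv.Perm (ℕ → F))) (fun _ => rfl)
      (isBraid_sGL.prod isBraid_sH) (x.b 0) (by rwa [ev_prod])
    rw [ev_prod, ev_prod] at hk
    have hk' : ev (sH F) (x.b 0) = ev (sH F) d2 ^ k := congrArg Prod.snd hk
    have h3 := hd 0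
    have e : xL 0 = w0L := by decide
    rw [hp, hk', e] at h3
    exact inner_of_eqv (h3.trans (eqv_zpow _ eqv_d2 k _).symm)
  · rintro _ ⟨g, rfl⟩
    have : Φ.comp MulAut.conj = 1 := by
      refine hom_ext_lt fun a => ?_
      have e : MulAut.conj (lt a) = aut (fun y => y.isNone) a := by
        refine aut_ext fun x => ?_
        by_cases hx : x.1 = a.1
        · rw [aut_apply, whm_lt_eq _ _ _ hx]
          rcases eq_or_eq_linv hx with rfl | rfl <;> simp [lt_linv]
        · simp [whm_lt_ne _ _ _ hx]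
      rw [MonoidHom.comp_apply, e, h1, f_congr (B := fun _ => false) fun _ _ => rfl, f_none]
      rfl
    exact DFunLike.congr_fun this g

end Pool.Agent.MP_6bf536_al
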