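import Pool.Agent.MP_6bf536_al.Rels
import Pool.Agent.MP_6bf536_al.Hur

/-!
Words in the wreath product of the braid group on seven strands with the permutations of sixteen
cosets, and the finite verifications.
-/

set_option autoImplicit false

namespace Pool.Agent.MP_6bf536_al

structure TW where
  p : Fin 16 → Fin 16
  b : Fin 16 → List BL

def TW.one : TW := ⟨fun c => c, fun _ => []⟩
def TW.mul (x y : TW) : TW := ⟨fun c => y.p (x.p c), fun c => x.b c ++ y.b (x.p c)⟩
def TW.prod : List TW → TW
  | [] => TW.one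
  | x :: l => x.mul (TW.prod l)

def scT : List SP :=
  [⟨(0, true), (1, true), (2, true)⟩,
   ⟨(1, false), (0, true), (2, true)⟩,
   ⟨(0, false), (1, false), (2, true)⟩,
   ⟨(0, true), (2, true), (1, false)⟩,
   ⟨(0, true), (1, false), (2, false)⟩,
   ⟨(0, false), (2, true), (1, true)⟩,
   ⟨(0, false), (1, true), (2, false)⟩,
   ⟨(1, true), (0, true), (2, false)⟩,
   ⟨(1, true), (0, true), (2, true)⟩,
   ⟨(0, false), (1, true), (2, true)⟩,
   ⟨(0, false), (2, true), (1, false)⟩,
   ⟨(0, true), (1, false), (2, true)⟩,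
   ⟨(0, true), (2, true), (1, true)⟩,
   ⟨(0, false), (1, false), (2, false)⟩,
   ⟨(1, false), (0, true), (2, false)⟩,
   ⟨(0, true), (1, true), (2, false)⟩]

def rpT : List SP :=
  [⟨(0, true), (1, true), (2, true)⟩,
   ⟨(2, false), (0, true), (1, false)⟩,
   ⟨(1, true), (2, false), (0, false)⟩]

def rwT : List (List BL) :=
  [[],
   [(0, true), (1, true), (2, true), (3, true), (4, true), (5, true), (0, true), (1, true), (2, true), (3, true), (4, true), (0, true), (1, true), (0, true)],
   [(0, false), (1, false), (0, false), (4, false), (3, false), (2, false), (1, false), (0, false), (5, false), (4, false), (3, false), (2, false), (1, false), (0, false)]]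

def decT : List (List (List (Fin 3 × Fin 16))) :=
  [[[],
    [],
    [(0, 0), (0, 0), (0, 0), (0, 0), (0, 0), (0, 15)],
    [(0, 0), (0, 0), (0, 0), (0, 0), (0, 11), (0, 4)],
    [(0, 0), (0, 0), (0, 12), (0, 3), (0, 0), (0, 0)],
    [(0, 0), (0, 0), (1, 7), (1, 8), (0, 0), (0, 0)]],
   [[],
    [],
    [(0, 0), (0, 0), (0, 0), (0, 0), (0, 9), (0, 6)],
    [(0, 0), (0, 0), (0, 0), (0, 0), (0, 2), (0, 13)],
    [(0, 0), (0, 0), (0, 5), (0, 10), (0, 0), (0, 0)],
    [(0, 0), (0, 0), (1, 14), (1, 1), (0, 0), (0, 0)]],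
   [[(0, 0), (0, 0), (0, 0), (0, 0), (0, 8), (0, 7)],
    [(0, 0), (0, 0), (0, 0), (0, 0), (2, 3), (2, 12)],
    [],
    [],
    [(2, 4), (2, 11), (0, 0), (0, 0), (0, 0), (0, 0)],
    [(2, 15), (2, 0), (0, 0), (0, 0), (0, 0), (0, 0)]],
   [[(0, 0), (0, 0), (0, 0), (0, 0), (0, 1), (0, 14)],
    [(0, 0), (0, 0), (0, 0), (0, 0), (2, 10), (2, 5)],
    [],
    [],
    [(2, 13), (2, 2), (0, 0), (0, 0), (0, 0), (0, 0)],
    [(2, 6), (2, 9), (0, 0), (0, 0), (0, 0), (0, 0)]],
   [[(0, 0), (0, 0), (1, 6), (1, 9), (0, 0), (0, 0)],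
    [(0, 0), (0, 0), (1, 13), (1, 2), (0, 0), (0, 0)],
    [(2, 14), (2, 1), (0, 0), (0, 0), (0, 0), (0, 0)],
    [(1, 5), (1, 10), (0, 0), (0, 0), (0, 0), (0, 0)],
    [],
    []],
   [[(0, 0), (0, 0), (1, 15), (1, 0), (0, 0), (0, 0)],
    [(0, 0), (0, 0), (1, 4), (1, 11), (0, 0), (0, 0)],
    [(2, 7), (2, 8), (0, 0), (0, 0), (0, 0), (0, 0)],
    [(1, 12), (1, 3), (0, 0), (0, 0), (0, 0), (0, 0)],
    [],
    []]]

def e0p : List (Fin 16) :=
  [1, 0, 2, 3, 4, 5, 7, 6, 9, 8, 10, 11, 12, 13, 15, 14]

def e0b : List (List BL) :=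
  [[(1, false), (2, false), (5, true), (4, true)],
   [(2, true), (3, true), (1, true), (2, true), (0, true), (1, true), (0, true), (0, true), (1, true), (2, true), (3, true), (4, true), (5, true), (0, true)],
   [(4, false), (2, true)],
   [(0, false), (2, true)],
   [(2, false), (4, true)],
   [(2, false), (0, true)],
   [(0, false), (5, false), (4, false), (3, false), (2, false), (1, false), (0, false), (0, false), (1, false), (0, false), (2, false), (1, false), (3, false), (2, false)],
   [(4, false), (5, false), (2, true), (1, true)],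
   [(4, false), (5, false), (2, true), (1, true)],
   [(0, false), (5, false), (4, false), (3, false), (2, false), (1, false), (0, false), (0, false), (1, false), (0, false), (2, false), (1, false), (3, false), (2, false)],
   [(2, false), (0, true)],
   [(2, false), (4, true)],
   [(0, false), (2, true)],
   [(4, false), (2, true)],
   [(2, true), (3, true), (1, true), (2, true), (0, true), (1, true), (0, true), (0, true), (1, true), (2, true), (3, true), (4, true), (5, true), (0, true)],
   [(1, false), (2, false), (5, true), (4, true)]]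

def e0c : List (List Lt × List Lt × Bool) :=
  [([], [], true),
   ([(0, false), (2, true)], [(0, true), (2, true)], false),
   ([], [], true),
   ([], [(0, true)], true),
   ([], [], true),
   ([], [(0, true)], true),
   ([(0, false), (2, false)], [(0, true), (2, false)], false),
   ([], [], true),
   ([], [], true),
   ([(0, false), (2, true)], [(0, true), (2, true)], false),
   ([], [(0, true)], true),
   ([], [], true),
   ([], [(0, true)], true),
   ([], [], true),
   ([(0, false), (2, false)], [(0, true), (2, false)], false),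
   ([], [], true)]

def rwc : List (List Lt × List Lt × Bool) :=
  [([], [], true),
   ([(2, true)], [(1, false)], false),
   ([(2, true)], [(0, false)], false)]

def w0L : List (List Lt) :=
  [[],
   [(0, true)],
   [(1, false), (0, true)],
   [(1, false)],
   [(1, false), (2, true)],
   [(1, false), (0, true), (2, true)],
   [(0, true), (2, true)]]

def sc (c : Fin 16) : SP := scT.getD c SP.one
def rp (k : Fin 3) : SP := rpT.getD k SP.one
def rw3 (k : Fin 3) : List BL := rwT.getD k []
def lidx (x : Lt) : ℕ := 2 * x.1.val + (if x.2 then 0 else 1)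
def dec (u : SP) : Fin 3 × Fin 16 :=
  ((decT.getD (lidx u.p) []).getD (lidx u.q) []).getD (lidx u.r) (0, 0)

def gT (v : SP) : TW := ⟨fun c => (dec ((sc c).comp v)).2, fun c => rw3 (dec ((sc c).comp v)).1⟩
def e0W : TW := ⟨fun c => e0p.getD c 0, fun c => e0b.getD c []⟩
def eW (x a : Lt) : TW :=
  if x.1 = a.1 then TW.one else ((gT (vofS x a)).mul e0W).mul (gT (vofS x a).inv)
def fW (A : Vx → Bool) (a : Lt) : TW :=
  TW.prod (letters.map fun x => if A (some x) then eW x a else TW.one)

noncomputable def eqT (x y : TW) : Bool :=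
  (List.finRange 16).all fun c => x.p c == y.p c && chk (x.b c ++ binv (y.b c))

lemma sc_valid : ∀ c, (sc c).Valid := by decide +kernel
lemma rp_valid : ∀ k, (rp k).Valid := by decide +kernel
lemma rp_add : ∀ k k', (rp k).comp (rp k') = rp (k + k') := by decide +kernel
lemma dec_spec : ∀ p q r : Lt, (SP.mk p q r).Valid →
    (rp (dec ⟨p, q, r⟩).1).comp (sc (dec ⟨p, q, r⟩).2) = ⟨p, q, r⟩ := by decide +kernel
lemma dec_uniq : ∀ k c, dec ((rp k).comp (sc c)) = (k, c) := by decide +kernel
lemma rw3_add : ∀ k k', chk (rw3 k ++ rw3 k' ++ binv (rw3 (k + k'))) = true := by decide +kernel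

lemma c0a : eqT (e0W.mul (eW x1 (linv x0))) TW.one = true := by decide +kernel
lemma c0b : eqT ((eW x1 (linv x0)).mul e0W) TW.one = true := by decide +kernel
lemma c1 : eqT ((gT ic.1).mul e0W) (e0W.mul (gT ic.1)) = true := by decide +kernel
lemma c2 : eqT ((eW x1 (linv x0)).mul (eW x1 x0)) TW.one = true := by decide +kernel
def mapL (v : SP) (t : List (List Lt)) : List (List Lt) := t.map (List.map v.act)
def xL (c : Fin 16) : List (List Lt) := mapL (sc c).inv w0L
def sub0 (x : Lt) : List Lt :=
  if x = x1 then [x1, x0] else if x = linv x1 then [linv x0, linv x1] else [x]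

lemma d1 : ∀ k : Fin 3, eqvChk w0L (mapL (rp k) w0L) (rw3 k) (rwc.getD k ([], [], true)).1
    (rwc.getD k ([], [], true)).2.1 (rwc.getD k ([], [], true)).2.2 = true := by decide +kernel
lemma d2' : ∀ c : Fin 16, eqvChk (xL c) ((xL (e0W.p c)).map (List.flatMap sub0)) (e0W.b c)
    (e0c.getD c ([], [], true)).1 (e0c.getD c ([], [], true)).2.1
    (e0c.getD c ([], [], true)).2.2 = true := by decide +kernel

end Pool.Agent.MP_6bf536_al
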